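import Mathlib
import Pool.Agent.TH119.DR.Rat

/-!
# Lie subalgebras of `sl₂` which are rational on both sides of a period matrix
-/

set_option linter.unusedSectionVars false

namespace Pool.Agent.TH119.MX

open Finset Matrix Pool.Agent.TH119.DR

/-- Matrices with two rows and columns. -/
abbrev M2 := Matrix (Fin 2) (Fin 2) ℂ

/-- `K` is algebraically closed in `ℂ`, in the form that is used: square roots. -/
def SqClosed (K : Subfield ℂ) : Prop := ∀ z : ℂ, z * z ∈ K → z ∈ K

/-- the commutator of two traceless matrices orthogonal to a third one is a multiple of it -/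
theorem comm_prop {k x y : M2} (hk : k.trace = 0) (hx : x.trace = 0) (hy : y.trace = 0)
    (hkx : (k * x).trace = 0) (hky : (k * y).trace = 0) (hk0 : k ≠ 0) :
    ∃ c : ℂ, x * y - y * x = c • k := by
  simp only [Matrix.trace_fin_two, Matrix.mul_apply, Fin.sum_univ_two] at hk hx hy hkx hky
  have hk1 : k 1 1 = - k 0 0 := by linear_combination hk
  have hx1 : x 1 1 = - x 0 0 := by linear_combination hx
  have hy1 : y 1 1 = - y 0 0 := by linear_combination hy
  rw [hk1, hx1] at hkx
  rw [hk1, hy1] at hky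
  have e1 : 2 * (k 0 0 * x 0 0) + k 0 1 * x 1 0 + k 1 0 * x 0 1 = 0 := by linear_combination hkx
  have e2 : 2 * (k 0 0 * y 0 0) + k 0 1 * y 1 0 + k 1 0 * y 0 1 = 0 := by linear_combination hky
  -- the entries of the commutator
  have c00 : (x * y - y * x) 0 0 = x 0 1 * y 1 0 - y 0 1 * x 1 0 := by
    simp only [Matrix.sub_apply, Matrix.mul_apply, Fin.sum_univ_two]
    ring
  have c01 : (x * y - y * x) 0 1 = 2 * (x 0 0 * y 0 1 - y 0 0 * x 0 1) := by
    simp only [Matrix.sub_apply, Matrix.mul_apply, Fin.sum_univ_two, hx1, hy1]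
    ring
  have c10 : (x * y - y * x) 1 0 = 2 * (x 1 0 * y 0 0 - y 1 0 * x 0 0) := by
    simp only [Matrix.sub_apply, Matrix.mul_apply, Fin.sum_univ_two, hx1, hy1]
    ring
  have c11 : (x * y - y * x) 1 1 = -(x 0 1 * y 1 0 - y 0 1 * x 1 0) := by
    simp only [Matrix.sub_apply, Matrix.mul_apply, Fin.sum_univ_two]
    ring
  by_cases h0 : k 0 0 = 0
  · by_cases h1 : k 0 1 = 0
    · have h2 : k 1 0 ≠ 0 := by
        intro h2
        apply hk0
        ext i j
        fin_cases i <;> fin_cases j <;> simp [h0, h1, h2, hk1]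
      rw [h0, h1] at e1 e2
      have hx01 : x 0 1 = 0 := by
        have : k 1 0 * x 0 1 = 0 := by linear_combination e1
        exact (mul_eq_zero.1 this).resolve_left h2
      have hy01 : y 0 1 = 0 := by
        have : k 1 0 * y 0 1 = 0 := by linear_combination e2
        exact (mul_eq_zero.1 this).resolve_left h2
      refine ⟨(x * y - y * x) 1 0 / k 1 0, ?_⟩
      ext i j
      fin_cases i <;> fin_cases j
      · simp only [Fin.zero_eta, Fin.isValue, Matrix.smul_apply, smul_eq_mul, h0, mul_zero]
        rw [c00, hx01, hy01]; ring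
      · simp only [Fin.zero_eta, Fin.isValue, Fin.mk_one, Matrix.smul_apply, smul_eq_mul, h1, mul_zero]
        rw [c01, hx01, hy01]; ring
      · simp only [Fin.zero_eta, Fin.isValue, Fin.mk_one, Matrix.smul_apply, smul_eq_mul]
        rw [div_mul_cancel₀ _ h2]
      · simp only [Fin.isValue, Fin.mk_one, Matrix.smul_apply, smul_eq_mul, hk1, h0, neg_zero, mul_zero]
        rw [c11, hx01, hy01]; ring
    · refine ⟨(x * y - y * x) 0 1 / k 0 1, ?_⟩
      rw [h0] at e1 e2
      ext i j
      fin_cases i <;> fin_cases j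
      · simp only [Fin.zero_eta, Fin.isValue, Matrix.smul_apply, smul_eq_mul, h0, mul_zero]
        rw [c00]
        have : k 0 1 * (x 0 1 * y 1 0 - y 0 1 * x 1 0) = 0 := by
          linear_combination x 0 1 * e2 - y 0 1 * e1
        exact (mul_eq_zero.1 this).resolve_left h1
      · simp only [Fin.zero_eta, Fin.isValue, Fin.mk_one, Matrix.smul_apply, smul_eq_mul]
        rw [div_mul_cancel₀ _ h1]
      · simp only [Fin.zero_eta, Fin.isValue, Fin.mk_one, Matrix.smul_apply, smul_eq_mul]
        rw [c10, c01, div_mul_eq_mul_div, eq_div_iff h1]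
        linear_combination 2 * y 0 0 * e1 - 2 * x 0 0 * e2
      · simp only [Fin.isValue, Fin.mk_one, Matrix.smul_apply, smul_eq_mul, hk1, h0, neg_zero, mul_zero]
        rw [c11]
        have : k 0 1 * (x 0 1 * y 1 0 - y 0 1 * x 1 0) = 0 := by
          linear_combination x 0 1 * e2 - y 0 1 * e1
        rw [(mul_eq_zero.1 this).resolve_left h1, neg_zero]
  · refine ⟨(x * y - y * x) 0 0 / k 0 0, ?_⟩
    ext i j
    fin_cases i <;> fin_cases j
    · simp only [Fin.zero_eta, Fin.isValue, Matrix.smul_apply, smul_eq_mul]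
      rw [div_mul_cancel₀ _ h0]
    · simp only [Fin.zero_eta, Fin.isValue, Fin.mk_one, Matrix.smul_apply, smul_eq_mul]
      rw [c00, c01, div_mul_eq_mul_div, eq_div_iff h0]
      linear_combination y 0 1 * e1 - x 0 1 * e2
    · simp only [Fin.zero_eta, Fin.isValue, Fin.mk_one, Matrix.smul_apply, smul_eq_mul]
      rw [c00, c10, div_mul_eq_mul_div, eq_div_iff h0]
      linear_combination x 1 0 * e2 - y 1 0 * e1
    · simp only [Fin.isValue, Fin.mk_one, Matrix.smul_apply, smul_eq_mul, hk1]
      rw [c11, c00, div_mul_eq_mul_div, eq_div_iff h0]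
      ring

/-- commuting traceless matrices are proportional -/
theorem prop_of_comm {x y : M2} (hx : x.trace = 0) (hy : y.trace = 0) (hx0 : x ≠ 0)
    (h : x * y - y * x = 0) : ∃ c : ℂ, y = c • x := by
  simp only [Matrix.trace_fin_two] at hx hy
  have hx1 : x 1 1 = - x 0 0 := by linear_combination hx
  have hy1 : y 1 1 = - y 0 0 := by linear_combination hy
  have c00 : x 0 1 * y 1 0 - y 0 1 * x 1 0 = 0 := by
    have := congrFun (congrFun h 0) 0
    simp only [Matrix.sub_apply, Matrix.mul_apply, Fin.sum_univ_two, Matrix.zero_apply] at this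
    linear_combination this
  have c01 : x 0 0 * y 0 1 - y 0 0 * x 0 1 = 0 := by
    have := congrFun (congrFun h 0) 1
    simp only [Matrix.sub_apply, Matrix.mul_apply, Fin.sum_univ_two, Matrix.zero_apply, hx1,
      hy1] at this
    linear_combination this / 2
  have c10 : x 1 0 * y 0 0 - y 1 0 * x 0 0 = 0 := by
    have := congrFun (congrFun h 1) 0
    simp only [Matrix.sub_apply, Matrix.mul_apply, Fin.sum_univ_two, Matrix.zero_apply, hx1,
      hy1] at this
    linear_combination this / 2
  by_cases h0 : x 0 0 = 0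
  · by_cases h1 : x 0 1 = 0
    · have h2 : x 1 0 ≠ 0 := by
        intro h2
        apply hx0
        ext i j
        fin_cases i <;> fin_cases j <;> simp [h0, h1, h2, hx1]
      have e1 : y 0 0 = 0 := by
        rw [h0, mul_zero, sub_zero] at c10
        exact (mul_eq_zero.1 c10).resolve_left h2
      have e2 : y 0 1 = 0 := by
        rw [h1, zero_mul, zero_sub, neg_eq_zero] at c00
        exact (mul_eq_zero.1 c00).resolve_right h2
      refine ⟨y 1 0 / x 1 0, ?_⟩
      ext i j
      fin_cases i <;> fin_cases j <;> simp [h0, h1, h2, hx1, hy1, e1, e2]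
    · have e1 : y 0 0 = 0 := by
        rw [h0, zero_mul, zero_sub, neg_eq_zero] at c01
        exact (mul_eq_zero.1 c01).resolve_right h1
      refine ⟨y 0 1 / x 0 1, ?_⟩
      ext i j
      fin_cases i <;> fin_cases j
      · simp [h0, e1]
      · simp [h1]
      · simp only [Fin.zero_eta, Fin.isValue, Fin.mk_one, Matrix.smul_apply, smul_eq_mul]
        rw [div_mul_eq_mul_div, eq_div_iff h1]
        linear_combination c00
      · simp [h0, e1, hx1, hy1]
  · refine ⟨y 0 0 / x 0 0, ?_⟩
    ext i j
    fin_cases i <;> fin_cases j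
    · simp [h0]
    · simp only [Fin.zero_eta, Fin.isValue, Fin.mk_one, Matrix.smul_apply, smul_eq_mul]
      rw [div_mul_eq_mul_div, eq_div_iff h0]
      linear_combination c01
    · simp only [Fin.zero_eta, Fin.isValue, Fin.mk_one, Matrix.smul_apply, smul_eq_mul]
      rw [div_mul_eq_mul_div, eq_div_iff h0]
      linear_combination -c10
    · simp [h0, hx1, hy1]

/-- A left eigenvector with coordinates in `K`. -/
theorem exists_eigen {K : Subfield ℂ} (hK : SqClosed K) {n : M2} (hn : n.trace = 0) (hn0 : n ≠ 0)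
    (hnK : ∀ i j, n i j ∈ K) : ∃ (ν : Fin 2 → ℂ) (a : ℂ), ν ≠ 0 ∧ (∀ i, ν i ∈ K) ∧
      ν ᵥ* n = a • ν := by
  simp only [Matrix.trace_fin_two] at hn
  have hn1 : n 1 1 = - n 0 0 := by linear_combination hn
  obtain ⟨a, ha⟩ := IsAlgClosed.exists_pow_nat_eq (n 0 0 * n 0 0 + n 0 1 * n 1 0) (n := 2)
    two_pos
  have haK : a ∈ K := by
    apply hK
    rw [← sq, ha]
    exact K.add_mem (K.mul_mem (hnK _ _) (hnK _ _)) (K.mul_mem (hnK _ _) (hnK _ _))
  rw [sq] at ha
  by_cases h : n 1 0 = 0 ∧ a = n 0 0
  · obtain ⟨h1, h2⟩ := h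
    refine ⟨![2 * n 0 0, n 0 1], n 0 0, ?_, ?_, ?_⟩
    · intro h3
      apply hn0
      have h4 := congrFun h3 0
      have h5 := congrFun h3 1
      simp only [Matrix.cons_val_zero, Matrix.cons_val_one, Pi.zero_apply, mul_eq_zero,
        OfNat.ofNat_ne_zero, false_or] at h4 h5
      ext i j
      fin_cases i <;> fin_cases j <;> simp [h1, h4, h5, hn1]
    · intro i
      fin_cases i
      · exact K.mul_mem (ofNat_mem K 2) (hnK _ _)
      · exact hnK _ _
    · funext j
      fin_cases j
      · simp [Matrix.vecMul, dotProduct, Fin.sum_univ_two, h1]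
        ring
      · simp [Matrix.vecMul, dotProduct, Fin.sum_univ_two, hn1]
        ring
  · refine ⟨![n 1 0, a - n 0 0], a, ?_, ?_, ?_⟩
    · intro h3
      apply h
      have h4 := congrFun h3 0
      have h5 := congrFun h3 1
      simp only [Matrix.cons_val_zero, Matrix.cons_val_one, Pi.zero_apply] at h4 h5
      exact ⟨h4, sub_eq_zero.1 h5⟩
    · intro i
      fin_cases i
      · exact hnK _ _
      · exact K.sub_mem haK (hnK _ _)
    · funext j
      fin_cases j
      · simp [Matrix.vecMul, dotProduct, Fin.sum_univ_two]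
        ring
      · simp [Matrix.vecMul, dotProduct, Fin.sum_univ_two, hn1]
        linear_combination -ha

/-- A nonzero vector orthogonal to a left eigenvector of a matrix with entries in `K`. -/
theorem exists_orth {K : Subfield ℂ} (hK : SqClosed K) {n : M2} (hn : n.trace = 0) (hn0 : n ≠ 0)
    (hnK : ∀ i j, n i j ∈ K) {r : Fin 2 → ℂ} (hr : r ≠ 0) {a : ℂ} (h : r ᵥ* n = a • r) :
    ∃ q : Fin 2 → ℂ, q ≠ 0 ∧ (∀ i, q i ∈ K) ∧ r ⬝ᵥ q = 0 := by
  simp only [Matrix.trace_fin_two] at hn
  have hn1 : n 1 1 = - n 0 0 := by linear_combination hn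
  have e0 := congrFun h 0
  have e1 := congrFun h 1
  simp only [Matrix.vecMul, dotProduct, Fin.sum_univ_two, Pi.smul_apply, smul_eq_mul, hn1] at e0 e1
  have ha : a * a = n 0 0 * n 0 0 + n 0 1 * n 1 0 := by
    have h1 : (a * a - (n 0 0 * n 0 0 + n 0 1 * n 1 0)) * r 0 = 0 := by
      linear_combination (-(a + n 0 0)) * e0 - n 1 0 * e1
    have h2 : (a * a - (n 0 0 * n 0 0 + n 0 1 * n 1 0)) * r 1 = 0 := by
      linear_combination (-(a - n 0 0)) * e1 - n 0 1 * e0
    by_contra hcon
    have h3 : a * a - (n 0 0 * n 0 0 + n 0 1 * n 1 0) ≠ 0 := sub_ne_zero.2 hcon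
    apply hr
    funext i
    fin_cases i
    · exact (mul_eq_zero.1 h1).resolve_left h3
    · exact (mul_eq_zero.1 h2).resolve_left h3
  have haK : a ∈ K := by
    apply hK
    rw [ha]
    exact K.add_mem (K.mul_mem (hnK _ _) (hnK _ _)) (K.mul_mem (hnK _ _) (hnK _ _))
  by_cases hq : n 0 0 - a = 0 ∧ n 1 0 = 0
  · refine ⟨![n 0 1, - n 0 0 - a], ?_, ?_, ?_⟩
    · intro h3
      have h4 := congrFun h3 0
      have h5 := congrFun h3 1
      simp only [Matrix.cons_val_zero, Matrix.cons_val_one, Pi.zero_apply] at h4 h5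
      apply hn0
      have h6 : n 0 0 = 0 := by linear_combination (hq.1 - h5) / 2
      ext i j
      fin_cases i <;> fin_cases j <;> simp [h4, h6, hq.2, hn1]
    · intro i
      fin_cases i
      · exact hnK _ _
      · exact K.sub_mem (K.neg_mem (hnK _ _)) haK
    · simp only [dotProduct, Fin.sum_univ_two, Matrix.cons_val_zero, Matrix.cons_val_one]
      linear_combination e1
  · refine ⟨![n 0 0 - a, n 1 0], ?_, ?_, ?_⟩
    · intro h3
      apply hq
      have h4 := congrFun h3 0
      have h5 := congrFun h3 1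
      simp only [Matrix.cons_val_zero, Matrix.cons_val_one, Pi.zero_apply] at h4 h5
      exact ⟨h4, h5⟩
    · intro i
      fin_cases i
      · exact K.sub_mem (hnK _ _) haK
      · exact hnK _ _
    · simp only [dotProduct, Fin.sum_univ_two, Matrix.cons_val_zero, Matrix.cons_val_one]
      linear_combination e0

end Pool.Agent.TH119.MX
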