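import Mathlib
import Pool.Agent.TH119.MX.Sl2

/-!
# Lie subalgebras of `sl₂` which are rational on both sides of a period matrix, second part
-/

set_option linter.unusedSectionVars false

namespace Pool.Agent.TH119.MX

open Finset Matrix Pool.Agent.TH119.DR

/-- A linear map over `K` as a linear map over a smaller field. -/
noncomputable def lower {F K : Subfield ℂ} (hFK : F ≤ K) (f : ℂ →ₗ[K] ℂ) : ℂ →ₗ[F] ℂ where
  toFun := f
  map_add' := f.map_add
  map_smul' c x := by
    change f ((c : ℂ) * x) = (c : ℂ) * f x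
    exact lin_mul f (hFK c.2) x

theorem lower_apply {F K : Subfield ℂ} (hFK : F ≤ K) (f : ℂ →ₗ[K] ℂ) (x : ℂ) :
    lower hFK f x = f x := rfl

theorem coe_lower {F K : Subfield ℂ} (hFK : F ≤ K) (f : ℂ →ₗ[K] ℂ) :
    (lower hFK f : ℂ → ℂ) = f := rfl

/-- If the elements with coordinates in `K` commute then all elements commute. -/
theorem comm_of_coords {K : Subfield ℂ} {T : Submodule ℂ M2}
    (h : ∀ x ∈ T, x ∈ Submodule.span ℂ {Y | Y ∈ T ∧ ∀ a b, Y a b ∈ K})
    (hc : ∀ x ∈ T, (∀ a b, x a b ∈ K) → ∀ y ∈ T, (∀ a b, y a b ∈ K) → x * y - y * x = 0) :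
    ∀ x ∈ T, ∀ y ∈ T, x * y - y * x = 0 := by
  intro x hx y hy
  have h1 := h x hx
  clear hx
  induction h1 using Submodule.span_induction with
  | mem x hx =>
    have h2 := h y hy
    clear hy
    induction h2 using Submodule.span_induction with
    | mem y hy => exact hc x hx.1 hx.2 y hy.1 hy.2
    | zero => rw [mul_zero, zero_mul, sub_zero]
    | add a b _ _ ha hb =>
      have : x * (a + b) - (a + b) * x = (x * a - a * x) + (x * b - b * x) := by
        rw [mul_add, add_mul]; abel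
      rw [this, ha, hb, add_zero]
    | smul c a _ ha =>
      have : x * (c • a) - (c • a) * x = c • (x * a - a * x) := by
        rw [mul_smul_comm, smul_mul_assoc, smul_sub]
      rw [this, ha, smul_zero]
  | zero => rw [mul_zero, zero_mul, sub_zero]
  | add a b _ _ ha hb =>
    have : (a + b) * y - y * (a + b) = (a * y - y * a) + (b * y - y * b) := by
      rw [mul_add, add_mul]; abel
    rw [this, ha, hb, add_zero]
  | smul c a _ ha =>
    have : (c • a) * y - y * (c • a) = c • (a * y - y * a) := by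
      rw [mul_smul_comm, smul_mul_assoc, smul_sub]
    rw [this, ha, smul_zero]

/-- A nonzero space defined over `K` has a nonzero element with coordinates in `K`. -/
theorem exists_coord_ne {K : Subfield ℂ} {T : Submodule ℂ M2}
    (h : ∀ x ∈ T, x ∈ Submodule.span ℂ {Y | Y ∈ T ∧ ∀ a b, Y a b ∈ K}) {t : M2} (ht : t ∈ T)
    (ht0 : t ≠ 0) : ∃ n ∈ T, n ≠ 0 ∧ ∀ a b, n a b ∈ K := by
  by_contra hcon
  push Not at hcon
  apply ht0
  have h1 := h t ht
  clear ht ht0
  induction h1 using Submodule.span_induction with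
  | mem x hx =>
    by_contra h2
    obtain ⟨a, b, h3⟩ := hcon x hx.1 h2
    exact h3 (hx.2 a b)
  | zero => rfl
  | add a b _ _ ha hb => rw [ha, hb, add_zero]
  | smul c a _ ha => rw [ha, smul_zero]

/-- A linear form on two by two matrices, as a trace. -/
theorem exists_trace_form (ψ : M2 →ₗ[ℂ] ℂ) : ∃ k : M2, ∀ x : M2, ψ x = (k * x).trace := by
  refine ⟨Matrix.of fun j i => ψ (Matrix.single i j 1), fun x => ?_⟩
  rw [form_eq' ψ x]
  simp only [Matrix.trace_fin_two, Matrix.mul_apply, Fin.sum_univ_two, Matrix.of_apply]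
  ring
where
  form_eq' (ψ : M2 →ₗ[ℂ] ℂ) (S : M2) :
      ψ S = ∑ x, ∑ y, ψ (Matrix.single x y 1) * S x y := by
    conv_lhs => rw [matrix_eq_sum_single S]
    rw [map_sum]
    refine Finset.sum_congr rfl fun x _ => ?_
    rw [map_sum]
    refine Finset.sum_congr rfl fun y _ => ?_
    have h1 : Matrix.single x y (S x y) = S x y • Matrix.single x y (1 : ℂ) := by
      rw [Matrix.smul_single, smul_eq_mul, mul_one]
    rw [h1, map_smul, smul_eq_mul, mul_comm]

/-- The hypothesis of linear independence. -/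
def Lin2 (K : Subfield ℂ) (P : M2) : Prop :=
  ∀ q : Fin 2 → ℂ, q ≠ 0 → (∀ i, q i ∈ K) → ∀ ν : Fin 2 → ℂ, (∀ i, ν i ∈ K) →
    ν ⬝ᵥ (P *ᵥ q) = 0 → ν = 0

/-- Some derivative of the period matrix is not a multiple of it. -/
theorem exists_deriv_ne {K : Subfield ℂ} (hKA : ∀ x, IsAlgebraic ℚ x → x ∈ K) {P P' : M2}
    (h2 : P' * P = 1) (hlin : Lin2 K P) : ∃ δ : Derivation ℚ ℂ ℂ,
      P.map δ * P' - ((P.map δ * P').trace / 2) • (1 : M2) ≠ 0 := by
  by_contra hcon
  push Not at hcon
  have h3 : ∀ δ : Derivation ℚ ℂ ℂ, ∃ c : ℂ, ∀ i j, δ (P i j) = c * P i j := by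
    intro δ
    refine ⟨(P.map δ * P').trace / 2, fun i j => ?_⟩
    have h4 : P.map δ * P' = ((P.map δ * P').trace / 2) • (1 : M2) := sub_eq_zero.1 (hcon δ)
    have h5 : P.map δ = ((P.map δ * P').trace / 2) • P := by
      calc P.map δ = P.map δ * P' * P := by rw [Matrix.mul_assoc, h2, Matrix.mul_one]
        _ = (((P.map δ * P').trace / 2) • (1 : M2)) * P := by rw [← h4]
        _ = _ := by rw [smul_mul_assoc, Matrix.one_mul]
    have h6 := congrFun (congrFun h5 i) j
    rw [Matrix.map_apply, Matrix.smul_apply, smul_eq_mul] at h6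
    exact h6
  have hne : (![1, 0] : Fin 2 → ℂ) ≠ 0 := fun h => one_ne_zero (congrFun h 0)
  have hne' : (![0, 1] : Fin 2 → ℂ) ≠ 0 := fun h => one_ne_zero (congrFun h 1)
  have h01 : P 0 1 ≠ 0 := by
    intro h
    apply hne
    refine hlin ![0, 1] hne' ?_ ![1, 0] ?_ ?_
    · intro i; fin_cases i
      · exact K.zero_mem
      · exact K.one_mem
    · intro i; fin_cases i
      · exact K.one_mem
      · exact K.zero_mem
    · simp [Matrix.mulVec, dotProduct, Fin.sum_univ_two, h]
  have hz : IsAlgebraic ℚ (P 0 0 / P 0 1) := by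
    by_contra hz
    obtain ⟨δ, hδ⟩ := exists_deriv hz
    obtain ⟨c, hc⟩ := h3 δ
    apply hδ
    rw [div_eq_mul_inv, Derivation.leibniz, Derivation.leibniz_inv, hc, hc]
    simp only [smul_eq_mul]
    field_simp
    ring
  have hzK := hKA _ hz
  apply hne
  refine hlin ![1, -(P 0 0 / P 0 1)] (fun h => one_ne_zero (congrFun h 0)) ?_ ![1, 0] ?_ ?_
  · intro i; fin_cases i
    · exact K.one_mem
    · exact K.neg_mem hzK
  · intro i; fin_cases i
    · exact K.one_mem
    · exact K.zero_mem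
  · simp only [Matrix.mulVec, dotProduct, Fin.sum_univ_two, Matrix.cons_val_zero,
      Matrix.cons_val_one]
    field_simp
    ring

/-- **The Lie algebra `sl₂`** has no proper subspace which is rational on both sides. -/
theorem sl2_full {F K : Subfield ℂ} (hFK : F ≤ K) (hK : SqClosed K)
    (hKA : ∀ x, IsAlgebraic ℚ x → x ∈ K) {P P' : M2} (h1 : P * P' = 1) (h2 : P' * P = 1)
    (hlin : Lin2 K P) (T : Submodule ℂ M2) (htr : ∀ x ∈ T, x.trace = 0)
    (hF : ∀ (f : ℂ →ₗ[F] ℂ), ∀ x ∈ T, x.map f ∈ T)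
    (hKs : ∀ (f : ℂ →ₗ[K] ℂ), ∀ x ∈ T, P * (P' * x * P).map f * P' ∈ T)
    (hder : ∀ δ : Derivation ℚ ℂ ℂ, P.map δ * P' - ((P.map δ * P').trace / 2) • (1 : M2) ∈ T)
    {x : M2} (hx : x.trace = 0) : x ∈ T := by
  classical
  by_contra hxT
  -- the de Rham side
  let T' : Submodule ℂ M2 :=
    { carrier := {y | P * y * P' ∈ T}
      zero_mem' := by
        change P * 0 * P' ∈ T
        rw [Matrix.mul_zero, Matrix.zero_mul]
        exact T.zero_mem
      add_mem' := by
        intro a b ha hb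
        change P * (a + b) * P' ∈ T
        rw [Matrix.mul_add, Matrix.add_mul]
        exact T.add_mem ha hb
      smul_mem' := by
        intro c a ha
        change P * (c • a) * P' ∈ T
        rw [Matrix.mul_smul, Matrix.smul_mul]
        exact T.smul_mem c ha }
  have hT' : ∀ y, y ∈ T' ↔ P * y * P' ∈ T := fun y => Iff.rfl
  have hcj : ∀ y : M2, P' * (P * y * P') * P = y := by
    intro y
    calc P' * (P * y * P') * P = (P' * P) * y * (P' * P) := by simp only [Matrix.mul_assoc]
      _ = y := by rw [h2, Matrix.one_mul, Matrix.mul_one]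
  have hcj' : ∀ y : M2, P * (P' * y * P) * P' = y := by
    intro y
    calc P * (P' * y * P) * P' = (P * P') * y * (P * P') := by simp only [Matrix.mul_assoc]
      _ = y := by rw [h1, Matrix.one_mul, Matrix.mul_one]
  have hcoT : ∀ x ∈ T, x ∈ Submodule.span ℂ {Y | Y ∈ T ∧ ∀ a b, Y a b ∈ K} := fun x hx =>
    mat_coords T (fun f X hX => by
      have := hF (lower hFK f) X hX
      rwa [coe_lower] at this) hx
  have hcoT' : ∀ x ∈ T', x ∈ Submodule.span ℂ {Y | Y ∈ T' ∧ ∀ a b, Y a b ∈ K} := fun x hx =>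
    mat_coords T' (fun f X hX => by
      rw [hT'] at hX ⊢
      have := hKs f _ hX
      rwa [hcj] at this) hx
  have htr' : ∀ y ∈ T', y.trace = 0 := by
    intro y hy
    have h3 := htr _ hy
    rw [Matrix.trace_mul_comm, ← Matrix.mul_assoc, h2, Matrix.one_mul] at h3
    exact h3
  -- a nonzero element
  obtain ⟨δ, hδ⟩ := exists_deriv_ne hKA h2 hlin
  have ht0 := hder δ
  generalize P.map δ * P' - ((P.map δ * P').trace / 2) • (1 : M2) = t0 at hδ ht0
  have ht0' : P' * t0 * P ∈ T' := by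
    rw [hT', hcj']
    exact ht0
  have ht0n : P' * t0 * P ≠ 0 := by
    intro h
    apply hδ
    have h3 := hcj' t0
    rw [h, Matrix.mul_zero, Matrix.zero_mul] at h3
    exact h3.symm
  -- two proportional elements
  obtain ⟨n, n', μ, hn, hn0, hnK, hn', hn0', hnK', hnn⟩ : ∃ (n n' : M2) (μ : ℂ), n.trace = 0 ∧
      n ≠ 0 ∧ (∀ i j, n i j ∈ K) ∧ n'.trace = 0 ∧ n' ≠ 0 ∧ (∀ i j, n' i j ∈ K) ∧
      P * n' * P' = μ • n := by
    by_cases hcomm : ∀ x ∈ T, ∀ y ∈ T, x * y - y * x = 0
    · obtain ⟨n, hnT, hn0, hnK⟩ := exists_coord_ne hcoT ht0 hδ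
      obtain ⟨n', hnT', hn0', hnK'⟩ := exists_coord_ne hcoT' ht0' ht0n
      obtain ⟨μ, hμ⟩ := prop_of_comm (htr n hnT) (htr _ hnT') hn0 (hcomm n hnT _ hnT')
      exact ⟨n, n', μ, htr n hnT, hn0, hnK, htr' n' hnT', hn0', hnK', hμ⟩
    · -- the orthogonal element
      obtain ⟨ψ, hψ1, hψ2⟩ := Submodule.exists_le_ker_of_notMem hxT
      obtain ⟨kk, hkk⟩ := exists_trace_form ψ
      obtain ⟨k, hk⟩ : ∃ k : M2, k = kk - (kk.trace / 2) • (1 : M2) := ⟨_, rfl⟩
      have hktr : k.trace = 0 := by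
        rw [hk, Matrix.trace_sub, Matrix.trace_smul, Matrix.trace_one]
        simp
      have hkx : ∀ y : M2, y.trace = 0 → (k * y).trace = ψ y := by
        intro y hy
        rw [hk, Matrix.sub_mul, Matrix.trace_sub, Matrix.smul_mul, Matrix.one_mul,
          Matrix.trace_smul, hy, smul_zero, sub_zero, hkk]
      have hk0 : k ≠ 0 := by
        intro h
        apply hψ1
        rw [← hkx x hx, h, Matrix.zero_mul, Matrix.trace_zero]
      have hkT : ∀ y ∈ T, (k * y).trace = 0 := fun y hy => by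
        rw [hkx y (htr y hy)]
        exact LinearMap.mem_ker.1 (hψ2 hy)
      have hcomT : ∃ x ∈ T, (∀ a b, x a b ∈ K) ∧ ∃ y ∈ T, (∀ a b, y a b ∈ K) ∧
          x * y - y * x ≠ 0 := by
        by_contra hcon
        push Not at hcon
        exact hcomm (comm_of_coords hcoT fun x hx hxK y hy hyK => hcon x hx hxK y hy hyK)
      have hcomT' : ∃ x ∈ T', (∀ a b, x a b ∈ K) ∧ ∃ y ∈ T', (∀ a b, y a b ∈ K) ∧
          x * y - y * x ≠ 0 := by
        by_contra hcon
        push Not at hcon
        apply hcomm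
        have h3 := comm_of_coords hcoT' fun x hx hxK y hy hyK => hcon x hx hxK y hy hyK
        intro x hx y hy
        have h4 := h3 (P' * x * P) ((hT' _).2 (by rw [hcj']; exact hx)) (P' * y * P)
          ((hT' _).2 (by rw [hcj']; exact hy))
        have h5 : P * ((P' * x * P) * (P' * y * P) - (P' * y * P) * (P' * x * P)) * P' =
            x * y - y * x := by
          rw [Matrix.mul_sub, Matrix.sub_mul]
          congr 1
          · calc P * (P' * x * P * (P' * y * P)) * P'
                = (P * P') * x * (P * P') * y * (P * P') := by simp only [Matrix.mul_assoc]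
              _ = x * y := by rw [h1, Matrix.one_mul, Matrix.mul_one, Matrix.mul_one]
          · calc P * (P' * y * P * (P' * x * P)) * P'
                = (P * P') * y * (P * P') * x * (P * P') := by simp only [Matrix.mul_assoc]
              _ = y * x := by rw [h1, Matrix.one_mul, Matrix.mul_one, Matrix.mul_one]
        rw [← h5, h4, Matrix.mul_zero, Matrix.zero_mul]
      obtain ⟨x1, hx1, hx1K, y1, hy1, hy1K, hxy1⟩ := hcomT
      obtain ⟨x2, hx2, hx2K, y2, hy2, hy2K, hxy2⟩ := hcomT'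
      obtain ⟨c1, hc1⟩ := comm_prop hktr (htr _ hx1) (htr _ hy1) (hkT _ hx1) (hkT _ hy1) hk0
      obtain ⟨c2, hc2⟩ := comm_prop hktr (htr _ hx2) (htr _ hy2) (hkT _ hx2) (hkT _ hy2) hk0
      have hc10 : c1 ≠ 0 := by
        rintro rfl
        apply hxy1
        rw [hc1, zero_smul]
      have htrc : ∀ a b : M2, (a * b - b * a).trace = 0 := fun a b => by
        rw [Matrix.trace_sub, Matrix.trace_mul_comm, sub_self]
      have hKc : ∀ a b : M2, (∀ i j, a i j ∈ K) → (∀ i j, b i j ∈ K) →
          ∀ i j, (a * b - b * a) i j ∈ K := by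
        intro a b ha hb i j
        rw [Matrix.sub_apply, Matrix.mul_apply, Matrix.mul_apply]
        exact K.sub_mem (K.sum_mem fun l _ => K.mul_mem (ha _ _) (hb _ _))
          (K.sum_mem fun l _ => K.mul_mem (hb _ _) (ha _ _))
      refine ⟨x1 * y1 - y1 * x1, x2 * y2 - y2 * x2, c2 / c1, htrc _ _, hxy1, hKc _ _ hx1K hy1K,
        htrc _ _, hxy2, hKc _ _ hx2K hy2K, ?_⟩
      have h5 : P * (x2 * y2 - y2 * x2) * P' =
          P * x2 * P' * (P * y2 * P') - P * y2 * P' * (P * x2 * P') := by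
        rw [Matrix.mul_sub, Matrix.sub_mul]
        congr 1
        · calc P * (x2 * y2) * P' = P * x2 * 1 * y2 * P' := by
                simp only [Matrix.mul_assoc, Matrix.one_mul]
            _ = P * x2 * (P' * P) * y2 * P' := by rw [h2]
            _ = _ := by simp only [Matrix.mul_assoc]
        · calc P * (y2 * x2) * P' = P * y2 * 1 * x2 * P' := by
                simp only [Matrix.mul_assoc, Matrix.one_mul]
            _ = P * y2 * (P' * P) * x2 * P' := by rw [h2]
            _ = _ := by simp only [Matrix.mul_assoc]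
      rw [h5, hc2, hc1, smul_smul, div_mul_cancel₀ _ hc10]
  -- eigenvectors
  obtain ⟨ν, a, hν0, hνK, hν⟩ := exists_eigen hK hn hn0 hnK
  have hr : (ν ᵥ* P) ᵥ* n' = (μ * a) • (ν ᵥ* P) := by
    have h3 : P * n' = μ • (n * P) := by
      calc P * n' = (P * n' * P') * P := by rw [Matrix.mul_assoc (P * n'), h2, Matrix.mul_one]
        _ = μ • (n * P) := by rw [hnn, Matrix.smul_mul]
    rw [Matrix.vecMul_vecMul, h3, Matrix.vecMul_smul, ← Matrix.vecMul_vecMul, hν,
      Matrix.smul_vecMul, smul_smul]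
  have hr0 : ν ᵥ* P ≠ 0 := by
    intro h
    apply hν0
    have h3 : (ν ᵥ* P) ᵥ* P' = 0 := by rw [h, Matrix.zero_vecMul]
    rw [Matrix.vecMul_vecMul, h1, Matrix.vecMul_one] at h3
    exact h3
  obtain ⟨q, hq0, hqK, hq⟩ := exists_orth hK hn' hn0' hnK' hr0 hr
  apply hν0
  refine hlin q hq0 hqK ν hνK ?_
  rw [Matrix.dotProduct_mulVec]
  exact hq

end Pool.Agent.TH119.MX
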