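import Mathlib
import Pool.Agent.H977R3.CM.Aut
import Pool.Agent.TH119.DR.Rat

/-!
# Subspaces which are stable under the automorphisms of the complex numbers over a subfield
-/

set_option linter.unusedSectionVars false

namespace Pool.Agent.TH119.MX

open Pool.Agent.H977R3.CM Polynomial Pool.Agent.TH119.DR

variable {F : Subfield ℂ}

theorem move_transc {z : ℂ} (hz : Transcendental F z) :
    ∃ σ : ℂ ≃+* ℂ, (∀ x ∈ F, σ x = x) ∧ σ z ≠ z := by
  have hinj : Function.Injective (aeval z : F[X] →ₐ[F] ℂ) := transcendental_iff_injective.1 hz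
  let j : FractionRing F[X] →+* ℂ := IsFractionRing.lift (g := (aeval z : F[X] →ₐ[F] ℂ).toRingHom)
    hinj
  let e : F[X] ≃+* F[X] := (algEquivAevalXAddC (1 : F)).toRingEquiv
  let g : FractionRing F[X] ≃+* FractionRing F[X] := IsFractionRing.ringEquivOfRingEquiv e
  obtain ⟨σ, hσ⟩ := exists_aut j g
  have hj : ∀ p : F[X], j (algebraMap F[X] _ p) = aeval z p := by
    intro p
    change IsFractionRing.lift _ _ = _
    rw [IsFractionRing.lift_algebraMap]
    rfl
  have hg : ∀ p : F[X], g (algebraMap F[X] _ p) = algebraMap F[X] _ (e p) := by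
    intro p
    change IsFractionRing.ringEquivOfRingEquiv e _ = _
    rw [IsFractionRing.ringEquivOfRingEquiv_algebraMap]
  refine ⟨σ, fun x hx => ?_, fun h => ?_⟩
  · have h1 := hσ (algebraMap F[X] _ (C (⟨x, hx⟩ : F)))
    rw [hg, hj] at h1
    have h2 : e (C (⟨x, hx⟩ : F)) = C (⟨x, hx⟩ : F) := by
      simp [e]
    rw [h2, hj, aeval_C] at h1
    exact h1
  · have h1 := hσ (algebraMap F[X] _ X)
    rw [hg, hj] at h1
    have h2 : e X = X + C 1 := by
      simp [e]
    rw [h2, hj] at h1
    simp only [aeval_X, map_add, map_one] at h1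
    rw [h] at h1
    simp at h1

theorem move_alg {z : ℂ} (hz : IsAlgebraic F z) (hq : z ∉ F) :
    ∃ σ : ℂ ≃+* ℂ, (∀ x ∈ F, σ x = x) ∧ σ z ≠ z := by
  set p : F[X] := minpoly F z with hp
  have hp0 : p ≠ 0 := minpoly.ne_zero hz.isIntegral
  have hspl : (p.map (algebraMap F ℂ)).Splits := IsAlgClosed.splits _
  have hsf : p.IsSplittingField F (IntermediateField.adjoin F (p.rootSet ℂ)) :=
    IntermediateField.adjoin_rootSet_isSplittingField hspl
  let L := IntermediateField.adjoin F (p.rootSet ℂ)
  have _ : Normal F L := Normal.of_isSplittingField p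
  have _ : FiniteDimensional F L := Polynomial.IsSplittingField.finiteDimensional _ p
  have _ : IsGalois F L := ⟨⟩
  have hzL : z ∈ L := by
    apply IntermediateField.subset_adjoin
    rw [Polynomial.mem_rootSet]
    exact ⟨hp0, minpoly.aeval F z⟩
  obtain ⟨g, hg⟩ : ∃ g : L ≃ₐ[F] L, g ⟨z, hzL⟩ ≠ ⟨z, hzL⟩ := by
    by_contra hcon
    push Not at hcon
    have h1 := (IsGalois.mem_bot_iff_fixed (F := F) (E := L) ⟨z, hzL⟩).2 hcon
    obtain ⟨q, hq'⟩ := IntermediateField.mem_bot.1 h1
    apply hq
    have h2 := congrArg (fun x : L => (x : ℂ)) hq'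
    simp only at h2
    rw [← h2]
    exact q.2
  obtain ⟨σ, hσ⟩ := exists_aut (L.val : L →+* ℂ) (g : L ≃+* L)
  refine ⟨σ, fun x hx => ?_, fun h => hg ?_⟩
  · have h1 := hσ (algebraMap F L ⟨x, hx⟩)
    have h2 : (g : L ≃+* L) (algebraMap F L ⟨x, hx⟩) = algebraMap F L ⟨x, hx⟩ := g.commutes _
    rw [h2] at h1
    exact h1
  · have h1 := hσ ⟨z, hzL⟩
    apply Subtype.ext
    exact h1.symm.trans h

/-- Only the elements of `F` are fixed by all automorphisms of `ℂ` over `F`. -/
theorem exists_move {z : ℂ} (hq : z ∉ F) : ∃ σ : ℂ ≃+* ℂ, (∀ x ∈ F, σ x = x) ∧ σ z ≠ z := by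
  by_cases hz : IsAlgebraic F z
  · exact move_alg hz hq
  · exact move_transc hz

/-- A subspace which is stable under all automorphisms of `ℂ` over `F` is defined over `F`. -/
theorem defOver_of_aut {B : Type*} [Fintype B] (W : Submodule ℂ (B → ℂ))
    (hC : ∀ σ : ℂ ≃+* ℂ, (∀ x ∈ F, σ x = x) → ∀ v ∈ W, (fun i => σ (v i)) ∈ W) :
    DefOver F W := by
  classical
  have key : ∀ (n : ℕ) (v : B → ℂ), v ∈ W → (Finset.univ.filter (fun i => v i ≠ 0)).card ≤ n →
      v ∈ Submodule.span ℂ {w | w ∈ W ∧ ∀ a, w a ∈ F} := by
    intro n
    induction n with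
    | zero =>
      intro v _ hv
      have h1 : v = 0 := by
        funext i
        by_contra h
        have h2 : i ∈ Finset.univ.filter (fun i => v i ≠ 0) := by simpa using h
        rw [Nat.le_zero, Finset.card_eq_zero] at hv
        rw [hv] at h2
        exact absurd h2 (Finset.notMem_empty i)
      rw [h1]
      exact Submodule.zero_mem _
    | succ n ih =>
      intro v hv hcard
      by_cases hv0 : v = 0
      · rw [hv0]
        exact Submodule.zero_mem _
      · obtain ⟨i0, hi0⟩ : ∃ i, v i ≠ 0 := by
          by_contra hcon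
          push Not at hcon
          exact hv0 (funext hcon)
        have hw : (v i0)⁻¹ • v ∈ W := Submodule.smul_mem _ _ hv
        set w := (v i0)⁻¹ • v with hwdef
        have hwi0 : w i0 = 1 := by
          rw [hwdef, Pi.smul_apply, smul_eq_mul, inv_mul_cancel₀ hi0]
        have hwsupp : ∀ i, w i ≠ 0 → v i ≠ 0 := by
          intro i h1 h2
          apply h1
          rw [hwdef, Pi.smul_apply, h2, smul_zero]
        have hvw : v = (v i0) • w := by
          rw [hwdef, smul_smul, mul_inv_cancel₀ hi0, one_smul]
        by_cases hrat : ∀ i, w i ∈ F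
        · rw [hvw]
          exact Submodule.smul_mem _ _ (Submodule.subset_span ⟨hw, hrat⟩)
        · push Not at hrat
          obtain ⟨i1, hi1⟩ := hrat
          obtain ⟨σ, hσF, hσ⟩ := exists_move hi1
          set d : B → ℂ := fun i => σ (w i) - w i with hd
          have hdC : d ∈ W := Submodule.sub_mem _ (hC σ hσF w hw) hw
          have hd0 : d i0 = 0 := by
            rw [hd]
            simp [hwi0]
          have hd1 : d i1 ≠ 0 := sub_ne_zero.2 hσ
          have hdsupp : ∀ i, d i ≠ 0 → v i ≠ 0 := by
            intro i h1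
            apply hwsupp
            intro h2
            apply h1
            rw [hd]
            simp [h2]
          have hdcard : (Finset.univ.filter (fun i => d i ≠ 0)).card ≤ n := by
            have h1 : (Finset.univ.filter (fun i => d i ≠ 0)) ⊂
                Finset.univ.filter (fun i => v i ≠ 0) := by
              rw [Finset.ssubset_iff_of_subset]
              · exact ⟨i0, by simpa using hi0, by simpa using hd0⟩
              · intro i hi
                simp only [Finset.mem_filter, Finset.mem_univ, true_and] at hi ⊢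
                exact hdsupp i hi
            have h2 := Finset.card_lt_card h1
            omega
          have h1 := ih d hdC hdcard
          set v' : B → ℂ := v - (v i1 / d i1) • d with hv'
          have hv'C : v' ∈ W := Submodule.sub_mem _ hv (Submodule.smul_mem _ _ hdC)
          have hv'1 : v' i1 = 0 := by
            rw [hv', Pi.sub_apply, Pi.smul_apply, smul_eq_mul, div_mul_cancel₀ _ hd1, sub_self]
          have hv'card : (Finset.univ.filter (fun i => v' i ≠ 0)).card ≤ n := by
            have h1 : (Finset.univ.filter (fun i => v' i ≠ 0)) ⊂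
                Finset.univ.filter (fun i => v i ≠ 0) := by
              rw [Finset.ssubset_iff_of_subset]
              · refine ⟨i1, ?_, by simpa using hv'1⟩
                simpa using hdsupp i1 hd1
              · intro i hi
                simp only [Finset.mem_filter, Finset.mem_univ, true_and] at hi ⊢
                intro h2
                apply hi
                have h3 : d i = 0 := by
                  by_contra h4
                  exact hdsupp i h4 h2
                rw [hv', Pi.sub_apply, Pi.smul_apply, h2, h3, smul_zero, sub_zero]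
            have h2 := Finset.card_lt_card h1
            omega
          have h2 := ih v' hv'C hv'card
          have h3 : v = v' + (v i1 / d i1) • d := by
            rw [hv', sub_add_cancel]
          rw [h3]
          exact Submodule.add_mem _ h2 (Submodule.smul_mem _ _ h1)
  intro v hv
  exact key _ v hv le_rfl

end Pool.Agent.TH119.MX
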