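import Mathlib
import Pool.Agent.TH119.DR.Ten

/-!
# From the Lie algebra to the group
-/

set_option linter.unusedSectionVars false

namespace Pool.Agent.TH119.MX

open Finset Matrix Pool.Agent.W437.HK Pool.Agent.TH119.DR

variable {B κ : Type*} [Fintype B] [DecidableEq B] [Fintype κ] [DecidableEq κ]

/-- Different matrices act on the different factors. -/
def tp (E : κ → Matrix B B ℂ) (w : (κ → B) → ℂ) : (κ → B) → ℂ :=
  fun I => ∑ J : κ → B, (∏ k, E k (J k) (I k)) * w J

theorem evalF_tp (E : κ → Matrix B B ℂ) (c : (κ → B) → ℂ) (x : κ → B → ℂ) :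
    evalF (tp E c) x = evalF c (fun k => E k *ᵥ x k) := by
  unfold evalF tp
  simp only [Finset.sum_mul]
  rw [Finset.sum_comm]
  refine Finset.sum_congr rfl fun J _ => ?_
  have h1 : ∏ k, (E k *ᵥ x k) (J k) = ∑ I : κ → B, ∏ k, E k (J k) (I k) * x k (I k) := by
    simp only [mulVec, dotProduct]
    rw [Finset.prod_univ_sum, Fintype.piFinset_univ]
  rw [h1, Finset.mul_sum]
  refine Finset.sum_congr rfl fun I _ => ?_
  rw [Finset.prod_mul_distrib]
  ring

/-- The action of `X` on the factors in `T`. -/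
def tT (X : Matrix B B ℂ) (T : Finset κ) (w : (κ → B) → ℂ) : (κ → B) → ℂ :=
  tp (fun l => if l ∈ T then X else 1) w

theorem evalF_add' (c d : (κ → B) → ℂ) (x : κ → B → ℂ) :
    evalF (c + d) x = evalF c x + evalF d x := by
  simp only [evalF, Pi.add_apply, add_mul, Finset.sum_add_distrib]

theorem evalF_smul' (a : ℂ) (c : (κ → B) → ℂ) (x : κ → B → ℂ) :
    evalF (a • c) x = a * evalF c x := by
  simp only [evalF, Pi.smul_apply, smul_eq_mul, Finset.mul_sum, mul_assoc]

theorem evalF_sum' {ι : Type*} (s : Finset ι) (c : ι → (κ → B) → ℂ) (x : κ → B → ℂ) :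
    evalF (∑ i ∈ s, c i) x = ∑ i ∈ s, evalF (c i) x := by
  classical
  induction s using Finset.induction_on with
  | empty => simp [evalF]
  | insert a s ha ih => rw [Finset.sum_insert ha, Finset.sum_insert ha, evalF_add', ih]

theorem act_tT {X : Matrix B B ℂ} {ε : ℂ} (hX : X * X = ε • X) (T : Finset κ)
    (w : (κ → B) → ℂ) :
    act X (tT X T w) = ∑ k ∈ Finset.univ \ T, tT X (insert k T) w + (ε * T.card) • tT X T w := by
  refine evalF_ext fun x => ?_
  rw [evalF_act, evalF_add', evalF_sum', evalF_smul']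
  have h1 : ∀ k, evalF (tT X T w) (Function.update x k (X *ᵥ x k)) =
      if k ∈ T then ε * evalF (tT X T w) x else evalF (tT X (insert k T) w) x := by
    intro k
    unfold tT
    rw [evalF_tp, evalF_tp, evalF_tp]
    split_ifs with hk
    · have h2 : (fun l => (if l ∈ T then X else 1) *ᵥ Function.update x k (X *ᵥ x k) l) =
          Function.update (fun l => (if l ∈ T then X else 1) *ᵥ x l) k
            (ε • ((if k ∈ T then X else 1) *ᵥ x k)) := by
        funext l
        by_cases hl : l = k
        · subst hl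
          rw [Function.update_self, Function.update_self, if_pos hk, mulVec_mulVec, hX,
            Matrix.smul_mulVec]
        · rw [Function.update_of_ne hl, Function.update_of_ne hl]
      rw [h2, evalF_update_smul]
      congr 2
      exact Function.update_eq_self k _
    · congr 1
      funext l
      by_cases hl : l = k
      · subst hl
        rw [Function.update_self, if_neg hk, if_pos (Finset.mem_insert_self _ _), one_mulVec]
      · rw [Function.update_of_ne hl]
        by_cases hlT : l ∈ T
        · rw [if_pos hlT, if_pos (Finset.mem_insert_of_mem hlT)]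
        · rw [if_neg hlT, if_neg]
          intro h
          rcases Finset.mem_insert.1 h with h | h
          · exact hl h
          · exact hlT h
  rw [Finset.sum_congr rfl fun k _ => h1 k,
    ← Finset.sum_sdiff (Finset.subset_univ T)]
  congr 1
  · refine Finset.sum_congr rfl fun k hk => ?_
    rw [if_neg (Finset.mem_sdiff.1 hk).2]
  · rw [Finset.sum_congr rfl fun k hk => if_pos hk, Finset.sum_const, nsmul_eq_mul]
    ring

/-- The elementary symmetric functions of the actions. -/
def em (X : Matrix B B ℂ) (m : ℕ) (w : (κ → B) → ℂ) : (κ → B) → ℂ :=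
  ∑ T ∈ Finset.powersetCard m (Finset.univ : Finset κ), tT X T w

theorem count (g : Finset κ → (κ → B) → ℂ) (m : ℕ) :
    ∑ T ∈ Finset.powersetCard m (Finset.univ : Finset κ), ∑ k ∈ Finset.univ \ T, g (insert k T) =
      ((m : ℂ) + 1) • ∑ T ∈ Finset.powersetCard (m + 1) (Finset.univ : Finset κ), g T := by
  have h1 : ∀ T ∈ Finset.powersetCard (m + 1) (Finset.univ : Finset κ),
      ∑ _k ∈ T, g T = ((m : ℂ) + 1) • g T := by
    intro T hT
    rw [Finset.sum_const, (Finset.mem_powersetCard.1 hT).2, ← Nat.cast_smul_eq_nsmul ℂ]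
    push_cast
    rfl
  rw [Finset.smul_sum, ← Finset.sum_congr rfl h1, Finset.sum_sigma', Finset.sum_sigma']
  refine Finset.sum_bij' (fun p _ => ⟨insert p.2 p.1, p.2⟩) (fun p _ => ⟨p.1.erase p.2, p.2⟩)
    ?_ ?_ ?_ ?_ ?_
  · rintro ⟨T, k⟩ hp
    simp only [Finset.mem_sigma, Finset.mem_powersetCard, Finset.subset_univ, true_and,
      Finset.mem_sdiff, Finset.mem_univ] at hp ⊢
    exact ⟨by rw [Finset.card_insert_of_notMem hp.2, hp.1], Finset.mem_insert_self _ _⟩
  · rintro ⟨T, k⟩ hp
    simp only [Finset.mem_sigma, Finset.mem_powersetCard, Finset.subset_univ, true_and,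
      Finset.mem_sdiff, Finset.mem_univ] at hp ⊢
    exact ⟨by rw [Finset.card_erase_of_mem hp.2, hp.1, Nat.add_sub_cancel],
      Finset.notMem_erase _ _⟩
  · rintro ⟨T, k⟩ hp
    simp only [Finset.mem_sigma, Finset.mem_powersetCard, Finset.subset_univ, true_and,
      Finset.mem_sdiff, Finset.mem_univ] at hp
    simp only [Finset.erase_insert hp.2]
  · rintro ⟨T, k⟩ hp
    simp only [Finset.mem_sigma, Finset.mem_powersetCard, Finset.subset_univ, true_and,
      Finset.mem_sdiff, Finset.mem_univ] at hp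
    simp only [Finset.insert_erase hp.2]
  · rintro ⟨T, k⟩ _
    rfl

theorem act_em {X : Matrix B B ℂ} {ε : ℂ} (hX : X * X = ε • X) (m : ℕ) (w : (κ → B) → ℂ) :
    act X (em X m w) = ((m : ℂ) + 1) • em X (m + 1) w + (ε * m) • em X m w := by
  unfold em
  have h1 : act X (∑ T ∈ Finset.powersetCard m (Finset.univ : Finset κ), tT X T w) =
      ∑ T ∈ Finset.powersetCard m (Finset.univ : Finset κ), act X (tT X T w) :=
    map_sum (actR X) _ _
  rw [h1, ← count, Finset.smul_sum, ← Finset.sum_add_distrib]
  refine Finset.sum_congr rfl fun T hT => ?_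
  rw [act_tT hX, (Finset.mem_powersetCard.1 hT).2]

theorem em_mem {X : Matrix B B ℂ} {ε : ℂ} (hX : X * X = ε • X) {U : Submodule ℂ ((κ → B) → ℂ)}
    (hU : ∀ u ∈ U, act X u ∈ U) {w : (κ → B) → ℂ} (hw : w ∈ U) (m : ℕ) : em X m w ∈ U := by
  induction m with
  | zero =>
    have h1 : em X 0 w = w := by
      unfold em
      rw [Finset.powersetCard_zero, Finset.sum_singleton]
      refine evalF_ext fun x => ?_
      unfold tT
      rw [evalF_tp]
      congr 1
      funext k
      rw [if_neg (Finset.notMem_empty k), one_mulVec]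
    rw [h1]
    exact hw
  | succ m ih =>
    have h1 := act_em hX m w
    have h2 : (m : ℂ) + 1 ≠ 0 := by exact_mod_cast Nat.succ_ne_zero m
    have h3 : em X (m + 1) w = ((m : ℂ) + 1)⁻¹ • (act X (em X m w) - (ε * m) • em X m w) := by
      rw [h1, add_sub_cancel_right, smul_smul, inv_mul_cancel₀ h2, one_smul]
    rw [h3]
    exact U.smul_mem _ (U.sub_mem (hU _ ih) (U.smul_mem _ ih))

theorem pull_eq_em (X : Matrix B B ℂ) (s : ℂ) (w : (κ → B) → ℂ) :
    pull (1 + s • X) w = ∑ m ∈ Finset.range (Fintype.card κ + 1), s ^ m • em X m w := by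
  have h1 : pull (1 + s • X) w =
      ∑ T ∈ (Finset.univ : Finset κ).powerset, s ^ T.card • tT X T w := by
    funext I
    rw [Finset.sum_apply]
    unfold pull tT tp
    simp only [Pi.smul_apply, smul_eq_mul, Finset.mul_sum]
    rw [Finset.sum_comm]
    refine Finset.sum_congr rfl fun J _ => ?_
    have h2 : ∏ k, (1 + s • X) (J k) (I k) = ∏ k, ((1 : Matrix B B ℂ) (J k) (I k) +
        s * X (J k) (I k)) := rfl
    rw [h2]
    have h3 : ∏ k, ((1 : Matrix B B ℂ) (J k) (I k) + s * X (J k) (I k)) =
        ∏ k, (s * X (J k) (I k) + (1 : Matrix B B ℂ) (J k) (I k)) :=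
      Finset.prod_congr rfl fun k _ => add_comm _ _
    rw [h3, Finset.prod_add, Finset.sum_mul]
    refine Finset.sum_congr rfl fun T _ => ?_
    rw [Finset.prod_mul_distrib, Finset.prod_const, ← mul_assoc]
    congr 1
    rw [mul_assoc]
    congr 1
    rw [← Finset.prod_sdiff (Finset.subset_univ T), mul_comm]
    congr 1
    · refine Finset.prod_congr rfl fun k hk => ?_
      rw [if_neg (Finset.mem_sdiff.1 hk).2]
    · refine Finset.prod_congr rfl fun k hk => ?_
      rw [if_pos hk]
  rw [h1, Finset.sum_powerset, Finset.card_univ]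
  refine Finset.sum_congr rfl fun m _ => ?_
  unfold em
  rw [Finset.smul_sum]
  refine Finset.sum_congr rfl fun T hT => ?_
  rw [(Finset.mem_powersetCard.1 hT).2]

/-- **From the Lie algebra to the group.** -/
theorem pull_mem {X : Matrix B B ℂ} {ε : ℂ} (hX : X * X = ε • X) {U : Submodule ℂ ((κ → B) → ℂ)}
    (hU : ∀ u ∈ U, act X u ∈ U) (s : ℂ) : ∀ u ∈ U, pull (1 + s • X) u ∈ U := by
  intro u hu
  rw [pull_eq_em]
  exact U.sum_mem fun m _ => U.smul_mem _ (em_mem hX hU hu m)

end Pool.Agent.TH119.MX
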