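import Mathlib
import Pool.Agent.TH119.MX.Gal
import Pool.Agent.TH119.MX.Full
import Pool.Agent.TH119.MX.Tp

/-!
# Algebraic subgroups and subspaces of tensors
-/

set_option linter.unusedSectionVars false

namespace Pool.Agent.TH119.MX

open Finset Matrix Pool.Agent.W437.HK Pool.Agent.TH119.DR

section

variable {α : Type*} [DecidableEq α]

theorem prod_list (f : α → ℂ) (L : List α) (d : ℕ) (hd : L.length ≤ d) :
    ∏ k ∈ Finset.range d, ((L[k]?).elim 1 f) = (L.map f).prod := by
  induction L generalizing d with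
  | nil => simp
  | cons a L ih =>
    obtain ⟨d, rfl⟩ : ∃ d', d = d' + 1 := ⟨d - 1, by
      rw [List.length_cons] at hd
      omega⟩
    rw [Finset.prod_range_succ']
    simp only [List.getElem?_cons_succ, List.getElem?_cons_zero, Option.elim_some, List.map_cons,
      List.prod_cons]
    rw [ih d (by rw [List.length_cons] at hd; omega), mul_comm]

/-- Polynomials as tensors. -/
theorem exists_tensor [Fintype α] (p : MvPolynomial α ℂ) : ∃ (d : ℕ)
    (w : (Fin d → Option α) → ℂ), ∀ x : α → ℂ,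
      evalF w (fun _ o => o.elim 1 x) = MvPolynomial.eval x p := by
  let I : (α →₀ ℕ) → Fin p.totalDegree → Option α := fun m k => (Finsupp.toMultiset m).toList[(k : ℕ)]?
  refine ⟨p.totalDegree, ∑ m ∈ p.support, p.coeff m • Pi.single (I m) 1, fun x => ?_⟩
  rw [evalF_sum', MvPolynomial.eval_eq]
  refine Finset.sum_congr rfl fun m hm => ?_
  rw [evalF_smul']
  congr 1
  have h1 : evalF (Pi.single (I m) (1 : ℂ)) (fun _ o => o.elim 1 x) =
      ∏ k, (I m k).elim 1 x := by
    unfold evalF
    rw [Finset.sum_eq_single (I m)]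
    · rw [Pi.single_eq_same, one_mul]
    · intro b _ hb
      rw [Pi.single_eq_of_ne hb, zero_mul]
    · intro h
      exact absurd (Finset.mem_univ _) h
  rw [h1]
  have h2 : ∏ k : Fin p.totalDegree, (I m k).elim 1 x =
      ∏ k ∈ Finset.range p.totalDegree, (((Finsupp.toMultiset m).toList[k]?).elim 1 x) :=
    Fin.prod_univ_eq_prod_range
      (fun k => ((Finsupp.toMultiset m).toList[k]?).elim 1 x) p.totalDegree
  rw [h2, prod_list, ← Multiset.prod_coe, ← Multiset.map_coe, Multiset.coe_toList,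
    Finset.prod_multiset_map_count, Finsupp.toFinset_toMultiset]
  · exact Finset.prod_congr rfl fun i _ => by rw [Finsupp.count_toMultiset]
  · rw [Multiset.length_toList, Finsupp.card_toMultiset]
    exact MvPolynomial.le_totalDegree hm

end

variable {B : Type*} [Fintype B] [DecidableEq B]

/-- The coordinates of a matrix, with an additional coordinate `1`. -/
def cx (x : Matrix B B ℂ) : Option (B × B) → ℂ := fun o => o.elim 1 (fun p => x p.1 p.2)

/-- The multiplication from the right on the coordinates. -/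
def MM (g : Matrix B B ℂ) : Matrix (Option (B × B)) (Option (B × B)) ℂ := Matrix.of fun o o' =>
  o.elim (o'.elim 1 (fun _ => 0)) (fun p => o'.elim 0 (fun p' => if p.1 = p'.1 then g p'.2 p.2 else 0))

/-- The multiplication from the right on the coordinates, for the Lie algebra. -/
def LL (g : Matrix B B ℂ) : Matrix (Option (B × B)) (Option (B × B)) ℂ := Matrix.of fun o o' =>
  o.elim 0 (fun p => o'.elim 0 (fun p' => if p.1 = p'.1 then g p'.2 p.2 else 0))

theorem MM_mulVec (g x : Matrix B B ℂ) : MM g *ᵥ cx x = cx (x * g) := by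
  funext o
  rcases o with _ | ⟨i, j⟩
  · simp only [mulVec, dotProduct, MM, cx, Matrix.of_apply, Option.elim_none]
    rw [Fintype.sum_option]
    simp
  · simp only [mulVec, dotProduct, MM, cx, Matrix.of_apply, Option.elim_some]
    rw [Fintype.sum_option, Fintype.sum_prod_type, Matrix.mul_apply]
    simp only [Option.elim_none, Option.elim_some, zero_mul, zero_add]
    rw [Finset.sum_eq_single i]
    · simp only [if_true]
      exact Finset.sum_congr rfl fun k _ => mul_comm _ _
    · intro b _ hb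
      refine Finset.sum_eq_zero fun k _ => ?_
      rw [if_neg (Ne.symm hb), zero_mul]
    · intro h
      exact absurd (Finset.mem_univ _) h

theorem MM_mul_LL (g X : Matrix B B ℂ) : MM g * LL X = LL (X * g) := by
  ext o o'
  rw [Matrix.mul_apply, Fintype.sum_option]
  rcases o with _ | ⟨i, j⟩
  · simp [MM, LL]
  · rcases o' with _ | ⟨i', j'⟩
    · simp [MM, LL]
    · simp only [MM, LL, Matrix.of_apply, Option.elim_some, Option.elim_none, zero_mul, zero_add]
      rw [Fintype.sum_prod_type, Finset.sum_eq_single i]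
      · simp only [if_true]
        by_cases h : i = i'
        · simp only [if_pos h]
          rw [Matrix.mul_apply]
          exact Finset.sum_congr rfl fun k _ => mul_comm _ _
        · simp only [if_neg h, mul_zero, Finset.sum_const_zero]
      · intro b _ hb
        refine Finset.sum_eq_zero fun k _ => ?_
        simp only [if_neg (Ne.symm hb), zero_mul]
      · intro h
        exact absurd (Finset.mem_univ _) h

theorem LL_mul_MM (X g : Matrix B B ℂ) : LL X * MM g = LL (g * X) := by
  ext o o'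
  rw [Matrix.mul_apply, Fintype.sum_option]
  rcases o with _ | ⟨i, j⟩
  · simp [MM, LL]
  · rcases o' with _ | ⟨i', j'⟩
    · simp [MM, LL]
    · simp only [MM, LL, Matrix.of_apply, Option.elim_some, Option.elim_none, zero_mul, zero_add]
      rw [Fintype.sum_prod_type, Finset.sum_eq_single i]
      · simp only [if_true]
        by_cases h : i = i'
        · simp only [if_pos h]
          rw [Matrix.mul_apply]
          exact Finset.sum_congr rfl fun k _ => mul_comm _ _
        · simp only [if_neg h, mul_zero, Finset.sum_const_zero]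
      · intro b _ hb
        refine Finset.sum_eq_zero fun k _ => ?_
        simp only [if_neg (Ne.symm hb), zero_mul]
      · intro h
        exact absurd (Finset.mem_univ _) h

theorem LL_mul_LL (X Y : Matrix B B ℂ) : LL X * LL Y = LL (Y * X) := by
  ext o o'
  rw [Matrix.mul_apply, Fintype.sum_option]
  rcases o with _ | ⟨i, j⟩
  · simp [LL]
  · rcases o' with _ | ⟨i', j'⟩
    · simp [LL]
    · simp only [LL, Matrix.of_apply, Option.elim_some, Option.elim_none, zero_mul, zero_add]
      rw [Fintype.sum_prod_type, Finset.sum_eq_single i]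
      · simp only [if_true]
        by_cases h : i = i'
        · simp only [if_pos h]
          rw [Matrix.mul_apply]
          exact Finset.sum_congr rfl fun k _ => mul_comm _ _
        · simp only [if_neg h, mul_zero, Finset.sum_const_zero]
      · intro b _ hb
        refine Finset.sum_eq_zero fun k _ => ?_
        simp only [if_neg (Ne.symm hb), zero_mul]
      · intro h
        exact absurd (Finset.mem_univ _) h

theorem MM_mul_MM (g h : Matrix B B ℂ) : MM g * MM h = MM (h * g) := by
  ext o o'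
  rw [Matrix.mul_apply, Fintype.sum_option]
  rcases o with _ | ⟨i, j⟩
  · rcases o' with _ | ⟨i', j'⟩
    · simp [MM]
    · simp [MM]
  · rcases o' with _ | ⟨i', j'⟩
    · simp [MM]
    · simp only [MM, Matrix.of_apply, Option.elim_some, Option.elim_none, zero_mul, zero_add]
      rw [Fintype.sum_prod_type, Finset.sum_eq_single i]
      · simp only [if_true]
        by_cases h : i = i'
        · simp only [if_pos h]
          rw [Matrix.mul_apply]
          exact Finset.sum_congr rfl fun k _ => mul_comm _ _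
        · simp only [if_neg h, mul_zero, Finset.sum_const_zero]
      · intro b _ hb
        refine Finset.sum_eq_zero fun k _ => ?_
        simp only [if_neg (Ne.symm hb), zero_mul]
      · intro h
        exact absurd (Finset.mem_univ _) h

theorem LL_add (X Y : Matrix B B ℂ) : LL (X + Y) = LL X + LL Y := by
  ext o o'
  rcases o with _ | ⟨i, j⟩ <;> rcases o' with _ | ⟨i', j'⟩ <;>
    simp only [LL, Matrix.of_apply, Option.elim_some, Option.elim_none, Matrix.add_apply, add_zero]
  split_ifs <;> simp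

theorem LL_smul (a : ℂ) (X : Matrix B B ℂ) : LL (a • X) = a • LL X := by
  ext o o'
  rcases o with _ | ⟨i, j⟩ <;> rcases o' with _ | ⟨i', j'⟩ <;>
    simp [LL, Matrix.smul_apply]

theorem LL_zero : LL (0 : Matrix B B ℂ) = 0 := by
  have h1 := LL_smul 0 (0 : Matrix B B ℂ)
  rwa [zero_smul, zero_smul] at h1

theorem MM_eq (X : Matrix B B ℂ) (s : ℂ) : MM (1 + s • X) = 1 + s • LL X := by
  ext o o'
  rcases o with _ | ⟨i, j⟩
  · rcases o' with _ | ⟨i', j'⟩
    · simp [MM, LL]
    · simp [MM, LL]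
  · rcases o' with _ | ⟨i', j'⟩
    · simp [MM, LL]
    · simp only [MM, LL, Matrix.of_apply, Option.elim_some, Matrix.add_apply, Matrix.smul_apply,
        smul_eq_mul, Matrix.one_apply]
      by_cases h : i = i'
      · by_cases h' : j = j'
        · subst h; subst h'; simp
        · have h'' : ¬ j' = j := fun e => h' e.symm
          simp [h, h', h'']
      · simp [h]

theorem LL_map {f : ℂ → ℂ} (hf : f 0 = 0) (X : Matrix B B ℂ) : (LL X).map f = LL (X.map f) := by
  ext o o'
  rcases o with _ | ⟨i, j⟩ <;> rcases o' with _ | ⟨i', j'⟩ <;>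
    simp only [LL, Matrix.of_apply, Option.elim_some, Option.elim_none, Matrix.map_apply, hf]
  split_ifs
  · rfl
  · exact hf

theorem MM_map_der (δ : Derivation ℚ ℂ ℂ) (X : Matrix B B ℂ) :
    (MM X).map δ = LL (X.map δ) := by
  ext o o'
  rcases o with _ | ⟨i, j⟩
  · rcases o' with _ | ⟨i', j'⟩
    · simp [MM, LL]
    · simp [MM, LL]
  · rcases o' with _ | ⟨i', j'⟩
    · simp [MM, LL]
    · simp only [MM, LL, Matrix.of_apply, Option.elim_some, Matrix.map_apply]
      split_ifs
      · rfl
      · exact map_zero δ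

theorem MM_mem {K : Subfield ℂ} {g : Matrix B B ℂ} (hg : ∀ i j, g i j ∈ K) :
    ∀ i j, MM g i j ∈ K := by
  intro o o'
  rcases o with _ | ⟨i, j⟩
  · rcases o' with _ | ⟨i', j'⟩
    · exact K.one_mem
    · exact K.zero_mem
  · rcases o' with _ | ⟨i', j'⟩
    · exact K.zero_mem
    · simp only [MM, Matrix.of_apply, Option.elim_some]
      split_ifs
      · exact hg _ _
      · exact K.zero_mem

theorem pull_map {K : Subfield ℂ} {κ R : Type*} [Fintype κ] [DecidableEq κ] [Fintype R]
    [DecidableEq R] {E : Matrix R R ℂ} (hE : ∀ i j, E i j ∈ K) (f : ℂ →ₗ[K] ℂ)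
    (w : (κ → R) → ℂ) : pull E (fun I => f (w I)) = fun I => f (pull E w I) := by
  funext I
  unfold pull
  rw [map_sum]
  refine Finset.sum_congr rfl fun J _ => ?_
  rw [lin_mul f (K.prod_mem fun k _ => hE _ _)]

/-- The tensors which vanish on a set of matrices. -/
def Wt (H : Set (Matrix B B ℂ)) (d : ℕ) : Submodule ℂ ((Fin d → Option (B × B)) → ℂ) where
  carrier := {w | ∀ h ∈ H, evalF w (fun _ => cx h) = 0}
  zero_mem' := fun h _ => evalF_zero _
  add_mem' := by
    intro a b ha hb h hh
    rw [evalF_add', ha h hh, hb h hh, add_zero]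
  smul_mem' := by
    intro c a ha h hh
    rw [evalF_smul', ha h hh, mul_zero]

theorem mem_Wt {H : Set (Matrix B B ℂ)} {d : ℕ} {w : (Fin d → Option (B × B)) → ℂ} :
    w ∈ Wt H d ↔ ∀ h ∈ H, evalF w (fun _ => cx h) = 0 := Iff.rfl

theorem pull_mem_Wt {H : Set (Matrix B B ℂ)} {d : ℕ} {w : (Fin d → Option (B × B)) → ℂ}
    {g : Matrix B B ℂ} :
    pull (MM g) w ∈ Wt H d ↔ ∀ h ∈ H, evalF w (fun _ => cx (h * g)) = 0 := by
  rw [mem_Wt]
  refine forall₂_congr fun h _ => ?_
  rw [evalF_pull]
  simp only [MM_mulVec]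

/-- A group of invertible matrices defined by polynomials with coefficients in `F`. -/
structure AlgGrp (F : Subfield ℂ) (H : Set (Matrix B B ℂ)) : Prop where
  one : 1 ∈ H
  mul : ∀ x ∈ H, ∀ y ∈ H, x * y ∈ H
  inv : ∀ x ∈ H, ∃ y ∈ H, x * y = 1 ∧ y * x = 1
  alg : ∃ I : Set (MvPolynomial (B × B) ℂ), (∀ p ∈ I, ∀ m, p.coeff m ∈ F) ∧
    ∀ g : Matrix B B ℂ, g ∈ H ↔ (∃ g' : Matrix B B ℂ, g * g' = 1 ∧ g' * g = 1) ∧
      ∀ p ∈ I, MvPolynomial.eval (fun b => g b.1 b.2) p = 0

variable {F K : Subfield ℂ} {H : Set (Matrix B B ℂ)}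

theorem AlgGrp.map_aut (hH : AlgGrp F H) {σ : ℂ ≃+* ℂ} (hσ : ∀ x ∈ F, σ x = x)
    {h : Matrix B B ℂ} (hh : h ∈ H) : h.map σ ∈ H := by
  obtain ⟨I, hI, hI2⟩ := hH.alg
  obtain ⟨⟨g', h1, h2⟩, h3⟩ := (hI2 h).1 hh
  refine (hI2 _).2 ⟨⟨g'.map σ, ?_, ?_⟩, fun p hp => ?_⟩
  · rw [← Matrix.map_mul, h1, Matrix.map_one _ (map_zero σ) (map_one σ)]
  · rw [← Matrix.map_mul, h2, Matrix.map_one _ (map_zero σ) (map_one σ)]
  · have h4 := congrArg σ (h3 p hp)
    rw [map_zero, MvPolynomial.eval_eq, map_sum] at h4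
    rw [MvPolynomial.eval_eq, ← h4]
    refine Finset.sum_congr rfl fun m _ => ?_
    rw [map_mul, map_prod, hσ _ (hI p hp m)]
    congr 1
    refine Finset.prod_congr rfl fun i _ => ?_
    rw [map_pow]
    rfl

theorem AlgGrp.defOver (hH : AlgGrp F H) (d : ℕ) : DefOver F (Wt H d) := by
  refine defOver_of_aut _ fun σ hσ w hw h hh => ?_
  have hσ' : ∀ x ∈ F, σ.symm x = x := fun x hx => by
    rw [RingEquiv.symm_apply_eq, hσ x hx]
  have h1 := hw _ (hH.map_aut hσ' hh)
  have h2 := congrArg σ h1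
  rw [map_zero] at h2
  rw [← h2]
  unfold evalF
  rw [map_sum]
  refine Finset.sum_congr rfl fun I _ => ?_
  rw [map_mul, map_prod]
  congr 1
  refine Finset.prod_congr rfl fun k _ => ?_
  unfold cx
  cases I k with
  | none => simp
  | some p =>
    simp only [Option.elim_some, Matrix.map_apply, RingEquiv.apply_symm_apply]

variable {P P' A A' : Matrix B B ℂ}

/-- The de Rham side. -/
theorem AlgGrp.comap_eq (hH : AlgGrp F H) (hA : A * A' = 1) (hPA : P * A ∈ H) (d : ℕ)
    (w : (Fin d → Option (B × B)) → ℂ) :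
    pull (MM P) w ∈ Wt H d ↔ pull (MM A') w ∈ Wt H d := by
  have hP : P = P * A * A' := by rw [Matrix.mul_assoc, hA, Matrix.mul_one]
  rw [pull_mem_Wt, pull_mem_Wt]
  constructor
  · intro h x hx
    obtain ⟨y, hy, hy1, hy2⟩ := hH.inv _ hPA
    have h1 := h (x * y) (hH.mul x hx y hy)
    have h2 : x * y * P = x * A' := by
      calc x * y * P = x * (y * (P * A)) * A' := by
            conv_lhs => rw [hP]
            simp only [Matrix.mul_assoc]
        _ = x * A' := by rw [hy2, Matrix.mul_one]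
    rwa [h2] at h1
  · intro h x hx
    have h1 := h (x * (P * A)) (hH.mul x hx _ hPA)
    have h2 : x * (P * A) * A' = x * P := by
      conv_rhs => rw [hP]
      simp only [Matrix.mul_assoc]
    rwa [h2] at h1

theorem AlgGrp.defOver' (hH : AlgGrp F H) (hFK : F ≤ K) (hA : A * A' = 1)
    (hA' : ∀ i j, A' i j ∈ K) (hPA : P * A ∈ H) (d : ℕ) :
    DefOver K ((Wt H d).comap (pullL (MM P))) := by
  refine defOver_of_map fun f w hw => ?_
  rw [Submodule.mem_comap, pullL_apply, hH.comap_eq hA hPA] at hw ⊢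
  rw [pull_map (MM_mem hA') f w]
  exact (hH.defOver d).map (lower hFK f) hw

/-- The stabilizer of the tensors vanishing on `H`. -/
def Stab (H : Set (Matrix B B ℂ)) (d : ℕ) (X : Matrix B B ℂ) : Prop :=
  ∀ w ∈ Wt H d, act (LL X) w ∈ Wt H d

theorem Stab.add {d : ℕ} {X Y : Matrix B B ℂ} (hX : Stab H d X) (hY : Stab H d Y) :
    Stab H d (X + Y) := fun w hw => by
  rw [LL_add, act_add_left]
  exact Submodule.add_mem _ (hX w hw) (hY w hw)

theorem Stab.smul {d : ℕ} {X : Matrix B B ℂ} (a : ℂ) (hX : Stab H d X) :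
    Stab H d (a • X) := fun w hw => by
  rw [LL_smul, act_smul_left]
  exact Submodule.smul_mem _ _ (hX w hw)

theorem Stab.zero {d : ℕ} : Stab H d 0 := fun w _ => by
  rw [LL_zero, act_zero_left]
  exact Submodule.zero_mem _

theorem Stab.comm {d : ℕ} {X Y : Matrix B B ℂ} (hX : Stab H d X) (hY : Stab H d Y) :
    Stab H d (X * Y - Y * X) := fun w hw => by
  have h1 : LL (X * Y - Y * X) = LL Y * LL X - LL X * LL Y := by
    rw [LL_mul_LL, LL_mul_LL, sub_eq_add_neg, LL_add, ← neg_one_smul ℂ (Y * X), LL_smul,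
      neg_one_smul, sub_eq_add_neg]
  have h2 := act_comm (LL X) (LL Y) w
  rw [h1]
  rw [← h2]
  exact Submodule.sub_mem _ (hX _ (hY w hw)) (hY _ (hX w hw))

theorem AlgGrp.stab_map (hH : AlgGrp F H) {d : ℕ} (f : ℂ →ₗ[F] ℂ) {X : Matrix B B ℂ}
    (hX : Stab H d X) : Stab H d (X.map f) := by
  intro w hw
  have h1 := DR.stab_map (hH.defOver d) (M := 1) (S := LL X) (fun x y => by
    rw [Matrix.one_apply]
    split_ifs
    · exact F.one_mem
    · exact F.zero_mem) f (fun u hu => by
      rw [Matrix.one_mul]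
      exact hX u hu) w hw
  rw [Matrix.one_mul, LL_map (map_zero f)] at h1
  exact h1

theorem AlgGrp.stab_map' (hH : AlgGrp F H) (hFK : F ≤ K) (hP : P * P' = 1) (hP' : P' * P = 1)
    (hA : A * A' = 1) (hA' : ∀ i j, A' i j ∈ K) (hPA : P * A ∈ H) {d : ℕ}
    (f : ℂ →ₗ[K] ℂ) {X : Matrix B B ℂ}
    (hX : Stab H d X) : Stab H d (P * (P' * X * P).map f * P') := by
  have hU := hH.defOver' hFK hA hA' hPA d
  have htw : ∀ Y : Matrix B B ℂ, MM P * LL (P * Y * P') = LL Y * MM P := by
    intro Y
    rw [MM_mul_LL, LL_mul_MM, Matrix.mul_assoc, hP', Matrix.mul_one]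
  have hc : ∀ w ∈ (Wt H d).comap (pullL (MM P)),
      act (LL (P' * X * P)) w ∈ (Wt H d).comap (pullL (MM P)) := by
    intro w hw
    rw [Submodule.mem_comap, pullL_apply] at hw ⊢
    rw [← act_pull (htw _)]
    have h1 : P * (P' * X * P) * P' = X := by
      calc P * (P' * X * P) * P' = (P * P') * X * (P * P') := by simp only [Matrix.mul_assoc]
        _ = X := by rw [hP, Matrix.one_mul, Matrix.mul_one]
    rw [h1]
    exact hX _ hw
  intro w hw
  obtain ⟨w', rfl⟩ : ∃ w', w = pull (MM P) w' := by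
    refine ⟨pull (MM P') w, ?_⟩
    rw [pull_pull, MM_mul_MM, hP]
    have h2 := MM_eq (0 : Matrix B B ℂ) 0
    rw [zero_smul, zero_smul, add_zero, add_zero] at h2
    rw [h2, pull_one]
  have h1 := DR.stab_map hU (M := 1) (S := LL (P' * X * P)) (fun x y => by
    rw [Matrix.one_apply]
    split_ifs
    · exact K.one_mem
    · exact K.zero_mem) f (fun u hu => by
      rw [Matrix.one_mul]
      exact hc u hu) w' (by
        rw [Submodule.mem_comap, pullL_apply]
        exact hw)
  rw [Matrix.one_mul, LL_map (map_zero f), Submodule.mem_comap, pullL_apply,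
    ← act_pull (htw _)] at h1
  exact h1

theorem AlgGrp.stab_der (hH : AlgGrp F H) (hFK : F ≤ K) (hKA : ∀ x ∈ K, IsAlgebraic ℚ x)
    (hP : P * P' = 1) (hP' : P' * P = 1)
    (hA : A * A' = 1) (hA' : ∀ i j, A' i j ∈ K) (hPA : P * A ∈ H) {d : ℕ}
    (δ : Derivation ℚ ℂ ℂ) : Stab H d (P.map δ * P') := by
  have hU := hH.defOver' hFK hA hA' hPA d
  have hE : MM P * LL (P.map δ * P') = (MM P).map δ := by
    rw [MM_mul_LL, Matrix.mul_assoc, hP', Matrix.mul_one, MM_map_der]
  intro w hw
  obtain ⟨w', rfl⟩ : ∃ w', w = pull (MM P) w' := by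
    refine ⟨pull (MM P') w, ?_⟩
    rw [pull_pull, MM_mul_MM, hP]
    have h2 := MM_eq (0 : Matrix B B ℂ) 0
    rw [zero_smul, zero_smul, add_zero, add_zero] at h2
    rw [h2, pull_one]
  have h1 : w' ∈ (Wt H d).comap (pullL (MM P)) := hw
  have h2 := hU h1
  clear h1 hw
  rw [← pullL_apply, ← actR_apply, ← LinearMap.comp_apply]
  induction h2 using Submodule.span_induction with
  | mem u h2 =>
    rw [LinearMap.comp_apply, pullL_apply, actR_apply,
      ← deriv_pull δ hE (fun J => deriv_alg δ (hKA _ (h2.2 J)))]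
    exact (hH.defOver d).map (derK δ F fun x hx => hKA x (hFK hx)) h2.1
  | zero =>
    rw [map_zero]
    exact Submodule.zero_mem _
  | add x y _ _ hx hy =>
    rw [map_add]
    exact Submodule.add_mem _ hx hy
  | smul c x _ hx =>
    rw [map_smul]
    exact Submodule.smul_mem _ _ hx

/-- The matrices which preserve the tensors vanishing on `H`. -/
def Pres (H : Set (Matrix B B ℂ)) (g : Matrix B B ℂ) : Prop :=
  ∀ d, ∀ w ∈ Wt H d, pull (MM g) w ∈ Wt H d

theorem Pres.mul {g h : Matrix B B ℂ} (hg : Pres H g) (hh : Pres H h) : Pres H (g * h) := by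
  intro d w hw
  rw [← MM_mul_MM, ← pull_pull]
  exact hg d _ (hh d w hw)

theorem AlgGrp.mem_of_pres (hH : AlgGrp F H) {g g' : Matrix B B ℂ} (hg : Pres H g)
    (h1 : g * g' = 1) (h2 : g' * g = 1) : g ∈ H := by
  obtain ⟨I, hI, hI2⟩ := hH.alg
  refine (hI2 g).2 ⟨⟨g', h1, h2⟩, fun p hp => ?_⟩
  obtain ⟨d, w, hw⟩ := exists_tensor p
  have hcx : ∀ x : Matrix B B ℂ, evalF w (fun _ => cx x) =
      MvPolynomial.eval (fun b => x b.1 b.2) p := fun x => hw (fun b => x b.1 b.2)
  have h3 : w ∈ Wt H d := fun h hh => by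
    rw [hcx]
    exact ((hI2 h).1 hh).2 p hp
  have h4 := pull_mem_Wt.1 (hg d w h3) 1 hH.one
  rw [Matrix.one_mul, hcx] at h4
  exact h4

/-- One-parameter groups. -/
theorem pres_of_stab {X : Matrix B B ℂ} {ε : ℂ} (hX : X * X = ε • X) (hS : ∀ d, Stab H d X)
    (s : ℂ) : Pres H (1 + s • X) := by
  intro d w hw
  rw [MM_eq]
  refine pull_mem (ε := ε) ?_ (hS d) s w hw
  rw [LL_mul_LL, hX, LL_smul]

end Pool.Agent.TH119.MX
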