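import Mathlib
import Pool.Agent.TH119.MX.Full

/-!
# Lie subalgebras which are rational on both sides of the period matrix
-/

set_option linter.unusedSectionVars false

namespace Pool.Agent.TH119.MX

open Finset Matrix Pool.Agent.TH119.DR

/-- The traceless part. -/
noncomputable def q0 (a : M2) : M2 := a - (a.trace / 2) • (1 : M2)

theorem q0_add (a b : M2) : q0 (a + b) = q0 a + q0 b := by
  unfold q0
  rw [Matrix.trace_add, add_div, add_smul]
  abel

theorem q0_smul (c : ℂ) (a : M2) : q0 (c • a) = c • q0 a := by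
  unfold q0
  rw [Matrix.trace_smul, smul_sub, smul_smul, smul_eq_mul, mul_div_assoc]

theorem trace_q0 (a : M2) : (q0 a).trace = 0 := by
  unfold q0
  rw [Matrix.trace_sub, Matrix.trace_smul, Matrix.trace_one]
  simp

theorem q0_of_trace {a : M2} (h : a.trace = 0) : q0 a = a := by
  unfold q0
  rw [h, zero_div, zero_smul, sub_zero]

theorem eq_q0_add (a : M2) : a = q0 a + (a.trace / 2) • (1 : M2) := by
  unfold q0
  rw [sub_add_cancel]

theorem comm_q0 (a b : M2) : q0 a * q0 b - q0 b * q0 a = a * b - b * a := by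
  unfold q0
  simp only [Matrix.mul_sub, Matrix.sub_mul, Matrix.mul_smul, Matrix.smul_mul, Matrix.mul_one,
    Matrix.one_mul, smul_sub]
  abel_nf
  module

theorem q0_map {F : Subfield ℂ} (f : ℂ →ₗ[F] ℂ) (a : M2) : q0 (a.map f) = (q0 a).map f := by
  have h2 : (2 : ℂ)⁻¹ ∈ F := F.inv_mem (ofNat_mem F 2)
  ext i j
  unfold q0
  simp only [Matrix.sub_apply, Matrix.map_apply, Matrix.smul_apply, smul_eq_mul, map_sub,
    Matrix.trace_fin_two, Matrix.one_apply]
  by_cases h : i = j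
  · simp only [h, if_true, mul_one]
    rw [div_eq_mul_inv, div_eq_mul_inv, lin_mul' f h2, map_add]
  · simp only [h, if_false, mul_zero, map_zero]

theorem q0_conj {P P' : M2} (h1 : P' * P = 1) (h2 : P * P' = 1) (a : M2) :
    q0 (P' * a * P) = P' * q0 a * P := by
  have h3 : (P' * a * P).trace = a.trace := by
    rw [Matrix.trace_mul_comm, ← Matrix.mul_assoc, h2, Matrix.one_mul]
  unfold q0
  rw [h3, Matrix.mul_sub, Matrix.sub_mul, Matrix.mul_smul, Matrix.mul_one, Matrix.smul_mul, h1]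

variable {C : Type} [Fintype C] [DecidableEq C] {R : C → Type} [∀ c, Fintype (R c)]
  [∀ c, DecidableEq (R c)] {J : Type} [Fintype J] [DecidableEq J]

/-- The elements of the Lie algebra: linear parts, unipotent parts, multiplicative part,
logarithmic parts. -/
abbrev LT (C : Type) (R : C → Type) (J : Type) :=
  (C → M2) × ((c : C) → Matrix (R c) (Fin 2) ℂ) × ℂ × (J → ℂ)

/-- The commutator. -/
def br (x y : LT C R J) : LT C R J :=
  (fun c => x.1 c * y.1 c - y.1 c * x.1 c, fun c => x.2.1 c * y.1 c - y.2.1 c * x.1 c, 0,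
    fun j => x.2.2.2 j * y.2.2.1 - y.2.2.2 j * x.2.2.1)

/-- Apply a function to all coordinates. -/
def mp (f : ℂ → ℂ) (x : LT C R J) : LT C R J :=
  (fun c => (x.1 c).map f, fun c => (x.2.1 c).map f, f x.2.2.1, fun j => f (x.2.2.2 j))

/-- The periods. -/
structure Per (C : Type) (R : C → Type) (J : Type) where
  P : C → M2
  P' : C → M2
  PP' : ∀ c, P c * P' c = 1
  P'P : ∀ c, P' c * P c = 1
  U : (c : C) → Matrix (R c) (Fin 2) ℂ
  w : ℂ
  w0 : w ≠ 0
  l : J → ℂ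

variable (D : Per C R J)

/-- From the Betti side to the de Rham side. -/
def kap (x : LT C R J) : LT C R J :=
  (fun c => D.P' c * x.1 c * D.P c,
    fun c => x.2.1 c * D.P c - D.U c * (D.P' c * x.1 c * D.P c), x.2.2.1,
    fun j => x.2.2.2 j * D.w - D.l j * x.2.2.1)

/-- From the de Rham side to the Betti side. -/
noncomputable def kapi (y : LT C R J) : LT C R J :=
  (fun c => D.P c * y.1 c * D.P' c, fun c => (y.2.1 c + D.U c * y.1 c) * D.P' c, y.2.2.1,
    fun j => (y.2.2.2 j + D.l j * y.2.2.1) / D.w)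

theorem kap_kapi (y : LT C R J) : kap D (kapi D y) = y := by
  have h1 : ∀ c, D.P' c * (D.P c * y.1 c * D.P' c) * D.P c = y.1 c := by
    intro c
    calc D.P' c * (D.P c * y.1 c * D.P' c) * D.P c = (D.P' c * D.P c) * y.1 c * (D.P' c * D.P c) := by
          simp only [Matrix.mul_assoc]
      _ = y.1 c := by rw [D.P'P, Matrix.one_mul, Matrix.mul_one]
  refine Prod.ext (funext fun c => h1 c) (Prod.ext (funext fun c => ?_) (Prod.ext rfl
    (funext fun j => ?_)))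
  · change (y.2.1 c + D.U c * y.1 c) * D.P' c * D.P c - D.U c * (D.P' c * (D.P c * y.1 c * D.P' c) *
      D.P c) = y.2.1 c
    rw [h1, Matrix.mul_assoc, D.P'P, Matrix.mul_one, add_sub_cancel_right]
  · change (y.2.2.2 j + D.l j * y.2.2.1) / D.w * D.w - D.l j * y.2.2.1 = y.2.2.2 j
    rw [div_mul_cancel₀ _ D.w0, add_sub_cancel_right]

/-- The derivative of the period matrix. -/
noncomputable def lam (δ : Derivation ℚ ℂ ℂ) : LT C R J :=
  (fun c => (D.P c).map δ * D.P' c, fun c => (D.U c).map δ * D.P' c, δ D.w / D.w,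
    fun j => δ (D.l j) / D.w)

/-- The properties of the stabilizer of a subobject. -/
structure Good (F K : Subfield ℂ) (S : Submodule ℂ (LT C R J)) : Prop where
  htr : ∀ x ∈ S, ∀ c, (x.1 c).trace = x.2.2.1
  hbr : ∀ x ∈ S, ∀ y ∈ S, br x y ∈ S
  hF : ∀ f : ℂ →ₗ[F] ℂ, ∀ x ∈ S, mp f x ∈ S
  hK : ∀ f : ℂ →ₗ[K] ℂ, ∀ x ∈ S, kapi D (mp f (kap D x)) ∈ S
  hder : ∀ δ : Derivation ℚ ℂ ℂ, lam D δ ∈ S

/-- The linear independence of the periods. -/
structure Indep (K : Subfield ℂ) : Prop where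
  lin : ∀ c (q : Fin 2 → ℂ), q ≠ 0 → (∀ i, q i ∈ K) → ∀ ν : Fin 2 → ℂ, (∀ i, ν i ∈ K) →
    ∀ a : R c → ℂ, (∀ j, a j ∈ K) → ν ⬝ᵥ (D.P c *ᵥ q) + a ⬝ᵥ (D.U c *ᵥ q) ∈ K → ν = 0 ∧ a = 0
  log : ∀ a ∈ K, ∀ μ : J → ℂ, (∀ j, μ j ∈ K) → a * D.w + μ ⬝ᵥ D.l ∈ K → a = 0 ∧ μ = 0

variable {D} {F K : Subfield ℂ} {S : Submodule ℂ (LT C R J)}

theorem Indep.lin2 (hI : Indep D K) (c : C) : Lin2 K (D.P c) := by
  intro q hq hqK ν hν h
  refine (hI.lin c q hq hqK ν hν 0 (fun j => K.zero_mem) ?_).1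
  rw [h, zero_dotProduct, add_zero]
  exact K.zero_mem

/-- The projection to the traceless part of a component. -/
noncomputable def prq (c : C) : LT C R J →ₗ[ℂ] M2 where
  toFun x := q0 (x.1 c)
  map_add' _ _ := q0_add _ _
  map_smul' _ _ := q0_smul _ _

theorem prq_apply (c : C) (x : LT C R J) : prq c x = q0 (x.1 c) := rfl

/-- The elements of `S` have arbitrary traceless parts in each component. -/
theorem Good.surj (hS : Good D F K S) (hI : Indep D K) (hFK : F ≤ K) (hK : SqClosed K)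
    (hKA : ∀ x, IsAlgebraic ℚ x → x ∈ K) (c : C) {x : M2} (hx : x.trace = 0) :
    ∃ X ∈ S, q0 (X.1 c) = x := by
  have h1 : x ∈ S.map (prq c) := by
    refine sl2_full hFK hK hKA (D.PP' c) (D.P'P c) (hI.lin2 c) (S.map (prq c)) ?_ ?_ ?_ ?_ hx
    · rintro _ ⟨X, _, rfl⟩
      exact trace_q0 _
    · rintro f _ ⟨X, hX, rfl⟩
      exact ⟨mp f X, hS.hF f X hX, q0_map f _⟩
    · rintro f _ ⟨X, hX, rfl⟩
      refine ⟨kapi D (mp f (kap D X)), hS.hK f X hX, ?_⟩
      change q0 (D.P c * (D.P' c * X.1 c * D.P c).map f * D.P' c) =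
        D.P c * (D.P' c * q0 (X.1 c) * D.P c).map f * D.P' c
      rw [q0_conj (D.PP' c) (D.P'P c), q0_map, q0_conj (D.P'P c) (D.PP' c)]
    · intro δ
      exact ⟨lam D δ, hS.hder δ, rfl⟩
  obtain ⟨X, hX, hX'⟩ := h1
  exact ⟨X, hX, hX'⟩

theorem q0_br (x y : LT C R J) (c : C) :
    q0 ((br x y).1 c) = q0 (x.1 c) * q0 (y.1 c) - q0 (y.1 c) * q0 (x.1 c) := by
  rw [comm_q0]
  refine q0_of_trace ?_
  change (x.1 c * y.1 c - y.1 c * x.1 c).trace = 0
  rw [Matrix.trace_sub, Matrix.trace_mul_comm, sub_self]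

/-- The standard basis of `sl₂`. -/
def sh : M2 := !![1, 0; 0, -1]
/-- The standard basis of `sl₂`. -/
def se : M2 := !![0, 1; 0, 0]
/-- The standard basis of `sl₂`. -/
def sf : M2 := !![0, 0; 1, 0]

theorem tr_sh : sh.trace = 0 := by simp [sh, Matrix.trace_fin_two]
theorem tr_se : se.trace = 0 := by simp [se, Matrix.trace_fin_two]
theorem tr_sf : sf.trace = 0 := by simp [sf, Matrix.trace_fin_two]

theorem sh_sq : sh * sh = 1 := by
  ext i j
  fin_cases i <;> fin_cases j <;> simp [sh, Matrix.mul_apply, Fin.sum_univ_two]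

/-- Every traceless matrix is a combination of commutators. -/
theorem decomp {x : M2} (hx : x.trace = 0) :
    x = x 0 0 • (se * sf - sf * se) + (x 0 1 / 2) • (sh * se - se * sh) +
      (-(x 1 0 / 2)) • (sh * sf - sf * sh) := by
  rw [Matrix.trace_fin_two] at hx
  have hx1 : x 1 1 = - x 0 0 := by linear_combination hx
  ext i j
  fin_cases i <;> fin_cases j
  · simp [sh, se, sf]
  · simp [sh, se, sf]
    ring
  · simp [sh, se, sf]
    ring
  · simp [sh, se, sf, hx1]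

/-- Elements with vanishing traceless parts in a finite set of components. -/
theorem Good.iso (hS : Good D F K S) (hI : Indep D K) (hFK : F ≤ K) (hK : SqClosed K)
    (hKA : ∀ x, IsAlgebraic ℚ x → x ∈ K)
    (hpair : ∀ c c', c ≠ c' → ∀ x : M2, x.trace = 0 → ∃ X ∈ S, q0 (X.1 c) = x ∧ q0 (X.1 c') = 0)
    (c : C) (E : Finset C) : c ∉ E → ∀ x : M2, x.trace = 0 →
      ∃ X ∈ S, q0 (X.1 c) = x ∧ ∀ c' ∈ E, q0 (X.1 c') = 0 := by
  induction E using Finset.induction_on with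
  | empty =>
    intro _ x hx
    obtain ⟨X, hX, h⟩ := hS.surj hI hFK hK hKA c hx
    exact ⟨X, hX, h, fun c' hc' => absurd hc' (Finset.notMem_empty _)⟩
  | insert d E hd ih =>
    intro hc x hx
    have hcd : c ≠ d := by
      rintro rfl
      exact hc (Finset.mem_insert_self _ _)
    have hcE : c ∉ E := fun h => hc (Finset.mem_insert_of_mem h)
    obtain ⟨Ye, hYe, hYe1, hYe2⟩ := ih hcE se tr_se
    obtain ⟨Yh, hYh, hYh1, hYh2⟩ := ih hcE sh tr_sh
    obtain ⟨Ze, hZe, hZe1, hZe2⟩ := hpair c d hcd se tr_se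
    obtain ⟨Zf, hZf, hZf1, hZf2⟩ := hpair c d hcd sf tr_sf
    refine ⟨x 0 0 • br Ye Zf + (x 0 1 / 2) • br Yh Ze + (-(x 1 0 / 2)) • br Yh Zf,
      S.add_mem (S.add_mem (S.smul_mem _ (hS.hbr _ hYe _ hZf)) (S.smul_mem _ (hS.hbr _ hYh _ hZe)))
        (S.smul_mem _ (hS.hbr _ hYh _ hZf)), ?_, ?_⟩
    · rw [← prq_apply, map_add, map_add, map_smul, map_smul, map_smul, prq_apply, prq_apply,
        prq_apply, q0_br, q0_br, q0_br, hYe1, hZf1, hYh1, hZe1, ← decomp hx]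
    · intro c' hc'
      rw [← prq_apply, map_add, map_add, map_smul, map_smul, map_smul, prq_apply, prq_apply,
        prq_apply, q0_br, q0_br, q0_br]
      rcases Finset.mem_insert.1 hc' with rfl | h
      · rw [hZf2, hZe2]
        simp
      · rw [hYe2 c' h, hYh2 c' h]
        simp

/-- Elements with one nonzero component. -/
theorem Good.iso' (hS : Good D F K S) (hI : Indep D K) (hFK : F ≤ K) (hK : SqClosed K)
    (hKA : ∀ x, IsAlgebraic ℚ x → x ∈ K)
    (hpair : ∀ c c', c ≠ c' → ∀ x : M2, x.trace = 0 → ∃ X ∈ S, q0 (X.1 c) = x ∧ q0 (X.1 c') = 0)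
    (c : C) {x : M2} (hx : x.trace = 0) :
    ∃ X ∈ S, X.1 c = x ∧ (∀ c', c' ≠ c → X.1 c' = 0) ∧ X.2.2.1 = 0 := by
  have hc : c ∉ Finset.univ.erase c := Finset.notMem_erase _ _
  have hE : ∀ c', c' ≠ c → c' ∈ Finset.univ.erase c := fun c' h =>
    Finset.mem_erase.2 ⟨h, Finset.mem_univ _⟩
  obtain ⟨Ye, hYe, hYe1, hYe2⟩ := hS.iso hI hFK hK hKA hpair c _ hc se tr_se
  obtain ⟨Yh, hYh, hYh1, hYh2⟩ := hS.iso hI hFK hK hKA hpair c _ hc sh tr_sh
  obtain ⟨Yf, hYf, hYf1, hYf2⟩ := hS.iso hI hFK hK hKA hpair c _ hc sf tr_sf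
  have hb : ∀ (x y : LT C R J) c', (br x y).1 c' =
      q0 (x.1 c') * q0 (y.1 c') - q0 (y.1 c') * q0 (x.1 c') := by
    intro x y c'
    rw [comm_q0]
    rfl
  refine ⟨x 0 0 • br Ye Yf + (x 0 1 / 2) • br Yh Ye + (-(x 1 0 / 2)) • br Yh Yf,
    S.add_mem (S.add_mem (S.smul_mem _ (hS.hbr _ hYe _ hYf)) (S.smul_mem _ (hS.hbr _ hYh _ hYe)))
      (S.smul_mem _ (hS.hbr _ hYh _ hYf)), ?_, ?_, ?_⟩
  · change x 0 0 • (br Ye Yf).1 c + (x 0 1 / 2) • (br Yh Ye).1 c +
      (-(x 1 0 / 2)) • (br Yh Yf).1 c = x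
    rw [hb, hb, hb, hYe1, hYh1, hYf1, ← decomp hx]
  · intro c' hc'
    change x 0 0 • (br Ye Yf).1 c' + (x 0 1 / 2) • (br Yh Ye).1 c' +
      (-(x 1 0 / 2)) • (br Yh Yf).1 c' = 0
    rw [hb, hb, hb, hYe2 c' (hE c' hc'), hYh2 c' (hE c' hc')]
    simp
  · change x 0 0 * 0 + (x 0 1 / 2) * 0 + (-(x 1 0 / 2)) * 0 = (0 : ℂ)
    ring

end Pool.Agent.TH119.MX
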