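import Mathlib
import Pool.Agent.TH119.MX.Pure

/-!
# Lie subalgebras which are rational on both sides of the period matrix: the unipotent part
-/

set_option linter.unusedSectionVars false

namespace Pool.Agent.TH119.MX

open Finset Matrix Pool.Agent.TH119.DR

/-- A linear map of `ℂ` with values in `F` which fixes `1`. -/
theorem exists_retr (F : Subfield ℂ) : ∃ f : ℂ →ₗ[F] ℂ, (∀ z, f z ∈ F) ∧ f 1 = 1 := by
  have h1 : Function.Injective (Algebra.linearMap F ℂ) := fun x y h => Subtype.ext h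
  obtain ⟨g, hg⟩ := LinearMap.exists_leftInverse_of_injective (Algebra.linearMap F ℂ)
    (LinearMap.ker_eq_bot.2 h1)
  refine ⟨Algebra.linearMap F ℂ ∘ₗ g, fun z => (g z).2, ?_⟩
  have h2 := congrArg (fun h : F →ₗ[F] F => h 1) hg
  simp only [LinearMap.comp_apply, LinearMap.id_apply] at h2
  have h3 : Algebra.linearMap F ℂ 1 = 1 := rfl
  rw [h3] at h2
  rw [LinearMap.comp_apply, h2]
  rfl

theorem retr_mem {F : Subfield ℂ} {f : ℂ →ₗ[F] ℂ} (hf : f 1 = 1) {z : ℂ} (hz : z ∈ F) :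
    f z = z := by
  have h1 := lin_mul f hz 1
  rwa [mul_one, hf, mul_one] at h1

/-- A proper subspace defined over `F` is contained in a hyperplane defined over `F`. -/
theorem exists_annih {F : Subfield ℂ} {α : Type*} [Fintype α] [DecidableEq α]
    (A : Submodule ℂ (α → ℂ)) (hA : ∀ f : ℂ →ₗ[F] ℂ, ∀ v ∈ A, (fun i => f (v i)) ∈ A)
    (hne : A ≠ ⊤) : ∃ a : α → ℂ, a ≠ 0 ∧ (∀ i, a i ∈ F) ∧ ∀ v ∈ A, a ⬝ᵥ v = 0 := by
  obtain ⟨j, hj⟩ : ∃ j : α, (Pi.single j 1 : α → ℂ) ∉ A := by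
    by_contra hcon
    push Not at hcon
    apply hne
    rw [eq_top_iff]
    intro v _
    have h1 : v = ∑ j, v j • (Pi.single j 1 : α → ℂ) := by
      funext i
      rw [Finset.sum_apply, Finset.sum_eq_single i]
      · simp
      · intro b _ hb
        simp [Pi.single_eq_of_ne (Ne.symm hb)]
      · intro h
        exact absurd (Finset.mem_univ _) h
    rw [h1]
    exact A.sum_mem fun j _ => A.smul_mem _ (hcon j)
  obtain ⟨ψ, hψ1, hψ2⟩ := Submodule.exists_le_ker_of_notMem hj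
  obtain ⟨I, t, e, f, hf, hz⟩ := exists_coords F {ψ (Pi.single j 1)}
  obtain ⟨i, hi⟩ : ∃ i, f i (ψ (Pi.single j 1)) ≠ 0 := by
    by_contra hcon
    push Not at hcon
    apply hψ1
    rw [hz _ (Finset.mem_singleton_self _)]
    exact Finset.sum_eq_zero fun j _ => by rw [hcon, mul_zero]
  refine ⟨fun k => f i (ψ (Pi.single k 1)), fun h => hi (congrFun h j), fun k => hf _ _, ?_⟩
  have hform : ∀ v : α → ℂ, ψ v = ∑ k, ψ (Pi.single k 1) * v k := by
    intro v
    have h1 : v = ∑ k, v k • (Pi.single k 1 : α → ℂ) := by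
      funext i
      rw [Finset.sum_apply, Finset.sum_eq_single i]
      · simp
      · intro b _ hb
        simp [Pi.single_eq_of_ne (Ne.symm hb)]
      · intro h
        exact absurd (Finset.mem_univ _) h
    conv_lhs => rw [h1]
    rw [map_sum]
    exact Finset.sum_congr rfl fun k _ => by rw [map_smul, smul_eq_mul, mul_comm]
  intro v hv
  have h1 := defOver_of_map hA hv
  clear hv
  induction h1 using Submodule.span_induction with
  | mem v hv =>
    have h2 : ψ v = 0 := LinearMap.mem_ker.1 (hψ2 hv.1)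
    have h3 : (fun k => f i (ψ (Pi.single k 1))) ⬝ᵥ v = f i (ψ v) := by
      rw [hform v, map_sum]
      refine Finset.sum_congr rfl fun k _ => ?_
      rw [lin_mul' _ (hv.2 k)]
    rw [h3, h2, map_zero]
  | zero => exact dotProduct_zero _
  | add x y _ _ hx hy => rw [dotProduct_add, hx, hy, add_zero]
  | smul c x _ hx => rw [dotProduct_smul, hx, smul_zero]

variable {C : Type} [Fintype C] [DecidableEq C] {R : C → Type} [∀ c, Fintype (R c)]
  [∀ c, DecidableEq (R c)] {J : Type} [Fintype J] [DecidableEq J]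

variable {D : Per C R J} {F K : Subfield ℂ} {S : Submodule ℂ (LT C R J)}

/-- An element which acts by the weights. -/
theorem Good.exists_unit (hS : Good D F K S) (hI : Indep D K)
    (hKA : ∀ x, IsAlgebraic ℚ x → x ∈ K)
    (hiso : ∀ (c : C) (x : M2), x.trace = 0 →
      ∃ X ∈ S, X.1 c = x ∧ (∀ c', c' ≠ c → X.1 c' = 0) ∧ X.2.2.1 = 0) :
    ∃ X ∈ S, (∀ c, X.1 c = 1) ∧ X.2.2.1 = 2 := by
  have hw : ¬ IsAlgebraic ℚ D.w := by
    intro h
    have h1 := (hI.log 1 K.one_mem 0 (fun j => K.zero_mem) (by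
      rw [one_mul, zero_dotProduct, add_zero]
      exact hKA _ h)).1
    exact one_ne_zero h1
  obtain ⟨δ, hδ⟩ := exists_deriv hw
  have ht : δ D.w / D.w ≠ 0 := div_ne_zero hδ D.w0
  obtain ⟨X, hX⟩ : ∃ X, X = (2 / (δ D.w / D.w)) • lam D δ := ⟨_, rfl⟩
  have hXS : X ∈ S := by
    rw [hX]
    exact S.smul_mem _ (hS.hder δ)
  have hXt : X.2.2.1 = 2 := by
    rw [hX]
    change 2 / (δ D.w / D.w) * (δ D.w / D.w) = 2
    exact div_mul_cancel₀ _ ht
  choose Y hY1 hY2 hY3 hY4 using fun c => hiso c (q0 (X.1 c)) (trace_q0 _)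
  refine ⟨X - ∑ c, Y c, S.sub_mem hXS (S.sum_mem fun c _ => hY1 c), fun c => ?_, ?_⟩
  · rw [Prod.fst_sub, Prod.fst_sum, Pi.sub_apply, Finset.sum_apply,
      Finset.sum_eq_single c (fun b _ hb => hY3 b c (Ne.symm hb))
        (fun h => absurd (Finset.mem_univ _) h), hY2]
    have h1 := eq_q0_add (X.1 c)
    rw [hS.htr X hXS c, hXt] at h1
    rw [sub_eq_iff_eq_add, add_comm]
    conv_lhs => rw [h1]
    simp
  · rw [Prod.snd_sub, Prod.snd_sum, Prod.snd_sub, Prod.snd_sum, Prod.fst_sub, Prod.fst_sum, hXt,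
      Finset.sum_eq_zero fun c _ => hY4 c, sub_zero]

/-- The unipotent elements of `S` with one component. -/
def nb (S : Submodule ℂ (LT C R J)) (c : C) : Submodule ℂ (Matrix (R c) (Fin 2) ℂ) where
  carrier := {β | ((0, Pi.single c β, 0, 0) : LT C R J) ∈ S}
  zero_mem' := by
    change ((0, Pi.single c 0, 0, 0) : LT C R J) ∈ S
    rw [Pi.single_zero]
    exact S.zero_mem
  add_mem' := by
    intro a b ha hb
    change ((0, Pi.single c (a + b), 0, 0) : LT C R J) ∈ S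
    have h1 := S.add_mem ha hb
    have h2 : ((0, Pi.single c a, 0, 0) : LT C R J) + (0, Pi.single c b, 0, 0) =
        (0, Pi.single c (a + b), 0, 0) := by
      rw [Prod.mk_add_mk, Prod.mk_add_mk, Prod.mk_add_mk, Pi.single_add, add_zero, add_zero,
        add_zero]
    rwa [h2] at h1
  smul_mem' := by
    intro r a ha
    change ((0, Pi.single c (r • a), 0, 0) : LT C R J) ∈ S
    have h1 := S.smul_mem r ha
    have h2 : r • ((0, Pi.single c a, 0, 0) : LT C R J) = (0, Pi.single c (r • a), 0, 0) := by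
      rw [Prod.smul_mk, Prod.smul_mk, Prod.smul_mk, Pi.single_smul, smul_zero, smul_zero,
        smul_zero]
    rwa [h2] at h1

/-- The logarithmic elements of `S`. -/
def ne (S : Submodule ℂ (LT C R J)) : Submodule ℂ (J → ℂ) where
  carrier := {e | ((0, 0, 0, e) : LT C R J) ∈ S}
  zero_mem' := S.zero_mem
  add_mem' := by
    intro a b ha hb
    have h1 := S.add_mem ha hb
    have h2 : ((0, 0, 0, a) : LT C R J) + (0, 0, 0, b) = (0, 0, 0, a + b) := by
      rw [Prod.mk_add_mk, Prod.mk_add_mk, Prod.mk_add_mk, add_zero, add_zero, add_zero]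
    rwa [h2] at h1
  smul_mem' := by
    intro r a ha
    have h1 := S.smul_mem r ha
    have h2 : r • ((0, 0, 0, a) : LT C R J) = (0, 0, 0, r • a) := by
      rw [Prod.smul_mk, Prod.smul_mk, Prod.smul_mk, smul_zero, smul_zero, smul_zero]
    rwa [h2] at h1

theorem sum_single (β : (c : C) → Matrix (R c) (Fin 2) ℂ) :
    ∑ c, ((0, Pi.single c (β c), 0, 0) : LT C R J) = (0, β, 0, 0) := by
  refine Prod.ext ?_ (Prod.ext ?_ (Prod.ext ?_ ?_))
  · rw [Prod.fst_sum]
    exact Finset.sum_eq_zero fun _ _ => rfl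
  · rw [Prod.snd_sum, Prod.fst_sum]
    funext c
    rw [Finset.sum_apply, Finset.sum_eq_single c]
    · exact Pi.single_eq_same _ _
    · intro b _ hb
      exact Pi.single_eq_of_ne (Ne.symm hb) _
    · intro h
      exact absurd (Finset.mem_univ _) h
  · rw [Prod.snd_sum, Prod.snd_sum, Prod.fst_sum]
    exact Finset.sum_eq_zero fun _ _ => rfl
  · rw [Prod.snd_sum, Prod.snd_sum, Prod.snd_sum]
    exact Finset.sum_eq_zero fun _ _ => rfl

section

variable (hS : Good D F K S)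
  (hiso : ∀ (c : C) (x : M2), x.trace = 0 →
      ∃ X ∈ S, X.1 c = x ∧ (∀ c', c' ≠ c → X.1 c' = 0) ∧ X.2.2.1 = 0)

include hS

/-- Splitting the unipotent elements. -/
theorem Good.split {W : LT C R J} (hW : W ∈ S) (hW1 : ∀ c, W.1 c = 1) (hW2 : W.2.2.1 = 2)
    {X : LT C R J} (hX : X ∈ S) :
    ((0, fun c => W.2.1 c * X.1 c - X.2.1 c, 0, 0) : LT C R J) ∈ S ∧
      ((0, 0, 0, fun j => W.2.2.2 j * X.2.2.1 - 2 * X.2.2.2 j) : LT C R J) ∈ S := by
  have h1 := hS.hbr W hW X hX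
  have e1 : br W X = (0, (fun c => W.2.1 c * X.1 c - X.2.1 c), 0,
      (fun j => W.2.2.2 j * X.2.2.1 - 2 * X.2.2.2 j)) := by
    refine Prod.ext (funext fun c => ?_) (Prod.ext (funext fun c => ?_) (Prod.ext rfl
      (funext fun j => ?_)))
    · change W.1 c * X.1 c - X.1 c * W.1 c = 0
      rw [hW1, Matrix.one_mul, Matrix.mul_one, sub_self]
    · change W.2.1 c * X.1 c - X.2.1 c * W.1 c = _
      rw [hW1, Matrix.mul_one]
    · change W.2.2.2 j * X.2.2.1 - X.2.2.2 j * W.2.2.1 = W.2.2.2 j * X.2.2.1 - 2 * X.2.2.2 j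
      rw [hW2, mul_comm 2]
  rw [e1] at h1
  have h2 := hS.hbr W hW _ h1
  have e2 : br W ((0, (fun c => W.2.1 c * X.1 c - X.2.1 c), 0,
      (fun j => W.2.2.2 j * X.2.2.1 - 2 * X.2.2.2 j)) : LT C R J) =
      (0, (fun c => -(W.2.1 c * X.1 c - X.2.1 c)), 0,
      (fun j => -(2 * (W.2.2.2 j * X.2.2.1 - 2 * X.2.2.2 j)))) := by
    refine Prod.ext (funext fun c => ?_) (Prod.ext (funext fun c => ?_) (Prod.ext rfl
      (funext fun j => ?_)))
    · change W.1 c * 0 - 0 * W.1 c = 0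
      rw [Matrix.mul_zero, Matrix.zero_mul, sub_self]
    · change W.2.1 c * 0 - (W.2.1 c * X.1 c - X.2.1 c) * W.1 c = _
      rw [hW1, Matrix.mul_one, Matrix.mul_zero, zero_sub]
    · change W.2.2.2 j * 0 - (W.2.2.2 j * X.2.2.1 - 2 * X.2.2.2 j) * W.2.2.1 = _
      rw [hW2]
      ring
  rw [e2] at h2
  constructor
  · have h3 := S.add_mem (S.smul_mem (2 : ℂ) h1) h2
    refine (congrArg (· ∈ S) ?_).mp h3
    refine Prod.ext (funext fun c => ?_) (Prod.ext (funext fun c => ?_) (Prod.ext ?_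
      (funext fun j => ?_)))
    · change (2 : ℂ) • (0 : M2) + 0 = 0
      simp
    · change (2 : ℂ) • (W.2.1 c * X.1 c - X.2.1 c) + -(W.2.1 c * X.1 c - X.2.1 c) =
        W.2.1 c * X.1 c - X.2.1 c
      module
    · change (2 : ℂ) * 0 + 0 = 0
      ring
    · change (2 : ℂ) * (W.2.2.2 j * X.2.2.1 - 2 * X.2.2.2 j) +
        -(2 * (W.2.2.2 j * X.2.2.1 - 2 * X.2.2.2 j)) = 0
      ring
  · have h3 := S.smul_mem (-1 : ℂ) (S.add_mem h1 h2)
    refine (congrArg (· ∈ S) ?_).mp h3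
    refine Prod.ext (funext fun c => ?_) (Prod.ext (funext fun c => ?_) (Prod.ext ?_
      (funext fun j => ?_)))
    · change (-1 : ℂ) • ((0 : M2) + 0) = 0
      simp
    · change (-1 : ℂ) • ((W.2.1 c * X.1 c - X.2.1 c) + -(W.2.1 c * X.1 c - X.2.1 c)) = 0
      simp
    · change (-1 : ℂ) * (0 + 0) = 0
      ring
    · change (-1 : ℂ) * ((W.2.2.2 j * X.2.2.1 - 2 * X.2.2.2 j) +
        -(2 * (W.2.2.2 j * X.2.2.1 - 2 * X.2.2.2 j))) = W.2.2.2 j * X.2.2.1 - 2 * X.2.2.2 j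
      ring

include hiso

/-- Multiplying one component of a unipotent element by a traceless matrix. -/
theorem Good.mul_single {b : (c : C) → Matrix (R c) (Fin 2) ℂ}
    (hb : ((0, b, 0, 0) : LT C R J) ∈ S) (c : C) {x : M2} (hx : x.trace = 0) :
    b c * x ∈ nb S c := by
  obtain ⟨X, hX, hX1, hX2, hX3⟩ := hiso c x hx
  have h1 := hS.hbr _ hb X hX
  change ((0, Pi.single c (b c * x), 0, 0) : LT C R J) ∈ S
  refine (congrArg (· ∈ S) ?_).mp h1
  refine Prod.ext (funext fun c' => ?_) (Prod.ext (funext fun c' => ?_) (Prod.ext rfl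
    (funext fun j => ?_)))
  · change (0 : M2) * X.1 c' - X.1 c' * 0 = 0
    rw [Matrix.mul_zero, Matrix.zero_mul, sub_self]
  · change b c' * X.1 c' - X.2.1 c' * 0 = Pi.single (M := fun c => Matrix (R c) (Fin 2) ℂ) c (b c * x) c'
    rw [Matrix.mul_zero, sub_zero]
    by_cases h : c' = c
    · subst h
      rw [Pi.single_eq_same, hX1]
    · rw [Pi.single_eq_of_ne h, hX2 c' h, Matrix.mul_zero]
  · change (0 : ℂ) * X.2.2.1 - X.2.2.2 j * 0 = 0
    ring

theorem Good.nb_mul {c : C} {β : Matrix (R c) (Fin 2) ℂ} (hβ : β ∈ nb S c) (m : M2) :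
    β * m ∈ nb S c := by
  have h1 : β * q0 m ∈ nb S c := by
    have h2 := hS.mul_single hiso hβ c (trace_q0 m)
    rwa [Pi.single_eq_same] at h2
  rw [eq_q0_add m, Matrix.mul_add, Matrix.mul_smul, Matrix.mul_one]
  exact (nb S c).add_mem h1 ((nb S c).smul_mem _ hβ)

/-- The components of the unipotent elements of `S` belong to `S`. -/
theorem Good.comp_mem {b : (c : C) → Matrix (R c) (Fin 2) ℂ}
    (hb : ((0, b, 0, 0) : LT C R J) ∈ S) (c : C) : b c ∈ nb S c := by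
  have h1 := hS.nb_mul hiso (hS.mul_single hiso hb c tr_sh) sh
  rwa [Matrix.mul_assoc, sh_sq, Matrix.mul_one] at h1

/-- **The unipotent elements.** -/
theorem Good.nb_top (hI : Indep D K) (hFK : F ≤ K) (hKA : ∀ x, IsAlgebraic ℚ x → x ∈ K)
    (c : C) : nb S c = ⊤ := by
  classical
  by_contra hne
  obtain ⟨W₀, hW₀, hW₀1, hW₀2⟩ := hS.exists_unit hI hKA hiso
  -- rational on the Betti side
  obtain ⟨f, hfF, hf1⟩ := exists_retr F
  have hf2 : f 2 = 2 := retr_mem hf1 (ofNat_mem F 2)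
  have hf0 : (1 : M2).map f = 1 := by
    rw [Matrix.map_one]
    · exact map_zero f
    · exact hf1
  obtain ⟨W, hW⟩ : ∃ W, W = mp f W₀ := ⟨_, rfl⟩
  have hWS : W ∈ S := by rw [hW]; exact hS.hF f W₀ hW₀
  have hW1 : ∀ c, W.1 c = 1 := fun c => by
    rw [hW]
    change (W₀.1 c).map f = 1
    rw [hW₀1, hf0]
  have hW2 : W.2.2.1 = 2 := by
    rw [hW]
    change f W₀.2.2.1 = 2
    rw [hW₀2, hf2]
  have hWF : ∀ i j, W.2.1 c i j ∈ F := fun i j => by
    rw [hW]
    exact hfF _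
  -- rational on the de Rham side
  obtain ⟨g, hgK, hg1⟩ := exists_retr K
  have hg2 : g 2 = 2 := retr_mem hg1 (ofNat_mem K 2)
  have hg0 : (1 : M2).map g = 1 := by
    rw [Matrix.map_one]
    · exact map_zero g
    · exact hg1
  obtain ⟨Y, hY⟩ : ∃ Y, Y = mp g (kap D W₀) := ⟨_, rfl⟩
  obtain ⟨X, hX⟩ : ∃ X, X = kapi D Y := ⟨_, rfl⟩
  have hXS : X ∈ S := by rw [hX, hY]; exact hS.hK g W₀ hW₀
  have hY1 : Y.1 c = 1 := by
    rw [hY]
    change (D.P' c * W₀.1 c * D.P c).map g = 1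
    rw [hW₀1, Matrix.mul_one, D.P'P, hg0]
  have hYK : ∀ i j, Y.2.1 c i j ∈ K := fun i j => by
    rw [hY]
    exact hgK _
  have hX1 : X.1 c = 1 := by
    rw [hX]
    change D.P c * Y.1 c * D.P' c = 1
    rw [hY1, Matrix.mul_one, D.PP']
  have hX2 : X.2.1 c = (Y.2.1 c + D.U c) * D.P' c := by
    rw [hX]
    change (Y.2.1 c + D.U c * Y.1 c) * D.P' c = _
    rw [hY1, Matrix.mul_one]
  -- the space of the columns
  let A : Submodule ℂ (R c → ℂ) :=
    { carrier := {v | Matrix.of (fun i (k : Fin 2) => if k = 0 then v i else 0) ∈ nb S c}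
      zero_mem' := by
        change Matrix.of (fun i (k : Fin 2) => if k = 0 then (0 : ℂ) else 0) ∈ nb S c
        have : Matrix.of (fun (_ : R c) (k : Fin 2) => if k = 0 then (0 : ℂ) else 0) = 0 := by
          ext i k
          simp
        rw [this]
        exact (nb S c).zero_mem
      add_mem' := by
        intro a b ha hb
        have h1 := (nb S c).add_mem ha hb
        refine (congrArg (· ∈ nb S c) ?_).mp h1
        ext i k
        fin_cases k <;> simp
      smul_mem' := by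
        intro r a ha
        have h1 := (nb S c).smul_mem r ha
        refine (congrArg (· ∈ nb S c) ?_).mp h1
        ext i k
        fin_cases k <;> simp }
  have hAmem : ∀ v, v ∈ A ↔ Matrix.of (fun i (k : Fin 2) => if k = 0 then v i else 0) ∈ nb S c :=
    fun v => Iff.rfl
  have hcol : ∀ β ∈ nb S c, ∀ k, (fun i => β i k) ∈ A := by
    intro β hβ k
    rw [hAmem]
    have h1 := hS.nb_mul hiso hβ (Matrix.single k 0 1)
    refine (congrArg (· ∈ nb S c) ?_).mp h1
    ext i l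
    rw [Matrix.mul_apply, Finset.sum_eq_single k]
    · fin_cases l <;> simp
    · intro b _ hb
      rw [Matrix.single_apply_of_row_ne (Ne.symm hb), mul_zero]
    · intro h
      exact absurd (Finset.mem_univ _) h
  have hAF : ∀ f : ℂ →ₗ[F] ℂ, ∀ v ∈ A, (fun i => f (v i)) ∈ A := by
    intro f v hv
    rw [hAmem] at hv ⊢
    have h1 : mp f ((0, Pi.single c (Matrix.of (fun i (k : Fin 2) => if k = 0 then v i else 0)),
        0, 0) : LT C R J) ∈ S := hS.hF f _ hv
    refine (congrArg (· ∈ S) ?_).mp h1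
    refine Prod.ext (funext fun c' => ?_) (Prod.ext (funext fun c' => ?_) (Prod.ext ?_
      (funext fun j => ?_)))
    · change (0 : M2).map f = 0
      exact Matrix.map_zero _ (map_zero f)
    · change (Pi.single (M := fun c => Matrix (R c) (Fin 2) ℂ) c _ c').map f =
        Pi.single (M := fun c => Matrix (R c) (Fin 2) ℂ) c _ c'
      by_cases h : c' = c
      · subst h
        rw [Pi.single_eq_same, Pi.single_eq_same]
        ext i k
        rw [Matrix.map_apply, Matrix.of_apply, Matrix.of_apply]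
        split_ifs
        · rfl
        · exact map_zero f
      · rw [Pi.single_eq_of_ne h, Pi.single_eq_of_ne h]
        exact Matrix.map_zero _ (map_zero f)
    · change f 0 = 0
      exact map_zero f
    · change f 0 = 0
      exact map_zero f
  have hAne : A ≠ ⊤ := by
    intro hA
    apply hne
    rw [eq_top_iff]
    intro β _
    have h1 : ∀ k, (fun i => β i k) ∈ A := fun k => by rw [hA]; exact Submodule.mem_top
    have h2 := fun k => hS.nb_mul hiso ((hAmem _).1 (h1 k)) (Matrix.single 0 k 1)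
    have h3 := (nb S c).add_mem (h2 0) (h2 1)
    refine (congrArg (· ∈ nb S c) ?_).mp h3
    ext i l
    rw [Matrix.add_apply, Matrix.mul_apply, Matrix.mul_apply, Fin.sum_univ_two, Fin.sum_univ_two]
    fin_cases l <;> simp
  obtain ⟨a, ha0, haF, ha⟩ := exists_annih A hAF hAne
  -- the relation
  have hrel : ∀ k, a ⬝ᵥ (fun i => (W.2.1 c * X.1 c - X.2.1 c) i k) = 0 := by
    intro k
    apply ha
    exact hcol _ (hS.comp_mem hiso (hS.split hWS hW1 hW2 hXS).1 c) k
  have hrel2 : a ᵥ* W.2.1 c = a ᵥ* ((Y.2.1 c + D.U c) * D.P' c) := by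
    funext k
    have h1 := hrel k
    rw [hX1, Matrix.mul_one, hX2] at h1
    simp only [dotProduct, Matrix.sub_apply, mul_sub, Finset.sum_sub_distrib] at h1
    exact sub_eq_zero.1 h1
  have hrel3 : (a ᵥ* W.2.1 c) ᵥ* D.P c = a ᵥ* Y.2.1 c + a ᵥ* D.U c := by
    rw [hrel2, Matrix.vecMul_vecMul, Matrix.mul_assoc, D.P'P, Matrix.mul_one, Matrix.vecMul_add]
  have h4 := hI.lin c ![1, 0] (fun h => one_ne_zero (congrFun h 0)) (by
    intro i
    fin_cases i
    · exact K.one_mem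
    · exact K.zero_mem) (a ᵥ* W.2.1 c) (by
      intro i
      exact K.sum_mem fun j _ => K.mul_mem (hFK (haF j)) (hFK (hWF j i))) (-a)
      (fun j => K.neg_mem (hFK (haF j))) (by
      rw [Matrix.dotProduct_mulVec, Matrix.dotProduct_mulVec, hrel3, Matrix.neg_vecMul,
        ← add_dotProduct, add_neg_cancel_right]
      refine K.sum_mem fun i _ => K.mul_mem ?_ ?_
      · exact K.sum_mem fun j _ => K.mul_mem (hFK (haF j)) (hYK j i)
      · fin_cases i
        · exact K.one_mem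
        · exact K.zero_mem)
  exact ha0 (neg_eq_zero.1 h4.2)

/-- **The logarithmic elements.** -/
theorem Good.ne_top (hI : Indep D K) (hFK : F ≤ K) (hKA : ∀ x, IsAlgebraic ℚ x → x ∈ K) :
    ne S = ⊤ := by
  classical
  by_contra hne
  obtain ⟨W₀, hW₀, hW₀1, hW₀2⟩ := hS.exists_unit hI hKA hiso
  obtain ⟨f, hfF, hf1⟩ := exists_retr F
  have hf2 : f 2 = 2 := retr_mem hf1 (ofNat_mem F 2)
  have hf0 : (1 : M2).map f = 1 := by
    rw [Matrix.map_one]
    · exact map_zero f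
    · exact hf1
  obtain ⟨W, hW⟩ : ∃ W, W = mp f W₀ := ⟨_, rfl⟩
  have hWS : W ∈ S := by rw [hW]; exact hS.hF f W₀ hW₀
  have hW1 : ∀ c, W.1 c = 1 := fun c => by
    rw [hW]
    change (W₀.1 c).map f = 1
    rw [hW₀1, hf0]
  have hW2 : W.2.2.1 = 2 := by
    rw [hW]
    change f W₀.2.2.1 = 2
    rw [hW₀2, hf2]
  have hWF : ∀ j, W.2.2.2 j ∈ F := fun j => by
    rw [hW]
    exact hfF _
  obtain ⟨g, hgK, hg1⟩ := exists_retr K
  have hg2 : g 2 = 2 := retr_mem hg1 (ofNat_mem K 2)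
  obtain ⟨Y, hY⟩ : ∃ Y, Y = mp g (kap D W₀) := ⟨_, rfl⟩
  obtain ⟨X, hX⟩ : ∃ X, X = kapi D Y := ⟨_, rfl⟩
  have hXS : X ∈ S := by rw [hX, hY]; exact hS.hK g W₀ hW₀
  have hYt : Y.2.2.1 = 2 := by
    rw [hY]
    change g W₀.2.2.1 = 2
    rw [hW₀2, hg2]
  have hYK : ∀ j, Y.2.2.2 j ∈ K := fun j => by
    rw [hY]
    exact hgK _
  have hXt : X.2.2.1 = 2 := by
    rw [hX]
    exact hYt
  have hX2 : ∀ j, X.2.2.2 j = (Y.2.2.2 j + D.l j * 2) / D.w := fun j => by
    rw [hX]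
    change (Y.2.2.2 j + D.l j * Y.2.2.1) / D.w = _
    rw [hYt]
  have hAF : ∀ f : ℂ →ₗ[F] ℂ, ∀ v ∈ ne S, (fun i => f (v i)) ∈ ne S := by
    intro f v hv
    have h1 : mp f ((0, 0, 0, v) : LT C R J) ∈ S := hS.hF f _ hv
    refine (congrArg (· ∈ S) ?_).mp h1
    refine Prod.ext (funext fun c' => ?_) (Prod.ext (funext fun c' => ?_) (Prod.ext ?_ rfl))
    · change (0 : M2).map f = 0
      exact Matrix.map_zero _ (map_zero f)
    · change (0 : Matrix (R c') (Fin 2) ℂ).map f = 0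
      exact Matrix.map_zero _ (map_zero f)
    · change f 0 = 0
      exact map_zero f
  obtain ⟨μ, hμ0, hμF, hμ⟩ := exists_annih (ne S) hAF hne
  have h1 := hμ _ (hS.split hWS hW1 hW2 hXS).2
  have h2 : μ ⬝ᵥ W.2.2.2 * D.w = μ ⬝ᵥ Y.2.2.2 + 2 * (μ ⬝ᵥ D.l) := by
    have h3 : (fun j => W.2.2.2 j * X.2.2.1 - 2 * X.2.2.2 j) =
        (2 : ℂ) • (W.2.2.2 - (D.w)⁻¹ • (Y.2.2.2 + (2 : ℂ) • D.l)) := by
      funext j
      simp only [Pi.smul_apply, Pi.sub_apply, Pi.add_apply, smul_eq_mul]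
      rw [hXt, hX2]
      ring
    rw [h3, dotProduct_smul, dotProduct_sub, dotProduct_smul, dotProduct_add, dotProduct_smul,
      smul_eq_mul, smul_eq_mul, smul_eq_mul, mul_eq_zero] at h1
    have h4 := h1.resolve_left two_ne_zero
    rw [sub_eq_zero] at h4
    rw [h4, mul_comm, ← mul_assoc, mul_inv_cancel₀ D.w0, one_mul]
  have h5 := hI.log (μ ⬝ᵥ W.2.2.2) (K.sum_mem fun j _ => K.mul_mem (hFK (hμF j)) (hFK (hWF j)))
    ((-2 : ℂ) • μ) (fun j => K.mul_mem (K.neg_mem (ofNat_mem K 2)) (hFK (hμF j))) (by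
      rw [h2, smul_dotProduct, smul_eq_mul]
      have : μ ⬝ᵥ Y.2.2.2 + 2 * (μ ⬝ᵥ D.l) + -2 * (μ ⬝ᵥ D.l) = μ ⬝ᵥ Y.2.2.2 := by ring
      rw [this]
      exact K.sum_mem fun j _ => K.mul_mem (hFK (hμF j)) (hYK j))
  apply hμ0
  have h6 := h5.2
  rw [smul_eq_zero] at h6
  exact h6.resolve_left (by norm_num)

/-- **Main theorem on the Lie algebra.** -/
theorem Good.main (hI : Indep D K) (hFK : F ≤ K) (hKA : ∀ x, IsAlgebraic ℚ x → x ∈ K)
    {x : LT C R J} (hx : ∀ c, (x.1 c).trace = x.2.2.1) : x ∈ S := by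
  obtain ⟨W, hW, hW1, hW2⟩ := hS.exists_unit hI hKA hiso
  choose Y hY1 hY2 hY3 hY4 using fun c => hiso c (q0 (x.1 c)) (trace_q0 _)
  obtain ⟨Z, hZ⟩ : ∃ Z, Z = (x.2.2.1 / 2) • W + ∑ c, Y c := ⟨_, rfl⟩
  have hZS : Z ∈ S := by
    rw [hZ]
    exact S.add_mem (S.smul_mem _ hW) (S.sum_mem fun c _ => hY1 c)
  have hZ1 : ∀ c, Z.1 c = x.1 c := by
    intro c
    rw [hZ, Prod.fst_add, Prod.fst_sum, Pi.add_apply, Finset.sum_apply,
      Finset.sum_eq_single c (fun b _ hb => hY3 b c (Ne.symm hb))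
        (fun h => absurd (Finset.mem_univ _) h), hY2]
    change (x.2.2.1 / 2) • W.1 c + q0 (x.1 c) = x.1 c
    rw [hW1, ← hx c, add_comm, ← eq_q0_add]
  have hZt : Z.2.2.1 = x.2.2.1 := by
    rw [hZ, Prod.snd_add, Prod.snd_sum, Prod.snd_add, Prod.snd_sum, Prod.fst_add, Prod.fst_sum,
      Finset.sum_eq_zero fun c _ => hY4 c, add_zero]
    change x.2.2.1 / 2 * W.2.2.1 = x.2.2.1
    rw [hW2, div_mul_cancel₀ _ two_ne_zero]
  have h1 : ∀ c, x.2.1 c - Z.2.1 c ∈ nb S c := fun c => by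
    rw [hS.nb_top hiso hI hFK hKA c]
    exact Submodule.mem_top
  have h2 : x.2.2.2 - Z.2.2.2 ∈ ne S := by
    rw [hS.ne_top hiso hI hFK hKA]
    exact Submodule.mem_top
  have h3 := S.add_mem hZS (S.add_mem (S.sum_mem fun c (_ : c ∈ Finset.univ) => h1 c) h2)
  rw [sum_single (fun c => x.2.1 c - Z.2.1 c)] at h3
  refine (congrArg (· ∈ S) ?_).mp h3
  refine Prod.ext (funext fun c => ?_) (Prod.ext (funext fun c => ?_) (Prod.ext ?_
    (funext fun j => ?_)))
  · change Z.1 c + ((0 : M2) + 0) = x.1 c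
    rw [hZ1, add_zero, add_zero]
  · change Z.2.1 c + ((x.2.1 c - Z.2.1 c) + 0) = x.2.1 c
    rw [add_zero, add_sub_cancel]
  · change Z.2.2.1 + ((0 : ℂ) + 0) = x.2.2.1
    rw [hZt, add_zero, add_zero]
  · change Z.2.2.2 j + ((0 : ℂ) + (x.2.2.2 j - Z.2.2.2 j)) = x.2.2.2 j
    ring

end

end Pool.Agent.TH119.MX
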