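import Mathlib
import Pool.Agent.TH119.MX.Pure2
import Pool.Agent.TH119.MX.Poly

/-!
# The block matrices
-/

set_option linter.unusedSectionVars false

namespace Pool.Agent.TH119.MX

open Finset Matrix Pool.Agent.W437.HK Pool.Agent.TH119.DR

variable {C : Type} [Fintype C] [DecidableEq C] {R : C → Type} [∀ c, Fintype (R c)]
  [∀ c, DecidableEq (R c)] {J : Type} [Fintype J] [DecidableEq J]

/-- The index set of the bases. -/
abbrev Ix (C : Type) (R : C → Type) (J : Type) := (Σ c : C, Fin 2 ⊕ R c) ⊕ (Unit ⊕ J)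

/-- The block matrices. -/
def bm (x : LT C R J) (k : ℂ) : Matrix (Ix C R J) (Ix C R J) ℂ :=
  fromBlocks (blockDiagonal' fun c => fromBlocks (x.1 c) 0 (x.2.1 c) (k • 1)) 0 0
    (fromBlocks (Matrix.of fun _ _ => x.2.2.1) 0 (Matrix.of fun j _ => x.2.2.2 j) (k • 1))

/-- The product of block matrices. -/
def bp (x y : LT C R J) (k : ℂ) : LT C R J :=
  (fun c => x.1 c * y.1 c, fun c => x.2.1 c * y.1 c + k • y.2.1 c, x.2.2.1 * y.2.2.1,
    fun j => x.2.2.2 j * y.2.2.1 + k * y.2.2.2 j)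

theorem bm_mul (x y : LT C R J) (k l : ℂ) : bm x k * bm y l = bm (bp x y k) (k * l) := by
  unfold bm bp
  rw [fromBlocks_multiply, ← blockDiagonal'_mul]
  simp only [fromBlocks_multiply, Matrix.mul_zero, Matrix.zero_mul, add_zero, zero_add]
  congr 1
  · congr 1
    funext c
    congr 1
    · rw [Matrix.smul_mul, Matrix.one_mul]
    · rw [Matrix.smul_mul, Matrix.one_mul, smul_smul]
  · congr 1
    · ext i j
      simp [Matrix.mul_apply]
    · ext i j
      simp [Matrix.mul_apply, Matrix.one_apply]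
    · rw [Matrix.smul_mul, Matrix.one_mul, smul_smul]

theorem bm_add (x y : LT C R J) (k l : ℂ) : bm x k + bm y l = bm (x + y) (k + l) := by
  unfold bm
  rw [fromBlocks_add, ← blockDiagonal'_add, fromBlocks_add]
  congr 1
  · congr 1
    funext c
    rw [Pi.add_apply, fromBlocks_add, add_zero, add_smul]
    rfl
  · rw [add_zero]
  · rw [add_zero]
  · congr 1
    · rw [add_zero]
    · rw [add_smul]

theorem bm_smul (a : ℂ) (x : LT C R J) (k : ℂ) : a • bm x k = bm (a • x) (a * k) := by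
  unfold bm
  rw [fromBlocks_smul, ← blockDiagonal'_smul, fromBlocks_smul]
  congr 1
  · congr 1
    funext c
    rw [Pi.smul_apply, fromBlocks_smul, smul_zero, smul_smul]
    rfl
  · rw [smul_zero]
  · rw [smul_zero]
  · congr 1
    · rw [smul_zero]
    · rw [smul_smul]

theorem bm_map {f : ℂ → ℂ} (hf : f 0 = 0) (x : LT C R J) (k : ℂ) :
    (bm x k).map f = bm (mp f x) (f k) := by
  have h1 : ∀ {α : Type} [DecidableEq α], ((k • (1 : Matrix α α ℂ)).map f) = f k • 1 := by
    intro α _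
    ext i j
    rw [Matrix.map_apply, Matrix.smul_apply, Matrix.smul_apply, Matrix.one_apply]
    split_ifs
    · rw [smul_eq_mul, smul_eq_mul, mul_one, mul_one]
    · rw [smul_eq_mul, smul_eq_mul, mul_zero, mul_zero, hf]
  unfold bm mp
  rw [fromBlocks_map, fromBlocks_map, blockDiagonal'_map _ _ hf, Matrix.map_zero _ hf,
    Matrix.map_zero _ hf, Matrix.map_zero _ hf]
  congr 1
  · congr 1
    funext c
    rw [fromBlocks_map, Matrix.map_zero _ hf, h1]
  · congr 1
    exact h1

/-- The unit. -/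
def ux : LT C R J := (fun _ => 1, 0, 1, 0)

theorem bm_one : bm (ux : LT C R J) 1 = 1 := by
  unfold bm ux
  have h1 : (Matrix.of fun (_ _ : Unit) => (1 : ℂ)) = 1 := by
    ext i j
    simp
  have h2 : (Matrix.of fun (j : J) (_ : Unit) => (0 : J → ℂ) j) = 0 := by
    ext i j
    simp
  simp only [one_smul, Pi.zero_apply, fromBlocks_one]
  have h3 : blockDiagonal' (fun c : C => (1 : Matrix (Fin 2 ⊕ R c) (Fin 2 ⊕ R c) ℂ)) = 1 :=
    blockDiagonal'_one
  rw [h3]
  have h4 : (Matrix.of fun (_ : J) (_ : Unit) => (0 : ℂ)) = 0 := by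
    ext i j
    simp
  rw [h1, h4, fromBlocks_one, fromBlocks_one]

variable (D : Per C R J)

/-- The period matrix. -/
def pm : Matrix (Ix C R J) (Ix C R J) ℂ := bm (D.P, D.U, D.w, D.l) 1

/-- The inverse of the period matrix. -/
noncomputable def pm' : Matrix (Ix C R J) (Ix C R J) ℂ :=
  bm (D.P', fun c => -(D.U c * D.P' c), 1 / D.w, fun j => -(D.l j / D.w)) 1

theorem pm_pm' : pm D * pm' D = 1 := by
  unfold pm pm'
  rw [bm_mul, mul_one, ← bm_one]
  congr 1
  refine Prod.ext (funext fun c => D.PP' c) (Prod.ext (funext fun c => ?_) (Prod.ext ?_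
    (funext fun j => ?_)))
  · change D.U c * D.P' c + (1 : ℂ) • (-(D.U c * D.P' c)) = 0
    rw [one_smul, add_neg_cancel]
  · change D.w * (1 / D.w) = 1
    exact mul_one_div_cancel D.w0
  · change D.l j * (1 / D.w) + 1 * (-(D.l j / D.w)) = 0
    ring

theorem pm'_pm : pm' D * pm D = 1 := by
  unfold pm pm'
  rw [bm_mul, mul_one, ← bm_one]
  congr 1
  refine Prod.ext (funext fun c => D.P'P c) (Prod.ext (funext fun c => ?_) (Prod.ext ?_
    (funext fun j => ?_)))
  · change -(D.U c * D.P' c) * D.P c + (1 : ℂ) • D.U c = 0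
    rw [one_smul, Matrix.neg_mul, Matrix.mul_assoc, D.P'P, Matrix.mul_one, neg_add_cancel]
  · change 1 / D.w * D.w = 1
    exact one_div_mul_cancel D.w0
  · change -(D.l j / D.w) * D.w + 1 * D.l j = 0
    have := D.w0
    field_simp
    ring

theorem conj_kap (x : LT C R J) : pm' D * bm x 0 * pm D = bm (kap D x) 0 := by
  unfold pm pm'
  rw [bm_mul, bm_mul, one_mul, mul_one]
  congr 1
  refine Prod.ext rfl (Prod.ext (funext fun c => ?_) (Prod.ext ?_ (funext fun j => ?_)))
  · change (-(D.U c * D.P' c) * x.1 c + (1 : ℂ) • x.2.1 c) * D.P c + (0 : ℂ) • D.U c =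
      x.2.1 c * D.P c - D.U c * (D.P' c * x.1 c * D.P c)
    rw [one_smul, zero_smul, add_zero, Matrix.add_mul, Matrix.neg_mul, Matrix.neg_mul,
      neg_add_eq_sub]
    simp only [Matrix.mul_assoc]
  · change 1 / D.w * x.2.2.1 * D.w = x.2.2.1
    have := D.w0
    field_simp
  · change (-(D.l j / D.w) * x.2.2.1 + 1 * x.2.2.2 j) * D.w + 0 * D.l j =
      x.2.2.2 j * D.w - D.l j * x.2.2.1
    have := D.w0
    field_simp
    ring

theorem conj_kapi (y : LT C R J) : pm D * bm y 0 * pm' D = bm (kapi D y) 0 := by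
  unfold pm pm'
  rw [bm_mul, bm_mul, one_mul, mul_one]
  congr 1
  refine Prod.ext rfl (Prod.ext (funext fun c => ?_) (Prod.ext ?_ (funext fun j => ?_)))
  · change (D.U c * y.1 c + (1 : ℂ) • y.2.1 c) * D.P' c + (0 : ℂ) • (-(D.U c * D.P' c)) =
      (y.2.1 c + D.U c * y.1 c) * D.P' c
    rw [one_smul, zero_smul, add_zero, add_comm]
  · change D.w * y.2.2.1 * (1 / D.w) = y.2.2.1
    have := D.w0
    field_simp
  · change (D.l j * y.2.2.1 + 1 * y.2.2.2 j) * (1 / D.w) + 0 * (-(D.l j / D.w)) =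
      (y.2.2.2 j + D.l j * y.2.2.1) / D.w
    have := D.w0
    field_simp
    ring

theorem der_lam (δ : Derivation ℚ ℂ ℂ) : (pm D).map δ * pm' D = bm (lam D δ) 0 := by
  unfold pm pm'
  rw [bm_map (map_zero δ), bm_mul, Derivation.map_one_eq_zero, zero_mul]
  congr 1
  refine Prod.ext rfl (Prod.ext (funext fun c => ?_) (Prod.ext ?_ (funext fun j => ?_)))
  · change (D.U c).map δ * D.P' c + (0 : ℂ) • (-(D.U c * D.P' c)) = (D.U c).map δ * D.P' c
    rw [zero_smul, add_zero]
  · change δ D.w * (1 / D.w) = δ D.w / D.w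
    ring
  · change δ (D.l j) * (1 / D.w) + 0 * (-(D.l j / D.w)) = δ (D.l j) / D.w
    ring

theorem br_bm (x y : LT C R J) :
    bm x 0 * bm y 0 - bm y 0 * bm x 0 = bm (br x y) 0 := by
  have h1 : bm y 0 * bm x 0 = bm (bp y x 0) 0 := by rw [bm_mul, zero_mul]
  have h2 : bm x 0 * bm y 0 = bm (bp x y 0) 0 := by rw [bm_mul, zero_mul]
  have h3 : bm (br x y) 0 + bm (bp y x 0) 0 = bm (bp x y 0) 0 := by
    rw [bm_add, add_zero]
    congr 1
    refine Prod.ext (funext fun c => ?_) (Prod.ext (funext fun c => ?_) (Prod.ext ?_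
      (funext fun j => ?_)))
    · change x.1 c * y.1 c - y.1 c * x.1 c + y.1 c * x.1 c = x.1 c * y.1 c
      rw [sub_add_cancel]
    · change x.2.1 c * y.1 c - y.2.1 c * x.1 c + (y.2.1 c * x.1 c + (0 : ℂ) • x.2.1 c) =
        x.2.1 c * y.1 c + (0 : ℂ) • y.2.1 c
      rw [zero_smul, zero_smul, add_zero, add_zero, sub_add_cancel]
    · change 0 + y.2.2.1 * x.2.2.1 = x.2.2.1 * y.2.2.1
      ring
    · change x.2.2.2 j * y.2.2.1 - y.2.2.2 j * x.2.2.1 + (y.2.2.2 j * x.2.2.1 + 0 * x.2.2.2 j) =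
        x.2.2.2 j * y.2.2.1 + 0 * y.2.2.2 j
      ring
  rw [h1, h2, ← h3, add_sub_cancel_right]

/-- The trace of the logarithmic derivative. -/
theorem tr_der (δ : Derivation ℚ ℂ ℂ) {P P' : M2} (h : P' * P = 1) :
    (P.map δ * P').trace * P.det = δ P.det := by
  have h1 : P.det • P' = P.adjugate := by
    calc P.det • P' = P' * (P.det • (1 : M2)) := by rw [Matrix.mul_smul, Matrix.mul_one]
      _ = P' * (P * P.adjugate) := by rw [Matrix.mul_adjugate]
      _ = P.adjugate := by rw [← Matrix.mul_assoc, h, Matrix.one_mul]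
  have h2 : (P.map δ * P').trace * P.det = (P.map δ * P.adjugate).trace := by
    rw [← h1, Matrix.mul_smul, Matrix.trace_smul, smul_eq_mul, mul_comm]
  rw [h2, Matrix.adjugate_fin_two, Matrix.det_fin_two, Matrix.trace_fin_two, map_sub,
    Derivation.leibniz, Derivation.leibniz]
  simp only [Matrix.mul_apply, Fin.sum_univ_two, Matrix.map_apply, Matrix.of_apply,
    Matrix.cons_val_zero, Matrix.cons_val_one, Matrix.cons_val', Matrix.cons_val_fin_one,
    smul_eq_mul]
  ring

variable {D} {F K : Subfield ℂ} {H : Set (Matrix (Ix C R J) (Ix C R J) ℂ)}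
  {A A' : Matrix (Ix C R J) (Ix C R J) ℂ}

/-- The stabilizer, as a space of elements of the Lie algebra. -/
def Sd (H : Set (Matrix (Ix C R J) (Ix C R J) ℂ)) (d : ℕ) : Submodule ℂ (LT C R J) where
  carrier := {x | (∀ c, (x.1 c).trace = x.2.2.1) ∧ Stab H d (bm x 0)}
  zero_mem' := by
    refine ⟨fun c => Matrix.trace_zero _ _, ?_⟩
    have h1 := bm_smul 0 (0 : LT C R J) 0
    rw [zero_smul, zero_smul, mul_zero] at h1
    rw [← h1]
    exact Stab.zero
  add_mem' := by
    rintro x y ⟨h1, h2⟩ ⟨h3, h4⟩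
    refine ⟨fun c => ?_, ?_⟩
    · change (x.1 c + y.1 c).trace = x.2.2.1 + y.2.2.1
      rw [Matrix.trace_add, h1, h3]
    · have h5 := bm_add x y 0 0
      rw [add_zero] at h5
      rw [← h5]
      exact h2.add h4
  smul_mem' := by
    rintro a x ⟨h1, h2⟩
    refine ⟨fun c => ?_, ?_⟩
    · change (a • x.1 c).trace = a * x.2.2.1
      rw [Matrix.trace_smul, h1, smul_eq_mul]
    · have h5 := bm_smul a x 0
      rw [mul_zero] at h5
      rw [← h5]
      exact h2.smul a

/-- The determinants of the period matrices are algebraic multiples of `w`. -/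
def Leg (D : Per C R J) : Prop := ∀ c, ∃ n : ℂ, IsAlgebraic ℚ n ∧ (D.P c).det = n * D.w

theorem good_Sd (hH : AlgGrp F H) (hFK : F ≤ K) (hKA : ∀ x ∈ K, IsAlgebraic ℚ x) (hL : Leg D)
    (hA : A * A' = 1) (hA' : ∀ i j, A' i j ∈ K) (hPA : pm D * A ∈ H) (d : ℕ) :
    Good D F K (Sd H d) where
  htr x hx := hx.1
  hbr x hx y hy := by
    refine ⟨fun c => ?_, ?_⟩
    · change (x.1 c * y.1 c - y.1 c * x.1 c).trace = 0
      rw [Matrix.trace_sub, Matrix.trace_mul_comm, sub_self]
    · rw [← br_bm]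
      exact hx.2.comm hy.2
  hF f x hx := by
    refine ⟨fun c => ?_, ?_⟩
    · change ((x.1 c).map f).trace = f x.2.2.1
      rw [← hx.1 c, Matrix.trace_fin_two, Matrix.trace_fin_two, map_add]
      rfl
    · have h1 := hH.stab_map f hx.2
      rwa [bm_map (map_zero f), map_zero] at h1
  hK f x hx := by
    refine ⟨fun c => ?_, ?_⟩
    · change (D.P c * (D.P' c * x.1 c * D.P c).map f * D.P' c).trace = f x.2.2.1
      rw [Matrix.trace_mul_comm, ← Matrix.mul_assoc, D.P'P, Matrix.one_mul, ← hx.1 c]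
      have h1 : (D.P' c * x.1 c * D.P c).trace = (x.1 c).trace := by
        rw [Matrix.trace_mul_comm, ← Matrix.mul_assoc, D.PP', Matrix.one_mul]
      rw [← h1, Matrix.trace_fin_two, Matrix.trace_fin_two, map_add]
      rfl
    · have h1 := hH.stab_map' hFK (pm_pm' D) (pm'_pm D) hA hA' hPA f hx.2
      rwa [conj_kap, bm_map (map_zero f), map_zero, conj_kapi] at h1
  hder δ := by
    refine ⟨fun c => ?_, ?_⟩
    · change ((D.P c).map δ * D.P' c).trace = δ D.w / D.w
      obtain ⟨n, hn, hn2⟩ := hL c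
      have h1 := tr_der δ (D.P'P c)
      have hdet : (D.P c).det ≠ 0 := by
        intro h
        have h2 := congrArg Matrix.det (D.PP' c)
        rw [Matrix.det_mul, h, zero_mul, Matrix.det_one] at h2
        exact zero_ne_one h2
      have hn0 : n ≠ 0 := by
        rintro rfl
        rw [zero_mul] at hn2
        exact hdet hn2
      rw [hn2, Derivation.leibniz, deriv_alg δ hn, smul_zero, add_zero, smul_eq_mul] at h1
      rw [eq_div_iff D.w0]
      have h2 : n * (((D.P c).map δ * D.P' c).trace * D.w) = n * δ D.w := by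
        rw [← h1]
        ring
      exact mul_left_cancel₀ hn0 h2
    · rw [← der_lam]
      exact hH.stab_der hFK hKA (pm_pm' D) (pm'_pm D) hA hA' hPA δ

/-! ### Generation of the group -/

section gen

variable (hst : ∀ x : LT C R J, (∀ c, (x.1 c).trace = x.2.2.1) → ∀ d, Stab H d (bm x 0))

include hst

theorem pres_one (x : LT C R J) (hx : ∀ c, (x.1 c).trace = x.2.2.1) {ε : ℂ}
    (h : bp x x 0 = ε • x) (s : ℂ) : Pres H (bm (ux + s • x) 1) := by
  have h1 : bm x 0 * bm x 0 = ε • bm x 0 := by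
    rw [bm_mul, bm_smul, h, mul_zero, mul_zero]
  have h2 := pres_of_stab h1 (hst x hx) s
  rwa [← bm_one, bm_smul, bm_add, mul_zero, add_zero] at h2

/-- The unipotent elements. -/
theorem pres_unip (b : (c : C) → Matrix (R c) (Fin 2) ℂ) (e : J → ℂ) :
    Pres H (bm ((fun _ => 1, b, 1, e) : LT C R J) 1) := by
  have h1 := pres_one hst ((0, b, 0, e) : LT C R J) (fun c => Matrix.trace_zero _ _) (ε := 0) ?_ 1
  · refine (congrArg (fun x => Pres H (bm x 1)) ?_).mp h1
    refine Prod.ext (funext fun c => ?_) (Prod.ext (funext fun c => ?_) (Prod.ext ?_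
      (funext fun j => ?_)))
    · change (1 : M2) + (1 : ℂ) • (0 : M2) = 1
      simp
    · change (0 : Matrix (R c) (Fin 2) ℂ) + (1 : ℂ) • b c = b c
      simp
    · change (1 : ℂ) + 1 * 0 = 1
      ring
    · change (0 : ℂ) + 1 * e j = e j
      ring
  · refine Prod.ext (funext fun c => ?_) (Prod.ext (funext fun c => ?_) (Prod.ext ?_
      (funext fun j => ?_)))
    · change (0 : M2) * 0 = (0 : ℂ) • (0 : M2)
      simp
    · change b c * (0 : M2) + (0 : ℂ) • b c = (0 : ℂ) • b c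
      simp
    · change (0 : ℂ) * 0 = 0 * 0
      ring
    · change e j * 0 + 0 * e j = 0 * e j
      ring

/-- Elementary matrices in one component. -/
theorem pres_elem (c : C) {N : M2} (hN : N * N = 0) (htr : N.trace = 0) :
    Pres H (bm ((Pi.mulSingle c (1 + N), 0, 1, 0) : LT C R J) 1) := by
  have h1 := pres_one hst ((Pi.single c N, 0, 0, 0) : LT C R J) (fun c' => ?_) (ε := 0) ?_ 1
  · refine (congrArg (fun x => Pres H (bm x 1)) ?_).mp h1
    refine Prod.ext (funext fun c' => ?_) (Prod.ext (funext fun c' => ?_) (Prod.ext ?_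
      (funext fun j => ?_)))
    · change (1 : M2) + (1 : ℂ) • (Pi.single (M := fun _ : C => M2) c N c') =
        Pi.mulSingle (M := fun _ : C => M2) c (1 + N) c'
      by_cases h : c' = c
      · subst h
        rw [Pi.single_eq_same, Pi.mulSingle_eq_same, one_smul]
      · rw [Pi.single_eq_of_ne h, Pi.mulSingle_eq_of_ne h, smul_zero, add_zero]
    · change (0 : Matrix (R c') (Fin 2) ℂ) + (1 : ℂ) • (0 : Matrix (R c') (Fin 2) ℂ) = 0
      simp
    · change (1 : ℂ) + 1 * 0 = 1
      ring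
    · change (0 : ℂ) + 1 * 0 = 0
      ring
  · change (Pi.single (M := fun _ : C => M2) c N c').trace = 0
    by_cases h : c' = c
    · subst h
      rw [Pi.single_eq_same, htr]
    · rw [Pi.single_eq_of_ne h, Matrix.trace_zero]
  · refine Prod.ext (funext fun c' => ?_) (Prod.ext (funext fun c' => ?_) (Prod.ext ?_
      (funext fun j => ?_)))
    · change (Pi.single (M := fun _ : C => M2) c N c') * (Pi.single (M := fun _ : C => M2) c N c') =
        (0 : ℂ) • (Pi.single (M := fun _ : C => M2) c N c')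
      by_cases h : c' = c
      · subst h
        rw [Pi.single_eq_same, hN, zero_smul]
      · rw [Pi.single_eq_of_ne h, mul_zero, smul_zero]
    · change (0 : Matrix (R c') (Fin 2) ℂ) * _ + (0 : ℂ) • (0 : Matrix (R c') (Fin 2) ℂ) =
        (0 : ℂ) • (0 : Matrix (R c') (Fin 2) ℂ)
      simp
    · change (0 : ℂ) * 0 = 0 * 0
      ring
    · change (0 : ℂ) * 0 + 0 * 0 = 0 * 0
      ring

/-- The torus. -/
theorem pres_torus (s : ℂ) :
    Pres H (bm ((fun _ => !![s, 0; 0, 1], 0, s, 0) : LT C R J) 1) := by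
  have h1 := pres_one hst ((fun _ => !![1, 0; 0, 0], 0, 1, 0) : LT C R J) (fun c' => ?_) (ε := 1)
    ?_ (s - 1)
  · refine (congrArg (fun x => Pres H (bm x 1)) ?_).mp h1
    refine Prod.ext (funext fun c' => ?_) (Prod.ext (funext fun c' => ?_) (Prod.ext ?_
      (funext fun j => ?_)))
    · change (1 : M2) + (s - 1) • (!![1, 0; 0, 0] : M2) = !![s, 0; 0, 1]
      ext i j
      fin_cases i <;> fin_cases j <;> simp
    · change (0 : Matrix (R c') (Fin 2) ℂ) + (s - 1 : ℂ) • (0 : Matrix (R c') (Fin 2) ℂ) = 0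
      simp
    · change (1 : ℂ) + (s - 1) * 1 = s
      ring
    · change (0 : ℂ) + (s - 1) * 0 = 0
      ring
  · change (!![1, 0; 0, 0] : M2).trace = 1
    simp [Matrix.trace_fin_two]
  · refine Prod.ext (funext fun c' => ?_) (Prod.ext (funext fun c' => ?_) (Prod.ext ?_
      (funext fun j => ?_)))
    · change (!![1, 0; 0, 0] : M2) * !![1, 0; 0, 0] = (1 : ℂ) • (!![1, 0; 0, 0] : M2)
      ext i j
      fin_cases i <;> fin_cases j <;> simp
    · change (0 : Matrix (R c') (Fin 2) ℂ) * _ + (0 : ℂ) • (0 : Matrix (R c') (Fin 2) ℂ) =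
        (1 : ℂ) • (0 : Matrix (R c') (Fin 2) ℂ)
      simp
    · change (1 : ℂ) * 1 = 1 * 1
      ring
    · change (0 : ℂ) * 1 + 0 * 0 = 1 * 0
      ring

theorem pres_mul_single (c : C) {m n : M2}
    (hm : Pres H (bm ((Pi.mulSingle c m, 0, 1, 0) : LT C R J) 1))
    (hn : Pres H (bm ((Pi.mulSingle c n, 0, 1, 0) : LT C R J) 1)) :
    Pres H (bm ((Pi.mulSingle c (m * n), 0, 1, 0) : LT C R J) 1) := by
  have h1 := hm.mul hn
  rw [bm_mul, mul_one] at h1
  refine (congrArg (fun x => Pres H (bm x 1)) ?_).mp h1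
  refine Prod.ext (funext fun c' => ?_) (Prod.ext (funext fun c' => ?_) (Prod.ext ?_
    (funext fun j => ?_)))
  · change Pi.mulSingle (M := fun _ : C => M2) c m c' * Pi.mulSingle (M := fun _ : C => M2) c n c' =
      Pi.mulSingle (M := fun _ : C => M2) c (m * n) c'
    by_cases h : c' = c
    · subst h
      rw [Pi.mulSingle_eq_same, Pi.mulSingle_eq_same, Pi.mulSingle_eq_same]
    · rw [Pi.mulSingle_eq_of_ne h, Pi.mulSingle_eq_of_ne h, Pi.mulSingle_eq_of_ne h, mul_one]
  · change (0 : Matrix (R c') (Fin 2) ℂ) * _ + (1 : ℂ) • (0 : Matrix (R c') (Fin 2) ℂ) = 0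
    simp
  · change (1 : ℂ) * 1 = 1
    ring
  · change (0 : ℂ) * 1 + 1 * 0 = 0
    ring

/-- The special linear group in one component. -/
theorem pres_sl (c : C) {m : M2} (hm : m.det = 1) :
    Pres H (bm ((Pi.mulSingle c m, 0, 1, 0) : LT C R J) 1) := by
  have hu : ∀ s : ℂ, Pres H (bm ((Pi.mulSingle c (!![1, s; 0, 1] : M2), 0, 1, 0) : LT C R J) 1) := by
    intro s
    have h1 := pres_elem hst c (N := !![0, s; 0, 0]) (by
      ext i j
      fin_cases i <;> fin_cases j <;> simp) (by simp [Matrix.trace_fin_two])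
    have h2 : (1 : M2) + !![0, s; 0, 0] = !![1, s; 0, 1] := by
      ext i j
      fin_cases i <;> fin_cases j <;> simp
    rwa [h2] at h1
  have hl : ∀ s : ℂ, Pres H (bm ((Pi.mulSingle c (!![1, 0; s, 1] : M2), 0, 1, 0) : LT C R J) 1) := by
    intro s
    have h1 := pres_elem hst c (N := !![0, 0; s, 0]) (by
      ext i j
      fin_cases i <;> fin_cases j <;> simp) (by simp [Matrix.trace_fin_two])
    have h2 : (1 : M2) + !![0, 0; s, 0] = !![1, 0; s, 1] := by
      ext i j
      fin_cases i <;> fin_cases j <;> simp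
    rwa [h2] at h1
  have key : ∀ m : M2, m.det = 1 → m 1 0 ≠ 0 →
      Pres H (bm ((Pi.mulSingle c m, 0, 1, 0) : LT C R J) 1) := by
    intro m hm h0
    rw [Matrix.det_fin_two] at hm
    have h1 : m = !![1, (m 0 0 - 1) / m 1 0; 0, 1] * !![1, 0; m 1 0, 1] *
        !![1, (m 1 1 - 1) / m 1 0; 0, 1] := by
      ext i j
      fin_cases i <;> fin_cases j
      · simp only [Fin.zero_eta, Matrix.mul_apply, Fin.sum_univ_two]
        simp
        field_simp
        ring
      · simp only [Fin.zero_eta, Fin.mk_one, Matrix.mul_apply, Fin.sum_univ_two]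
        simp
        field_simp
        linear_combination (-1 : ℂ) * hm
      · simp only [Fin.zero_eta, Fin.mk_one, Matrix.mul_apply, Fin.sum_univ_two]
        simp
      · simp only [Fin.mk_one, Matrix.mul_apply, Fin.sum_univ_two]
        simp
        field_simp
        ring
    rw [h1]
    exact pres_mul_single hst c (pres_mul_single hst c (hu _) (hl _)) (hu _)
  by_cases h0 : m 1 0 = 0
  · have h1 : m = m * !![1, 0; 1, 1] * !![1, 0; -1, 1] := by
      rw [Matrix.mul_assoc]
      have h2 : (!![1, 0; 1, 1] : M2) * !![1, 0; -1, 1] = 1 := by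
        ext i j
        fin_cases i <;> fin_cases j <;> simp
      rw [h2, Matrix.mul_one]
    rw [h1]
    refine pres_mul_single hst c (key _ ?_ ?_) (hl _)
    · rw [Matrix.det_mul, hm, Matrix.det_fin_two]
      simp
    · rw [Matrix.det_fin_two, h0, mul_zero, sub_zero] at hm
      rw [Matrix.mul_apply, Fin.sum_univ_two]
      simp only [Matrix.of_apply, Matrix.cons_val', Matrix.cons_val_zero, Matrix.cons_val_one,
        Matrix.cons_val_fin_one, mul_one, h0, zero_add]
      intro h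
      rw [h, mul_zero] at hm
      exact zero_ne_one hm
  · exact key m hm h0

/-- The product of the special linear groups. -/
theorem pres_sls {a : C → M2} (ha : ∀ c, (a c).det = 1) :
    Pres H (bm ((a, 0, 1, 0) : LT C R J) 1) := by
  have key : ∀ E : Finset C, Pres H (bm ((fun c => if c ∈ E then a c else 1, 0, 1, 0) :
      LT C R J) 1) := by
    intro E
    induction E using Finset.induction_on with
    | empty =>
      have h1 : Pres H (bm ((fun _ => 1, 0, 1, 0) : LT C R J) 1) := pres_unip hst 0 0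
      simpa using h1
    | insert d E hd ih =>
      have h1 := (pres_sl hst d (ha d)).mul ih
      rw [bm_mul, mul_one] at h1
      refine (congrArg (fun x => Pres H (bm x 1)) ?_).mp h1
      refine Prod.ext (funext fun c' => ?_) (Prod.ext (funext fun c' => ?_) (Prod.ext ?_
        (funext fun j => ?_)))
      · change Pi.mulSingle (M := fun _ : C => M2) d (a d) c' * (if c' ∈ E then a c' else 1) =
          if c' ∈ insert d E then a c' else 1
        by_cases h : c' = d
        · subst h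
          rw [Pi.mulSingle_eq_same, if_neg hd, if_pos (Finset.mem_insert_self _ _), mul_one]
        · rw [Pi.mulSingle_eq_of_ne h, one_mul]
          simp [h]
      · change (0 : Matrix (R c') (Fin 2) ℂ) * _ + (1 : ℂ) • (0 : Matrix (R c') (Fin 2) ℂ) = 0
        simp
      · change (1 : ℂ) * 1 = 1
        ring
      · change (0 : ℂ) * 1 + 1 * 0 = 0
        ring
  have h1 := key Finset.univ
  simpa using h1

/-- **The whole group.** -/
theorem pres_all {x : LT C R J} (hx : ∀ c, (x.1 c).det = x.2.2.1) (h0 : x.2.2.1 ≠ 0) :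
    Pres H (bm x 1) := by
  have h1 : Pres H (bm ((fun c => x.1 c * !![x.2.2.1⁻¹, 0; 0, 1], 0, 1, 0) : LT C R J) 1) := by
    refine pres_sls hst fun c => ?_
    rw [Matrix.det_mul, hx, Matrix.det_fin_two]
    simp [h0]
  have h2 := (pres_unip hst (fun c => x.2.1 c * (x.1 c)⁻¹) (fun j => x.2.2.2 j / x.2.2.1)).mul
    (h1.mul (pres_torus hst x.2.2.1))
  rw [bm_mul, bm_mul, mul_one, mul_one] at h2
  refine (congrArg (fun x => Pres H (bm x 1)) ?_).mp h2
  have h3 : ∀ c, x.1 c * !![x.2.2.1⁻¹, 0; 0, 1] * !![x.2.2.1, 0; 0, 1] = x.1 c := by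
    intro c
    have h4 : (!![x.2.2.1⁻¹, 0; 0, 1] : M2) * !![x.2.2.1, 0; 0, 1] = 1 := by
      ext i j
      fin_cases i <;> fin_cases j <;> simp [h0]
    rw [Matrix.mul_assoc, h4, Matrix.mul_one]
  refine Prod.ext (funext fun c' => ?_) (Prod.ext (funext fun c' => ?_) (Prod.ext ?_
    (funext fun j => ?_)))
  · change (1 : M2) * (x.1 c' * !![x.2.2.1⁻¹, 0; 0, 1] * !![x.2.2.1, 0; 0, 1]) = x.1 c'
    rw [h3, one_mul]
  · change x.2.1 c' * (x.1 c')⁻¹ * (x.1 c' * !![x.2.2.1⁻¹, 0; 0, 1] * !![x.2.2.1, 0; 0, 1]) +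
      (1 : ℂ) • ((0 : Matrix (R c') (Fin 2) ℂ) * _ + (1 : ℂ) • (0 : Matrix (R c') (Fin 2) ℂ)) =
      x.2.1 c'
    rw [h3, Matrix.zero_mul, smul_zero, add_zero, smul_zero, add_zero, Matrix.mul_assoc,
      Matrix.nonsing_inv_mul _ (by rw [hx]; exact isUnit_iff_ne_zero.2 h0), Matrix.mul_one]
  · change 1 * (1 * x.2.2.1) = x.2.2.1
    ring
  · change x.2.2.2 j / x.2.2.1 * (1 * x.2.2.1) + 1 * ((0 : ℂ) * _ + 1 * 0) = x.2.2.2 j
    rw [one_mul, div_mul_cancel₀ _ h0]
    ring

end gen

/-- **Main theorem, general form.** -/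
theorem grp_main (hH : AlgGrp F H) (hFK : F ≤ K) (hKA : ∀ x, IsAlgebraic ℚ x ↔ x ∈ K)
    (hL : Leg D) (hI : Indep D K)
    (hA : A * A' = 1) (hA' : ∀ i j, A' i j ∈ K) (hPA : pm D * A ∈ H)
    (hpair : ∀ d, Good D F K (Sd H d) → ∀ c c' : C, c ≠ c' → ∀ x : M2, x.trace = 0 →
      ∃ X ∈ Sd H d, q0 (X.1 c) = x ∧ q0 (X.1 c') = 0)
    {x : LT C R J} (hx : ∀ c, (x.1 c).det = x.2.2.1) (h0 : x.2.2.1 ≠ 0) : bm x 1 ∈ H := by
  have hK : SqClosed K := by
    intro z hz
    rw [← hKA] at hz ⊢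
    rw [← sq] at hz
    exact hz.of_pow two_pos
  have hst : ∀ x : LT C R J, (∀ c, (x.1 c).trace = x.2.2.1) → ∀ d, Stab H d (bm x 0) := by
    intro x hx d
    have hS := good_Sd hH hFK (fun x hx => (hKA x).2 hx) hL hA hA' hPA d
    exact (hS.main (fun c x hx => hS.iso' hI hFK hK (fun x hx => (hKA x).1 hx)
      (hpair d hS) c hx) hI hFK (fun x hx => (hKA x).1 hx) hx).2
  have h1 := pres_all hst hx h0
  have hu : ∀ c, IsUnit (x.1 c).det := fun c => by
    rw [hx]
    exact isUnit_iff_ne_zero.2 h0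
  refine hH.mem_of_pres (g' := bm ((fun c => (x.1 c)⁻¹, fun c => -(x.2.1 c * (x.1 c)⁻¹),
    1 / x.2.2.1, fun j => -(x.2.2.2 j / x.2.2.1)) : LT C R J) 1) h1 ?_ ?_
  · rw [bm_mul, mul_one, ← bm_one]
    congr 1
    refine Prod.ext (funext fun c => ?_) (Prod.ext (funext fun c => ?_) (Prod.ext ?_
      (funext fun j => ?_)))
    · exact Matrix.mul_nonsing_inv _ (hu c)
    · change x.2.1 c * (x.1 c)⁻¹ + (1 : ℂ) • (-(x.2.1 c * (x.1 c)⁻¹)) = 0
      rw [one_smul, add_neg_cancel]
    · change x.2.2.1 * (1 / x.2.2.1) = 1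
      exact mul_one_div_cancel h0
    · change x.2.2.2 j * (1 / x.2.2.1) + 1 * (-(x.2.2.2 j / x.2.2.1)) = 0
      ring
  · rw [bm_mul, mul_one, ← bm_one]
    congr 1
    refine Prod.ext (funext fun c => ?_) (Prod.ext (funext fun c => ?_) (Prod.ext ?_
      (funext fun j => ?_)))
    · exact Matrix.nonsing_inv_mul _ (hu c)
    · change -(x.2.1 c * (x.1 c)⁻¹) * x.1 c + (1 : ℂ) • x.2.1 c = 0
      rw [one_smul, Matrix.neg_mul, Matrix.mul_assoc, Matrix.nonsing_inv_mul _ (hu c),
        Matrix.mul_one, neg_add_cancel]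
    · change 1 / x.2.2.1 * x.2.2.1 = 1
      exact one_div_mul_cancel h0
    · change -(x.2.2.2 j / x.2.2.1) * x.2.2.1 + 1 * x.2.2.2 j = 0
      field_simp
      ring

end Pool.Agent.TH119.MX
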