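import Mathlib
import Pool.Agent.TH119.MX.Mat
import Pool.Agent.W245.EB.RedZ
import Pool.Agent.H297R2.InBakerThm

/-!
# The transcendence input for an elliptic curve and for logarithms
-/

namespace Pool.Agent.TH119.MX

open Finset Matrix H667R3 Pool.Agent.W245.EB

variable (L : PeriodPair)

/-- The period matrix of an elliptic curve. -/
noncomputable def pE : M2 := !![L.ω₁, eta L L.ω₁; L.ω₂, eta L L.ω₂]

/-- The relation of Legendre, up to an integral factor. -/
theorem legendre_int : ∃ n : ℤ, (pE L).det = (n : ℂ) * (2 * Real.pi * Complex.I) := by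
  obtain ⟨C₁, hC₁, h1⟩ := sigma_add_coe L L.ω₁_mem_lattice
  obtain ⟨C₂, hC₂, h2⟩ := sigma_add_coe L L.ω₂_mem_lattice
  have hz := L.ω₁_div_two_notMem_lattice
  have hs := sigma_ne_zero L hz
  set z := L.ω₁ / 2
  have h3 := h1 (z + L.ω₂)
  have h4 := h2 (z + L.ω₁)
  have e1 : z + L.ω₂ + L.ω₁ = z + L.ω₁ + L.ω₂ := by ring
  rw [e1, h4, h1 z, h2 z] at h3
  have h5 : Complex.exp (eta L L.ω₂ * L.ω₁) = Complex.exp (eta L L.ω₁ * L.ω₂) := by
    have e2 : Complex.exp (eta L L.ω₂ * (z + L.ω₁)) =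
        Complex.exp (eta L L.ω₂ * z) * Complex.exp (eta L L.ω₂ * L.ω₁) := by
      rw [← Complex.exp_add]
      ring_nf
    have e3 : Complex.exp (eta L L.ω₁ * (z + L.ω₂)) =
        Complex.exp (eta L L.ω₁ * z) * Complex.exp (eta L L.ω₁ * L.ω₂) := by
      rw [← Complex.exp_add]
      ring_nf
    rw [e2, e3] at h3
    have hX : C₁ * C₂ * Complex.exp (eta L L.ω₁ * z) * Complex.exp (eta L L.ω₂ * z) *
        sigma L z ≠ 0 := by
      have := Complex.exp_ne_zero (eta L L.ω₁ * z)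
      have := Complex.exp_ne_zero (eta L L.ω₂ * z)
      positivity
    apply mul_left_cancel₀ hX
    linear_combination h3
  obtain ⟨n, hn⟩ := Complex.exp_eq_exp_iff_exists_int.1 h5
  refine ⟨n, ?_⟩
  rw [pE, Matrix.det_fin_two_of]
  linear_combination hn

theorem pE_det_ne : (pE L).det ≠ 0 := by
  intro h
  rw [pE, Matrix.det_fin_two_of] at h
  have hω : L.ω₁ ≠ 0 := by
    intro h0
    have := L.ω₁_div_two_notMem_lattice
    rw [h0, zero_div] at this
    exact this (zero_mem _)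
  obtain ⟨w, hw, hne⟩ := exists_quasi_period L (s := L.ω₁) (ρ := -eta L L.ω₁) (Or.inl hω)
  apply hne
  obtain ⟨m, n, hmn⟩ := PeriodPair.mem_lattice.1 hw
  rw [← hmn]
  have e1 : eta L (m * L.ω₁ + n * L.ω₂) = m * eta L L.ω₁ + n * eta L L.ω₂ := by
    rw [eta_add L (intCast_mul_mem L L.ω₁_mem_lattice m) (intCast_mul_mem L L.ω₂_mem_lattice n),
      eta_zsmul L L.ω₁_mem_lattice, eta_zsmul L L.ω₂_mem_lattice]
  rw [e1]
  linear_combination (n : ℂ) * h

variable {L}

theorem mem_kL_rat (hcm : ∀ a : ℂ, (∀ w ∈ L.lattice, a * w ∈ L.lattice) → ∃ n : ℤ, a = n)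
    {a : ℂ} (ha : a ∈ kL L) : ∃ q : ℚ, (q : ℂ) = a := by
  obtain ⟨m, hm, h⟩ := ha
  obtain ⟨n, hn⟩ := hcm ((m : ℂ) * a) h
  refine ⟨(n : ℚ) / m, ?_⟩
  have hm' : (m : ℂ) ≠ 0 := by exact_mod_cast hm.ne'
  push_cast
  rw [div_eq_iff hm', ← hn]
  ring

/-- The periods of the pair. -/
noncomputable def perE (L : PeriodPair) {r : ℕ} (u : Fin r → ℂ) {n : ℕ} (l : Fin n → ℂ) :
    Per Unit (fun _ => Fin r) (Fin n) where
  P _ := pE L
  P' _ := (pE L)⁻¹
  PP' _ := Matrix.mul_nonsing_inv _ (isUnit_iff_ne_zero.2 (pE_det_ne L))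
  P'P _ := Matrix.nonsing_inv_mul _ (isUnit_iff_ne_zero.2 (pE_det_ne L))
  U _ := Matrix.of fun j => ![u j, zt L (u j)]
  w := 2 * Real.pi * Complex.I
  w0 := Complex.two_pi_I_ne_zero
  l := l

theorem leg_perE {r : ℕ} (u : Fin r → ℂ) {n : ℕ} (l : Fin n → ℂ) : Leg (perE L u l) := by
  intro c
  obtain ⟨n, hn⟩ := legendre_int L
  exact ⟨n, isAlgebraic_intCast n, hn⟩

theorem indep_perE (h2 : IsAlgebraic ℚ L.g₂) (h3 : IsAlgebraic ℚ L.g₃)
    (hcm : ∀ a : ℂ, (∀ w ∈ L.lattice, a * w ∈ L.lattice) → ∃ n : ℤ, a = n)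
    {r : ℕ} (u : Fin r → ℂ) (hu : ∀ j, u j ∈ EL L)
    (hui : LinearIndependent ℚ (Sum.elim ![L.ω₁, L.ω₂] u))
    {n : ℕ} (l : Fin n → ℂ) (hl : ∀ j, IsAlgebraic ℚ (Complex.exp (l j)))
    (hli : LinearIndependent ℚ (Sum.elim ![2 * Real.pi * Complex.I] l)) :
    Indep (perE L u l) QB where
  lin := by
    intro c q hq hqK ν hν a ha h
    set v : Fin 2 ⊕ Fin r → ℂ := Sum.elim ![L.ω₁, L.ω₂] u with hv
    set e : Fin (2 + r) ≃ Fin 2 ⊕ Fin r := finSumFinEquiv.symm with he
    set γ : Fin 2 ⊕ Fin r → ℂ := Sum.elim ν a with hγ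
    have hvE : ∀ i, v i ∈ EL L := by
      rintro (i | j)
      · rw [hv, Sum.elim_inl]
        fin_cases i
        · exact Or.inl L.ω₁_mem_lattice
        · exact Or.inl L.ω₂_mem_lattice
      · exact hu j
    have hind : ∀ α : Fin (2 + r) → ℂ, (∀ i, α i ∈ kL L) → ∑ i, α i * v (e i) = 0 → α = 0 := by
      intro α hα hs
      choose b hb using fun i => mem_kL_rat hcm (hα i)
      have h4 : ∑ x, b (e.symm x) • v x = 0 := by
        rw [← Equiv.sum_comp e]
        rw [← hs]
        refine Finset.sum_congr rfl fun i _ => ?_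
        rw [Equiv.symm_apply_apply, ← hb i, Rat.smul_def]
      funext i
      have h5 := Fintype.linearIndependent_iff.1 hui _ h4 (e i)
      rw [Equiv.symm_apply_apply] at h5
      rw [← hb i, h5]
      simp
    have hsρ : q 1 ≠ 0 ∨ q 0 ≠ 0 := by
      by_contra hcon
      push Not at hcon
      apply hq
      funext i
      fin_cases i
      · exact hcon.2
      · exact hcon.1
    have h6 := second_kind h2 h3 (fun i => v (e i)) (fun i => hvE _) hind (q 1) (q 0)
      (mem_QB.1 (hqK 1)) (mem_QB.1 (hqK 0)) hsρ (fun i => γ (e i)) (by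
        intro i
        rcases e i with x | x
        · exact mem_QB.1 (hν x)
        · exact mem_QB.1 (ha x)) (by
        rw [← mem_QB]
        convert h using 1
        rw [Equiv.sum_comp e (fun x => γ x * (q 1 * zt L (v x) + q 0 * v x)), Fintype.sum_sum_type,
          Fin.sum_univ_two]
        simp only [hγ, hv, Sum.elim_inl, Sum.elim_inr, perE, pE, dotProduct, Fin.sum_univ_two,
          Matrix.mulVec, Matrix.of_apply, Matrix.cons_val_zero, Matrix.cons_val_one]
        rw [zt_of_mem L.ω₁_mem_lattice, zt_of_mem L.ω₂_mem_lattice]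
        congr 1
        · ring
        · refine Finset.sum_congr rfl fun j _ => ?_
          ring)
    have h7 : ∀ x, γ x = 0 := by
      intro x
      have := congrFun h6 (e.symm x)
      simpa using this
    exact ⟨funext fun i => h7 (Sum.inl i), funext fun j => h7 (Sum.inr j)⟩
  log := by
    intro a ha μ hμ h
    set v : Fin 1 ⊕ Fin n → ℂ := Sum.elim ![2 * Real.pi * Complex.I] l with hv
    have h4 := Pool.Agent.H297R2.baker_inhom v (by
      rintro (i | j)
      · have : v (Sum.inl i) = 2 * Real.pi * Complex.I := by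
          rw [hv, Sum.elim_inl]
          fin_cases i
          rfl
        rw [this, Complex.exp_two_pi_mul_I]
        exact isAlgebraic_one
      · exact hl j) hli (-(a * (perE L u l).w + μ ⬝ᵥ (perE L u l).l)) (mem_QB.1 h).neg
      (Sum.elim (fun _ => a) μ) (by
      rintro (i | j)
      · exact mem_QB.1 ha
      · exact mem_QB.1 (hμ j)) (by
      rw [Fintype.sum_sum_type]
      simp only [hv, Sum.elim_inl, Sum.elim_inr, Fin.sum_univ_one, perE, dotProduct,
        Matrix.cons_val_zero]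
      ring)
    exact ⟨h4.2 (Sum.inl 0), funext fun j => h4.2 (Sum.inr j)⟩

end Pool.Agent.TH119.MX
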