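import Mathlib
import Pool.Agent.TH119.MX.Trans

/-!
# From subgroups of the general linear group to sets of matrices
-/

namespace Pool.Agent.TH119.MX

open Finset Matrix Pool.Agent.W245.EB

/-- The inverse of a matrix with entries in a subfield. -/
theorem inv_entries {B : Type*} [Fintype B] [DecidableEq B] {K : Subfield ℂ} {A : Matrix B B ℂ}
    (hA : ∀ i j, A i j ∈ K) (i j : B) : A⁻¹ i j ∈ K := by
  set A₀ : Matrix B B K := Matrix.of fun i j => ⟨A i j, hA i j⟩ with hA₀
  have h1 : A = A₀.map K.subtype := by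
    ext i j
    rfl
  have h2 : A.adjugate = A₀.adjugate.map K.subtype := by
    rw [h1]
    exact (K.subtype.map_adjugate A₀).symm
  have h3 : A.det = K.subtype A₀.det := by
    rw [h1]
    exact (K.subtype.map_det A₀).symm
  rw [Matrix.inv_def, Matrix.smul_apply, h2, h3, smul_eq_mul, Ring.inverse_eq_inv']
  exact K.mul_mem (K.inv_mem (Subtype.mem _)) (Subtype.mem _)

variable {N B : Type} [Fintype N] [DecidableEq N] [Fintype B] [DecidableEq B]

/-- The set of matrices of a subgroup, in another indexing. -/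
def setOf' (e : B ≃ N) (H : Subgroup (GL N ℂ)) : Set (Matrix B B ℂ) :=
  {M | ∃ g ∈ H, (g : Matrix N N ℂ).submatrix e e = M}

theorem algGrp_setOf' (e : B ≃ N) {F : Subfield ℂ} {H : Subgroup (GL N ℂ)}
    (hH : ∃ I : Set (MvPolynomial (N × N) ℂ), (∀ p ∈ I, ∀ m, p.coeff m ∈ F) ∧
      ∀ g : GL N ℂ, g ∈ H ↔ ∀ p ∈ I, MvPolynomial.eval (fun b => (g : Matrix N N ℂ) b.1 b.2) p = 0) :
    AlgGrp F (setOf' e H) where
  one := ⟨1, one_mem _, by
    rw [Units.val_one, Matrix.submatrix_one_equiv]⟩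
  mul := by
    rintro _ ⟨g, hg, rfl⟩ _ ⟨h, hh, rfl⟩
    refine ⟨g * h, mul_mem hg hh, ?_⟩
    rw [Units.val_mul, Matrix.submatrix_mul_equiv]
  inv := by
    rintro _ ⟨g, hg, rfl⟩
    refine ⟨((g⁻¹ : GL N ℂ) : Matrix N N ℂ).submatrix e e, ⟨g⁻¹, inv_mem hg, rfl⟩, ?_, ?_⟩
    · rw [Matrix.submatrix_mul_equiv, ← Units.val_mul, mul_inv_cancel, Units.val_one,
        Matrix.submatrix_one_equiv]
    · rw [Matrix.submatrix_mul_equiv, ← Units.val_mul, inv_mul_cancel, Units.val_one,
        Matrix.submatrix_one_equiv]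
  alg := by
    obtain ⟨I, hI, hI2⟩ := hH
    set f : N × N → B × B := fun b => (e.symm b.1, e.symm b.2) with hf
    have hfi : Function.Injective f := by
      rintro ⟨a, b⟩ ⟨c, d⟩ h
      simpa [hf] using h
    refine ⟨MvPolynomial.rename f '' I, ?_, fun M => ⟨?_, ?_⟩⟩
    · rintro _ ⟨p, hp, rfl⟩ m
      by_cases hm : ∃ u : (N × N) →₀ ℕ, u.mapDomain f = m
      · obtain ⟨u, rfl⟩ := hm
        rw [MvPolynomial.coeff_rename_mapDomain f hfi]
        exact hI p hp u
      · rw [MvPolynomial.coeff_rename_eq_zero f p m (fun u hu => absurd ⟨u, hu⟩ hm)]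
        exact F.zero_mem
    · rintro ⟨g, hg, rfl⟩
      refine ⟨⟨((g⁻¹ : GL N ℂ) : Matrix N N ℂ).submatrix e e, ?_, ?_⟩, ?_⟩
      · rw [Matrix.submatrix_mul_equiv, ← Units.val_mul, mul_inv_cancel, Units.val_one,
          Matrix.submatrix_one_equiv]
      · rw [Matrix.submatrix_mul_equiv, ← Units.val_mul, inv_mul_cancel, Units.val_one,
          Matrix.submatrix_one_equiv]
      · rintro _ ⟨p, hp, rfl⟩
        rw [MvPolynomial.eval_rename]
        have h1 := (hI2 g).1 hg p hp
        have h5 : ((fun b : B × B => (g : Matrix N N ℂ).submatrix e e b.1 b.2) ∘ f) =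
            fun b : N × N => (g : Matrix N N ℂ) b.1 b.2 := by
          funext b
          simp [hf]
        rw [h5]
        exact h1
    · rintro ⟨⟨M', h1, h2⟩, h3⟩
      have h1' : M.submatrix e.symm e.symm * M'.submatrix e.symm e.symm = 1 := by
        rw [Matrix.submatrix_mul_equiv, h1, Matrix.submatrix_one_equiv]
      have h2' : M'.submatrix e.symm e.symm * M.submatrix e.symm e.symm = 1 := by
        rw [Matrix.submatrix_mul_equiv, h2, Matrix.submatrix_one_equiv]
      refine ⟨⟨M.submatrix e.symm e.symm, M'.submatrix e.symm e.symm, h1', h2'⟩,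
        (hI2 _).2 fun p hp => ?_, ?_⟩
      · have h4 := h3 _ ⟨p, hp, rfl⟩
        rw [MvPolynomial.eval_rename] at h4
        exact h4
      · ext i j
        simp

end Pool.Agent.TH119.MX
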