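import Mathlib
import Pool.Agent.TH119.MX.Reindex

/-!
# One-motives with a Heisenberg group as unipotent radical
-/

set_option linter.unusedSectionVars false

namespace Pool.Agent.TH119.MX

open Finset Matrix Pool.Agent.W437.HK Pool.Agent.TH119.DR

variable {T R : Type} [Fintype T] [DecidableEq T] [Fintype R] [DecidableEq R]

/-- The blocks: extension by the torus, linear part, toric part of the points, abelian part of the
points, multiplicative part. -/
abbrev LH (T R : Type) :=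
  Matrix (Fin 2) T ℂ × M2 × Matrix R T ℂ × Matrix R (Fin 2) ℂ × ℂ

/-- The index set of the bases. -/
abbrev IH (T R : Type) := T ⊕ (Fin 2 ⊕ R)

/-- The block matrices. -/
def hm (x : LH T R) (k : ℂ) : Matrix (IH T R) (IH T R) ℂ :=
  fromBlocks (x.2.2.2.2 • 1) 0 (fromRows x.1 x.2.2.1) (fromBlocks x.2.1 0 x.2.2.2.1 (k • 1))

/-- The product. -/
def hp (x y : LH T R) (k : ℂ) : LH T R :=
  (y.2.2.2.2 • x.1 + x.2.1 * y.1, x.2.1 * y.2.1,
    y.2.2.2.2 • x.2.2.1 + x.2.2.2.1 * y.1 + k • y.2.2.1,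
    x.2.2.2.1 * y.2.1 + k • y.2.2.2.1, x.2.2.2.2 * y.2.2.2.2)

theorem hm_mul (x y : LH T R) (k l : ℂ) : hm x k * hm y l = hm (hp x y k) (k * l) := by
  unfold hm hp
  rw [fromBlocks_multiply]
  congr 1
  · rw [Matrix.zero_mul, add_zero, smul_mul_smul_comm, Matrix.one_mul]
  · rw [Matrix.mul_zero, Matrix.zero_mul, add_zero]
  · rw [Matrix.mul_smul, Matrix.mul_one, fromBlocks_mul_fromRows]
    ext i j
    rcases i with i | i
    · simp
    · simp [add_assoc]
  · rw [Matrix.mul_zero, zero_add, fromBlocks_multiply]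
    congr 1
    · rw [Matrix.zero_mul, add_zero]
    · rw [Matrix.mul_zero, Matrix.zero_mul, add_zero]
    · rw [Matrix.smul_mul, Matrix.one_mul]
    · rw [Matrix.mul_zero, zero_add, smul_mul_smul_comm, Matrix.one_mul]

theorem hm_add (x y : LH T R) (k l : ℂ) : hm x k + hm y l = hm (x + y) (k + l) := by
  unfold hm
  rw [fromBlocks_add, fromBlocks_add]
  congr 1
  · rw [← add_smul]
    rfl
  · rw [add_zero]
  · ext i j
    rcases i with i | i <;> rfl
  · congr 1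
    · rw [add_zero]
    · rw [add_smul]

theorem hm_smul (a : ℂ) (x : LH T R) (k : ℂ) : a • hm x k = hm (a • x) (a * k) := by
  unfold hm
  rw [fromBlocks_smul, fromBlocks_smul]
  congr 1
  · rw [smul_smul]
    rfl
  · rw [smul_zero]
  · ext i j
    rcases i with i | i <;> rfl
  · congr 1
    · rw [smul_zero]
    · rw [smul_smul]

/-- Apply a function to all coordinates. -/
def hf (f : ℂ → ℂ) (x : LH T R) : LH T R :=
  (x.1.map f, x.2.1.map f, x.2.2.1.map f, x.2.2.2.1.map f, f x.2.2.2.2)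

theorem smul_one_map {α : Type} [DecidableEq α] {f : ℂ → ℂ} (hf : f 0 = 0) (k : ℂ) :
    ((k • (1 : Matrix α α ℂ)).map f) = f k • 1 := by
  ext i j
  rw [Matrix.map_apply, Matrix.smul_apply, Matrix.smul_apply, Matrix.one_apply]
  split_ifs
  · rw [smul_eq_mul, smul_eq_mul, mul_one, mul_one]
  · rw [smul_eq_mul, smul_eq_mul, mul_zero, mul_zero, hf]

theorem hm_map {f : ℂ → ℂ} (h0 : f 0 = 0) (x : LH T R) (k : ℂ) :
    (hm x k).map f = hm (hf f x) (f k) := by
  unfold hm hf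
  rw [fromBlocks_map, fromBlocks_map, Matrix.map_zero _ h0, Matrix.map_zero _ h0, smul_one_map h0,
    smul_one_map h0]
  congr 1
  ext i j
  rcases i with i | i <;> rfl

/-- The unit. -/
def hu : LH T R := (0, 1, 0, 0, 1)

theorem hm_one : hm (hu : LH T R) 1 = 1 := by
  unfold hm hu
  have h1 : fromRows (0 : Matrix (Fin 2) T ℂ) (0 : Matrix R T ℂ) = 0 := by
    ext i j
    rcases i with i | i <;> rfl
  simp only [one_smul]
  rw [h1, fromBlocks_one, fromBlocks_one]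

/-- The commutator. -/
def hbr (x y : LH T R) : LH T R :=
  (y.2.2.2.2 • x.1 + x.2.1 * y.1 - (x.2.2.2.2 • y.1 + y.2.1 * x.1),
    x.2.1 * y.2.1 - y.2.1 * x.2.1,
    y.2.2.2.2 • x.2.2.1 + x.2.2.2.1 * y.1 - (x.2.2.2.2 • y.2.2.1 + y.2.2.2.1 * x.1),
    x.2.2.2.1 * y.2.1 - y.2.2.2.1 * x.2.1, 0)

theorem hbr_hm (x y : LH T R) : hm x 0 * hm y 0 - hm y 0 * hm x 0 = hm (hbr x y) 0 := by
  have h1 : hm y 0 * hm x 0 = hm (hp y x 0) 0 := by rw [hm_mul, zero_mul]
  have h2 : hm x 0 * hm y 0 = hm (hp x y 0) 0 := by rw [hm_mul, zero_mul]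
  have h3 : hm (hbr x y) 0 + hm (hp y x 0) 0 = hm (hp x y 0) 0 := by
    rw [hm_add, add_zero]
    congr 1
    refine Prod.ext ?_ (Prod.ext ?_ (Prod.ext ?_ (Prod.ext ?_ ?_)))
    · exact sub_add_cancel _ _
    · exact sub_add_cancel _ _
    · change (_ - _) + (_ + _ + (0 : ℂ) • _) = _ + _ + (0 : ℂ) • _
      rw [zero_smul, zero_smul, add_zero, add_zero]
      exact sub_add_cancel _ _
    · change (_ - _) + (_ + (0 : ℂ) • _) = _ + (0 : ℂ) • _
      rw [zero_smul, zero_smul, add_zero, add_zero]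
      exact sub_add_cancel _ _
    · change 0 + y.2.2.2.2 * x.2.2.2.2 = x.2.2.2.2 * y.2.2.2.2
      ring
  rw [h1, h2, ← h3, add_sub_cancel_right]

/-- The matrix of the Weil pairing. -/
def jj : M2 := !![0, -1; 1, 0]

theorem jj_comm (a : M2) : (a.trace • (1 : M2) - aᵀ) * jj = jj * a := by
  ext i j
  fin_cases i <;> fin_cases j <;>
    simp [jj, Matrix.mul_apply, Fin.sum_univ_two, Matrix.trace_fin_two, Matrix.sub_apply,
      Matrix.smul_apply, Matrix.transpose_apply]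

theorem jj_det (a : M2) : aᵀ * jj * a = a.det • jj := by
  ext i j
  fin_cases i <;> fin_cases j <;>
    simp [jj, Matrix.mul_apply, Fin.sum_univ_two, Matrix.det_fin_two, Matrix.transpose_apply] <;>
    ring

/-- The points and the dual points. -/
noncomputable def rho (n : ℂ) : LH T R →ₗ[ℂ] LT Unit (fun _ => R ⊕ T) (Fin 0) where
  toFun x := (fun _ => x.2.1, fun _ => fromRows x.2.2.2.1 (n⁻¹ • (x.1ᵀ * jj)), x.2.2.2.2, fun _ => 0)
  map_add' x y := by
    refine Prod.ext rfl (Prod.ext (funext fun _ => ?_) (Prod.ext rfl (funext fun j => j.elim0)))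
    ext i j
    rcases i with i | i
    · rfl
    · change (n⁻¹ • ((x.1 + y.1)ᵀ * jj)) i j = (n⁻¹ • (x.1ᵀ * jj)) i j + (n⁻¹ • (y.1ᵀ * jj)) i j
      rw [Matrix.transpose_add, Matrix.add_mul, smul_add]
      rfl
  map_smul' a x := by
    refine Prod.ext rfl (Prod.ext (funext fun _ => ?_) (Prod.ext rfl (funext fun j => j.elim0)))
    ext i j
    rcases i with i | i
    · rfl
    · change (n⁻¹ • ((a • x.1)ᵀ * jj)) i j = a * (n⁻¹ • (x.1ᵀ * jj)) i j
      rw [Matrix.transpose_smul, Matrix.smul_mul, smul_comm]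
      rfl

theorem rho_br (n : ℂ) {x y : LH T R} (hx : x.2.1.trace = x.2.2.2.2)
    (hy : y.2.1.trace = y.2.2.2.2) : rho n (hbr x y) = br (rho n x) (rho n y) := by
  refine Prod.ext rfl (Prod.ext (funext fun _ => ?_) (Prod.ext rfl (funext fun j => j.elim0)))
  have h1 : ∀ {x y : LH T R}, x.2.1.trace = x.2.2.2.2 →
      (x.2.2.2.2 • y.1 - x.2.1 * y.1)ᵀ * jj = y.1ᵀ * jj * x.2.1 := by
    intro x y hx
    have h2 : (x.2.2.2.2 • y.1 - x.2.1 * y.1)ᵀ = y.1ᵀ * (x.2.1.trace • (1 : M2) - x.2.1ᵀ) := by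
      rw [Matrix.transpose_sub, Matrix.transpose_smul, Matrix.transpose_mul, Matrix.mul_sub,
        Matrix.mul_smul, Matrix.mul_one, hx]
    rw [h2, Matrix.mul_assoc, jj_comm, Matrix.mul_assoc]
  have h3 : (y.2.2.2.2 • x.1 + x.2.1 * y.1 - (x.2.2.2.2 • y.1 + y.2.1 * x.1))ᵀ * jj =
      x.1ᵀ * jj * y.2.1 - y.1ᵀ * jj * x.2.1 := by
    rw [← h1 hx (y := y), ← h1 hy (y := x), ← Matrix.sub_mul, ← Matrix.transpose_sub]
    congr 2
    abel
  ext i j
  rcases i with i | i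
  · change (x.2.2.2.1 * y.2.1 - y.2.2.2.1 * x.2.1) i j =
      (fromRows x.2.2.2.1 (n⁻¹ • (x.1ᵀ * jj)) * y.2.1 -
        fromRows y.2.2.2.1 (n⁻¹ • (y.1ᵀ * jj)) * x.2.1) (Sum.inl i) j
    rw [fromRows_mul, fromRows_mul]
    rfl
  · change (n⁻¹ • ((y.2.2.2.2 • x.1 + x.2.1 * y.1 - (x.2.2.2.2 • y.1 + y.2.1 * x.1))ᵀ * jj)) i j =
      (fromRows x.2.2.2.1 (n⁻¹ • (x.1ᵀ * jj)) * y.2.1 -
        fromRows y.2.2.2.1 (n⁻¹ • (y.1ᵀ * jj)) * x.2.1) (Sum.inr i) j
    rw [fromRows_mul, fromRows_mul, h3, smul_sub, Matrix.smul_mul, Matrix.smul_mul]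
    rfl

theorem rho_map {F : Subfield ℂ} (f : ℂ →ₗ[F] ℂ) {n : ℂ} (hn : n ∈ F) (x : LH T R) :
    rho n (hf f x) = mp f (rho n x) := by
  refine Prod.ext rfl (Prod.ext (funext fun _ => ?_) (Prod.ext rfl (funext fun j => j.elim0)))
  ext i j
  rcases i with i | i
  · rfl
  · change (n⁻¹ • ((x.1.map f)ᵀ * jj)) i j = f ((n⁻¹ • (x.1ᵀ * jj)) i j)
    rw [Matrix.smul_apply, Matrix.smul_apply, smul_eq_mul, smul_eq_mul,
      lin_mul f (F.inv_mem hn)]
    congr 1
    fin_cases j <;> simp [jj, Matrix.mul_apply, Fin.sum_univ_two]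

/-- The inverse of `jj`. -/
def jj' : M2 := !![0, 1; -1, 0]

theorem jj'_jj : jj' * jj = 1 := by
  ext i j
  fin_cases i <;> fin_cases j <;> simp [jj, jj', Matrix.mul_apply, Fin.sum_univ_two]

/-- The derivative of a product. -/
theorem map_mul_der {α β γ : Type*} [Fintype β] (δ : Derivation ℚ ℂ ℂ) (A : Matrix α β ℂ)
    (B : Matrix β γ ℂ) : (A * B).map δ = A.map δ * B + A * B.map δ := by
  ext i j
  rw [Matrix.map_apply, Matrix.mul_apply, map_sum, Matrix.add_apply, Matrix.mul_apply,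
    Matrix.mul_apply, ← Finset.sum_add_distrib]
  refine Finset.sum_congr rfl fun k _ => ?_
  rw [Derivation.leibniz, Matrix.map_apply, Matrix.map_apply, smul_eq_mul, smul_eq_mul]
  ring

variable (D : Per Unit (fun _ => R ⊕ T) (Fin 0))

/-- The dual points. -/
def vv : Matrix T (Fin 2) ℂ := (D.U ()).submatrix Sum.inr id

/-- The points. -/
def uu : Matrix R (Fin 2) ℂ := (D.U ()).submatrix Sum.inl id

theorem rows_eq : fromRows (uu D) (vv D) = D.U () := by
  ext i j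
  rcases i with i | i <;> rfl

/-- The dual points, as columns. -/
def nn : Matrix (Fin 2) T ℂ := (vv D * jj')ᵀ

theorem nn_jj : (nn D)ᵀ * jj = vv D := by
  unfold nn
  rw [Matrix.transpose_transpose, Matrix.mul_assoc, jj'_jj, Matrix.mul_one]

/-- The periods. -/
def pH (c : Matrix R T ℂ) : LH T R := (D.P () * nn D, D.P (), c, uu D, D.w)

/-- The inverse. -/
noncomputable def pH' (c : Matrix R T ℂ) : LH T R :=
  (-(D.w⁻¹ • nn D), D.P' (), D.w⁻¹ • (uu D * nn D - c), -(uu D * D.P' ()), D.w⁻¹)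

variable (c : Matrix R T ℂ)

theorem hp_pH : hp (pH D c) (pH' D c) 1 = hu := by
  refine Prod.ext ?_ (Prod.ext ?_ (Prod.ext ?_ (Prod.ext ?_ ?_)))
  · change D.w⁻¹ • (D.P () * nn D) + D.P () * (-(D.w⁻¹ • nn D)) = 0
    rw [Matrix.mul_neg, Matrix.mul_smul, add_neg_cancel]
  · exact D.PP' ()
  · change D.w⁻¹ • c + uu D * (-(D.w⁻¹ • nn D)) + (1 : ℂ) • (D.w⁻¹ • (uu D * nn D - c)) = 0
    rw [Matrix.mul_neg, Matrix.mul_smul, one_smul, smul_sub]
    abel
  · change uu D * D.P' () + (1 : ℂ) • (-(uu D * D.P' ())) = 0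
    rw [one_smul, add_neg_cancel]
  · change D.w * D.w⁻¹ = 1
    exact mul_inv_cancel₀ D.w0

theorem hp_pH' : hp (pH' D c) (pH D c) 1 = hu := by
  refine Prod.ext ?_ (Prod.ext ?_ (Prod.ext ?_ (Prod.ext ?_ ?_)))
  · change D.w • (-(D.w⁻¹ • nn D)) + D.P' () * (D.P () * nn D) = 0
    rw [← Matrix.mul_assoc, D.P'P, Matrix.one_mul, smul_neg, smul_smul, mul_inv_cancel₀ D.w0,
      one_smul, neg_add_cancel]
  · exact D.P'P ()
  · change D.w • (D.w⁻¹ • (uu D * nn D - c)) + (-(uu D * D.P' ())) * (D.P () * nn D) +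
      (1 : ℂ) • c = 0
    rw [Matrix.neg_mul, Matrix.mul_assoc, ← Matrix.mul_assoc (D.P' ()), D.P'P, Matrix.one_mul,
      smul_smul, mul_inv_cancel₀ D.w0, one_smul, one_smul]
    abel
  · change -(uu D * D.P' ()) * D.P () + (1 : ℂ) • uu D = 0
    rw [Matrix.neg_mul, Matrix.mul_assoc, D.P'P, Matrix.mul_one, one_smul, neg_add_cancel]
  · change D.w⁻¹ * D.w = 1
    exact inv_mul_cancel₀ D.w0

theorem hm_pH : hm (pH D c) 1 * hm (pH' D c) 1 = 1 := by
  rw [hm_mul, hp_pH, mul_one, hm_one]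

theorem hm_pH' : hm (pH' D c) 1 * hm (pH D c) 1 = 1 := by
  rw [hm_mul, hp_pH', mul_one, hm_one]

/-- From the Betti side to the de Rham side. -/
noncomputable def kapH (x : LH T R) : LH T R := hp (hp (pH' D c) x 1) (pH D c) 0

/-- From the de Rham side to the Betti side. -/
noncomputable def kapHi (y : LH T R) : LH T R := hp (hp (pH D c) y 1) (pH' D c) 0

theorem hm_kapH (x : LH T R) : hm (pH' D c) 1 * hm x 0 * hm (pH D c) 1 = hm (kapH D c x) 0 := by
  rw [hm_mul, hm_mul]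
  simp [kapH]

theorem hm_kapHi (x : LH T R) :
    hm (pH D c) 1 * hm x 0 * hm (pH' D c) 1 = hm (kapHi D c x) 0 := by
  rw [hm_mul, hm_mul]
  simp [kapHi]

variable {D} {n : ℂ}

theorem jj_PT (hdet : (D.P ()).det = n * D.w) : (D.P ())ᵀ * jj = (n * D.w) • (jj * D.P' ()) := by
  rw [← Matrix.smul_mul, ← hdet, ← jj_det, Matrix.mul_assoc, D.PP', Matrix.mul_one]

theorem jj_P (hdet : (D.P ()).det = n * D.w) : jj * D.P () = (n * D.w) • ((D.P' ())ᵀ * jj) := by
  have h1 : (D.P' ())ᵀ * (D.P ())ᵀ = 1 := by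
    rw [← Matrix.transpose_mul, D.PP', Matrix.transpose_one]
  calc jj * D.P () = (D.P' ())ᵀ * (D.P ())ᵀ * jj * D.P () := by rw [h1, Matrix.one_mul]
    _ = (D.P' ())ᵀ * ((D.P ())ᵀ * jj * D.P ()) := by simp only [Matrix.mul_assoc]
    _ = _ := by rw [jj_det, hdet, Matrix.mul_smul]

theorem kapH_alpha (x : LH T R) : (kapH D c x).2.1 = D.P' () * x.2.1 * D.P () := rfl

theorem kapH_tau (x : LH T R) : (kapH D c x).2.2.2.2 = x.2.2.2.2 := by
  change D.w⁻¹ * x.2.2.2.2 * D.w = _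
  have := D.w0
  field_simp

theorem kapHi_alpha (x : LH T R) : (kapHi D c x).2.1 = D.P () * x.2.1 * D.P' () := rfl

theorem kapHi_tau (x : LH T R) : (kapHi D c x).2.2.2.2 = x.2.2.2.2 := by
  change D.w * x.2.2.2.2 * D.w⁻¹ = _
  have := D.w0
  field_simp

theorem rho_kapH (hdet : (D.P ()).det = n * D.w) (hn : n ≠ 0) {x : LH T R}
    (hx : x.2.1.trace = x.2.2.2.2) : rho 1 (kapH D c x) = kap D (rho n x) := by
  refine Prod.ext rfl (Prod.ext (funext fun _ => ?_) (Prod.ext (kapH_tau c x)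
    (funext fun j => j.elim0)))
  have htr : (D.P' () * x.2.1 * D.P ()).trace = x.2.2.2.2 := by
    rw [Matrix.trace_mul_comm, ← Matrix.mul_assoc, D.PP', Matrix.one_mul, hx]
  have h1 : (kapH D c x).1 = D.w • (x.2.2.2.2 • (-(D.w⁻¹ • nn D)) + D.P' () * x.1) +
      D.P' () * x.2.1 * (D.P () * nn D) := rfl
  have h2 : (kapH D c x).1 = D.w • (D.P' () * x.1) -
      ((D.P' () * x.2.1 * D.P ()).trace • (1 : M2) - D.P' () * x.2.1 * D.P ()) * nn D := by
    rw [h1, htr, Matrix.sub_mul, Matrix.smul_mul, Matrix.one_mul, smul_add, smul_neg, smul_neg,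
      smul_comm x.2.2.2.2, smul_smul D.w, mul_inv_cancel₀ D.w0, one_smul, ← Matrix.mul_assoc]
    abel
  have h3 : (kapH D c x).1ᵀ * jj = n⁻¹ • (x.1ᵀ * jj) * D.P () -
      vv D * (D.P' () * x.2.1 * D.P ()) := by
    rw [h2, Matrix.transpose_sub, Matrix.transpose_mul, Matrix.transpose_smul,
      Matrix.transpose_mul, Matrix.sub_mul, Matrix.mul_assoc, Matrix.transpose_sub,
      Matrix.transpose_smul, Matrix.transpose_one, jj_comm, ← Matrix.mul_assoc, nn_jj]
    congr 1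
    rw [Matrix.smul_mul n⁻¹, Matrix.mul_assoc x.1ᵀ jj, jj_P hdet, Matrix.mul_smul, smul_smul,
      Matrix.smul_mul, Matrix.mul_assoc]
    congr 1
    field_simp
  have h4 : (kapH D c x).2.2.2.1 = (-(uu D * D.P' ()) * x.2.1 + (1 : ℂ) • x.2.2.2.1) * D.P () +
      (0 : ℂ) • uu D := rfl
  ext i j
  rcases i with i | i
  · change (kapH D c x).2.2.2.1 i j = (fromRows x.2.2.2.1 (n⁻¹ • (x.1ᵀ * jj)) * D.P () -
      D.U () * (D.P' () * x.2.1 * D.P ())) (Sum.inl i) j
    rw [← rows_eq, fromRows_mul, fromRows_mul, h4]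
    change _ = (x.2.2.2.1 * D.P ()) i j - (uu D * (D.P' () * x.2.1 * D.P ())) i j
    rw [one_smul, zero_smul, add_zero, Matrix.add_mul, Matrix.neg_mul, Matrix.neg_mul,
      neg_add_eq_sub, Matrix.sub_apply]
    simp only [Matrix.mul_assoc]
  · change ((1 : ℂ)⁻¹ • ((kapH D c x).1ᵀ * jj)) i j =
      (fromRows x.2.2.2.1 (n⁻¹ • (x.1ᵀ * jj)) * D.P () -
      D.U () * (D.P' () * x.2.1 * D.P ())) (Sum.inr i) j
    rw [← rows_eq, fromRows_mul, fromRows_mul, inv_one, one_smul, h3]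
    rfl

theorem kapi_kap (x : LT Unit (fun _ => R ⊕ T) (Fin 0)) : kapi D (kap D x) = x := by
  refine Prod.ext (funext fun u => ?_) (Prod.ext (funext fun u => ?_) (Prod.ext rfl
    (funext fun j => j.elim0)))
  · change D.P u * (D.P' u * x.1 u * D.P u) * D.P' u = x.1 u
    calc D.P u * (D.P' u * x.1 u * D.P u) * D.P' u =
        (D.P u * D.P' u) * x.1 u * (D.P u * D.P' u) := by simp only [Matrix.mul_assoc]
      _ = x.1 u := by rw [D.PP', Matrix.one_mul, Matrix.mul_one]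
  · change (x.2.1 u * D.P u - D.U u * (D.P' u * x.1 u * D.P u) +
      D.U u * (D.P' u * x.1 u * D.P u)) * D.P' u = x.2.1 u
    rw [sub_add_cancel, Matrix.mul_assoc, D.PP', Matrix.mul_one]

theorem hp_assoc (x y z : LH T R) (k l : ℂ) : hp (hp x y k) z (k * l) = hp x (hp y z l) k := by
  refine Prod.ext ?_ (Prod.ext ?_ (Prod.ext ?_ (Prod.ext ?_ ?_)))
  · change z.2.2.2.2 • (y.2.2.2.2 • x.1 + x.2.1 * y.1) + x.2.1 * y.2.1 * z.1 =
      (y.2.2.2.2 * z.2.2.2.2) • x.1 + x.2.1 * (z.2.2.2.2 • y.1 + y.2.1 * z.1)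
    rw [smul_add, smul_smul, Matrix.mul_add, Matrix.mul_smul, Matrix.mul_assoc,
      mul_comm z.2.2.2.2, add_assoc]
  · exact Matrix.mul_assoc _ _ _
  · change z.2.2.2.2 • (y.2.2.2.2 • x.2.2.1 + x.2.2.2.1 * y.1 + k • y.2.2.1) +
        (x.2.2.2.1 * y.2.1 + k • y.2.2.2.1) * z.1 + (k * l) • z.2.2.1 =
      (y.2.2.2.2 * z.2.2.2.2) • x.2.2.1 + x.2.2.2.1 * (z.2.2.2.2 • y.1 + y.2.1 * z.1) +
        k • (z.2.2.2.2 • y.2.2.1 + y.2.2.2.1 * z.1 + l • z.2.2.1)
    rw [Matrix.add_mul, Matrix.smul_mul, Matrix.mul_add, Matrix.mul_smul, Matrix.mul_assoc]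
    simp only [smul_add, smul_smul]
    rw [mul_comm z.2.2.2.2, mul_comm z.2.2.2.2]
    abel
  · change (x.2.2.2.1 * y.2.1 + k • y.2.2.2.1) * z.2.1 + (k * l) • z.2.2.2.1 =
      x.2.2.2.1 * (y.2.1 * z.2.1) + k • (y.2.2.2.1 * z.2.1 + l • z.2.2.2.1)
    rw [Matrix.add_mul, Matrix.smul_mul, Matrix.mul_assoc, smul_add, smul_smul, add_assoc]
  · exact mul_assoc _ _ _

theorem hp_hu_left (x : LH T R) : hp hu x 1 = x := by
  refine Prod.ext ?_ (Prod.ext ?_ (Prod.ext ?_ (Prod.ext ?_ ?_)))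
  · change x.2.2.2.2 • (0 : Matrix (Fin 2) T ℂ) + (1 : M2) * x.1 = x.1
    rw [smul_zero, zero_add, Matrix.one_mul]
  · exact Matrix.one_mul _
  · change x.2.2.2.2 • (0 : Matrix R T ℂ) + (0 : Matrix R (Fin 2) ℂ) * x.1 + (1 : ℂ) • x.2.2.1 = _
    rw [smul_zero, zero_add, Matrix.zero_mul, zero_add, one_smul]
  · change (0 : Matrix R (Fin 2) ℂ) * x.2.1 + (1 : ℂ) • x.2.2.2.1 = _
    rw [Matrix.zero_mul, zero_add, one_smul]
  · exact one_mul _

theorem hp_hu_right (x : LH T R) : hp x hu 0 = x := by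
  refine Prod.ext ?_ (Prod.ext ?_ (Prod.ext ?_ (Prod.ext ?_ ?_)))
  · change (1 : ℂ) • x.1 + x.2.1 * 0 = x.1
    rw [Matrix.mul_zero, add_zero, one_smul]
  · exact Matrix.mul_one _
  · change (1 : ℂ) • x.2.2.1 + x.2.2.2.1 * 0 + (0 : ℂ) • (0 : Matrix R T ℂ) = _
    rw [Matrix.mul_zero, smul_zero, add_zero, add_zero, one_smul]
  · change x.2.2.2.1 * 1 + (0 : ℂ) • (0 : Matrix R (Fin 2) ℂ) = _
    rw [Matrix.mul_one, smul_zero, add_zero]
  · exact mul_one _

theorem kapH_kapHi (y : LH T R) : kapH D c (kapHi D c y) = y := by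
  have h1 : kapHi D c y = hp (pH D c) (hp y (pH' D c) 0) 1 := by
    have := hp_assoc (pH D c) y (pH' D c) 1 0
    rwa [mul_zero] at this
  have h2 : hp (pH' D c) (hp (pH D c) (hp y (pH' D c) 0) 1) 1 = hp y (pH' D c) 0 := by
    have := hp_assoc (pH' D c) (pH D c) (hp y (pH' D c) 0) 1 1
    rw [mul_one, hp_pH', hp_hu_left] at this
    exact this.symm
  have h3 : hp (hp y (pH' D c) 0) (pH D c) 0 = y := by
    have := hp_assoc y (pH' D c) (pH D c) 0 1
    rw [zero_mul, hp_pH', hp_hu_right] at this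
    exact this
  rw [h1]
  unfold kapH
  rw [h2, h3]

theorem rho_kapHi (hdet : (D.P ()).det = n * D.w) (hn : n ≠ 0) {y : LH T R}
    (hy : y.2.1.trace = y.2.2.2.2) : rho n (kapHi D c y) = kapi D (rho 1 y) := by
  have h1 : (kapHi D c y).2.1.trace = (kapHi D c y).2.2.2.2 := by
    rw [kapHi_alpha, kapHi_tau, Matrix.trace_mul_comm, ← Matrix.mul_assoc, D.P'P, Matrix.one_mul,
      hy]
  have h2 := rho_kapH c hdet hn h1
  rw [kapH_kapHi] at h2
  rw [h2, kapi_kap]

/-- The logarithmic derivative of the period matrix. -/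
noncomputable def derH (D : Per Unit (fun _ => R ⊕ T) (Fin 0)) (c : Matrix R T ℂ)
    (δ : Derivation ℚ ℂ ℂ) : LH T R := hp (hf δ (pH D c)) (pH' D c) 0

theorem hm_derH (δ : Derivation ℚ ℂ ℂ) :
    (hm (pH D c) 1).map δ * hm (pH' D c) 1 = hm (derH D c δ) 0 := by
  rw [hm_map (map_zero δ), Derivation.map_one_eq_zero, hm_mul, zero_mul]
  rfl

theorem derH_alpha (δ : Derivation ℚ ℂ ℂ) : (derH D c δ).2.1 = (D.P ()).map δ * D.P' () := rfl

theorem derH_tau (δ : Derivation ℚ ℂ ℂ) : (derH D c δ).2.2.2.2 = δ D.w / D.w := rfl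

theorem rho_derH (hdet : (D.P ()).det = n * D.w) (hn : n ≠ 0) (δ : Derivation ℚ ℂ ℂ) :
    rho n (derH D c δ) = lam D δ := by
  refine Prod.ext rfl (Prod.ext (funext fun _ => ?_) (Prod.ext rfl (funext fun j => j.elim0)))
  have h1 : (derH D c δ).1 = D.w⁻¹ • (D.P () * nn D).map δ +
      (D.P ()).map δ * (-(D.w⁻¹ • nn D)) := rfl
  have h2 : (derH D c δ).1 = D.w⁻¹ • (D.P () * (nn D).map δ) := by
    rw [h1, map_mul_der, Matrix.mul_neg, Matrix.mul_smul, smul_add]
    abel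
  have h3 : ((nn D).map δ)ᵀ * jj = (vv D).map δ := by
    rw [← nn_jj, map_mul_der]
    have h4 : jj.map δ = 0 := by
      ext i j
      fin_cases i <;> fin_cases j <;> simp [jj]
    rw [h4, Matrix.mul_zero, add_zero]
    rfl
  have h5 : n⁻¹ • ((derH D c δ).1ᵀ * jj) = (vv D).map δ * D.P' () := by
    rw [h2, Matrix.transpose_smul, Matrix.transpose_mul, Matrix.smul_mul, Matrix.mul_assoc,
      jj_PT hdet, Matrix.mul_smul, ← Matrix.mul_assoc, h3, smul_smul, smul_smul]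
    have h6 : n⁻¹ * (D.w⁻¹ * (n * D.w)) = 1 := by
      have := D.w0
      field_simp
    rw [mul_assoc n⁻¹, h6, one_smul]
  ext i j
  rcases i with i | i
  · change ((uu D).map δ * D.P' () + (0 : ℂ) • (-(uu D * D.P' ()))) i j =
      ((D.U ()).map δ * D.P' ()) (Sum.inl i) j
    rw [zero_smul, add_zero]
    rfl
  · change (n⁻¹ • ((derH D c δ).1ᵀ * jj)) i j = ((D.U ()).map δ * D.P' ()) (Sum.inr i) j
    rw [h5]
    rfl

variable {F K : Subfield ℂ} {H : Set (Matrix (IH T R) (IH T R) ℂ)}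
  {A A' : Matrix (IH T R) (IH T R) ℂ}

/-- The stabilizer, as a space of elements of the Lie algebra. -/
def SH (H : Set (Matrix (IH T R) (IH T R) ℂ)) (d : ℕ) : Submodule ℂ (LH T R) where
  carrier := {x | x.2.1.trace = x.2.2.2.2 ∧ Stab H d (hm x 0)}
  zero_mem' := by
    refine ⟨Matrix.trace_zero _ _, ?_⟩
    have h1 := hm_smul 0 (0 : LH T R) 0
    rw [zero_smul, zero_smul, mul_zero] at h1
    rw [← h1]
    exact Stab.zero
  add_mem' := by
    rintro x y ⟨h1, h2⟩ ⟨h3, h4⟩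
    refine ⟨?_, ?_⟩
    · change (x.2.1 + y.2.1).trace = x.2.2.2.2 + y.2.2.2.2
      rw [Matrix.trace_add, h1, h3]
    · have h5 := hm_add x y 0 0
      rw [add_zero] at h5
      rw [← h5]
      exact h2.add h4
  smul_mem' := by
    rintro a x ⟨h1, h2⟩
    refine ⟨?_, ?_⟩
    · change (a • x.2.1).trace = a * x.2.2.2.2
      rw [Matrix.trace_smul, h1, smul_eq_mul]
    · have h5 := hm_smul a x 0
      rw [mul_zero] at h5
      rw [← h5]
      exact h2.smul a

theorem SH_br {d : ℕ} {x y : LH T R} (hx : x ∈ SH H d) (hy : y ∈ SH H d) : hbr x y ∈ SH H d := by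
  refine ⟨?_, ?_⟩
  · change (x.2.1 * y.2.1 - y.2.1 * x.2.1).trace = 0
    rw [Matrix.trace_sub, Matrix.trace_mul_comm, sub_self]
  · rw [← hbr_hm]
    exact hx.2.comm hy.2

theorem good_SH (hH : AlgGrp F H) (hFK : F ≤ K) (hKA : ∀ x ∈ K, IsAlgebraic ℚ x)
    (hdet : (D.P ()).det = n * D.w) (hnF : n ∈ F)
    (hA : A * A' = 1) (hA' : ∀ i j, A' i j ∈ K) (hPA : hm (pH D c) 1 * A ∈ H) (d : ℕ) :
    Good D F K ((SH H d).map (rho n)) := by
  have hn : n ≠ 0 := by
    rintro rfl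
    rw [zero_mul] at hdet
    have h2 := congrArg Matrix.det (D.PP' ())
    rw [Matrix.det_mul, hdet, zero_mul, Matrix.det_one] at h2
    exact zero_ne_one h2
  constructor
  · rintro _ ⟨x, hx, rfl⟩ _
    exact hx.1
  · rintro _ ⟨x, hx, rfl⟩ _ ⟨y, hy, rfl⟩
    exact ⟨hbr x y, SH_br hx hy, rho_br n hx.1 hy.1⟩
  · rintro f _ ⟨x, hx, rfl⟩
    refine ⟨hf f x, ⟨?_, ?_⟩, rho_map f hnF x⟩
    · change (x.2.1.map f).trace = f x.2.2.2.2
      rw [← hx.1, Matrix.trace_fin_two, Matrix.trace_fin_two, map_add]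
      rfl
    · have h1 := hH.stab_map f hx.2
      rwa [hm_map (map_zero f), map_zero] at h1
  · rintro f _ ⟨x, hx, rfl⟩
    have htr : (D.P' () * x.2.1 * D.P ()).trace = x.2.2.2.2 := by
      rw [Matrix.trace_mul_comm, ← Matrix.mul_assoc, D.PP', Matrix.one_mul, hx.1]
    have hy : (hf f (kapH D c x)).2.1.trace = (hf f (kapH D c x)).2.2.2.2 := by
      change ((D.P' () * x.2.1 * D.P ()).map f).trace = f (kapH D c x).2.2.2.2
      rw [kapH_tau, ← htr, Matrix.trace_fin_two, Matrix.trace_fin_two, map_add]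
      rfl
    refine ⟨kapHi D c (hf f (kapH D c x)), ⟨?_, ?_⟩, ?_⟩
    · rw [kapHi_alpha, kapHi_tau, Matrix.trace_mul_comm, ← Matrix.mul_assoc, D.P'P,
        Matrix.one_mul, hy]
    · have h1 := hH.stab_map' hFK (hm_pH D c) (hm_pH' D c) hA hA' hPA f hx.2
      rwa [hm_kapH, hm_map (map_zero f), map_zero, hm_kapHi] at h1
    · rw [rho_kapHi c hdet hn hy, rho_map f K.one_mem, rho_kapH c hdet hn hx.1]
  · intro δ
    refine ⟨derH D c δ, ⟨?_, ?_⟩, rho_derH c hdet hn δ⟩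
    · rw [derH_alpha, derH_tau]
      have h1 := tr_der δ (D.P'P ())
      rw [hdet, Derivation.leibniz, deriv_alg δ (hKA _ (hFK hnF)), smul_zero, add_zero,
        smul_eq_mul] at h1
      rw [eq_div_iff D.w0]
      have h2 : n * (((D.P ()).map δ * D.P' ()).trace * D.w) = n * δ D.w := by
        rw [← h1]
        ring
      exact mul_left_cancel₀ hn h2
    · rw [← hm_derH]
      exact hH.stab_der hFK hKA (hm_pH D c) (hm_pH' D c) hA hA' hPA δ

/-- The stabilizer is the whole Lie algebra. -/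
theorem SH_all {d : ℕ} (hall : ∀ y : LT Unit (fun _ => R ⊕ T) (Fin 0),
    (∀ u, (y.1 u).trace = y.2.2.1) → y ∈ (SH H d).map (rho n)) (hn : n ≠ 0) {x : LH T R}
    (hx : x.2.1.trace = x.2.2.2.2) : x ∈ SH H d := by
  -- lifting
  have key : ∀ (β : Matrix (Fin 2) T ℂ) (α : M2) (δ : Matrix R (Fin 2) ℂ),
      ∃ γ, ((β, α, γ, δ, α.trace) : LH T R) ∈ SH H d := by
    intro β α δ
    obtain ⟨y, hy, hy2⟩ := hall (rho n (β, α, 0, δ, α.trace)) (fun _ => rfl)
    refine ⟨y.2.2.1, ?_⟩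
    have h1 : y.2.1 = α := congrFun (congrArg Prod.fst hy2) ()
    have h2 : fromRows y.2.2.2.1 (n⁻¹ • (y.1ᵀ * jj)) = fromRows δ (n⁻¹ • (βᵀ * jj)) :=
      congrFun (congrArg (fun z => z.2.1) hy2) ()
    have h3 : y.2.2.2.2 = α.trace := congrArg (fun z => z.2.2.1) hy2
    obtain ⟨h4, h5⟩ := (fromRows_ext_iff _ _ _ _).1 h2
    have h6 : y.1 = β := by
      have h7 : y.1ᵀ * jj = βᵀ * jj := by
        have := congrArg (fun M => n • M) h5
        simpa only [smul_smul, mul_inv_cancel₀ hn, one_smul] using this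
      have h8 : y.1ᵀ = βᵀ := by
        have h9 : jj * jj' = 1 := mul_eq_one_comm.1 jj'_jj
        calc y.1ᵀ = y.1ᵀ * jj * jj' := by rw [Matrix.mul_assoc, h9, Matrix.mul_one]
          _ = βᵀ := by rw [h7, Matrix.mul_assoc, h9, Matrix.mul_one]
      rw [← Matrix.transpose_transpose y.1, h8, Matrix.transpose_transpose]
    have h7 : y = (β, α, y.2.2.1, δ, α.trace) :=
      Prod.ext h6 (Prod.ext h1 (Prod.ext rfl (Prod.ext h4 h3)))
    rwa [h7] at hy
  -- the toric part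
  have hγ1 : ∀ (β : Matrix (Fin 2) T ℂ) (δ : Matrix R (Fin 2) ℂ),
      ((0, 0, δ * β, 0, 0) : LH T R) ∈ SH H d := by
    intro β δ
    obtain ⟨γ₁, h1⟩ := key 0 0 δ
    obtain ⟨γ₂, h2⟩ := key β 0 0
    rw [Matrix.trace_zero] at h1 h2
    refine (congrArg (· ∈ SH H d) ?_).mp (SH_br h1 h2)
    refine Prod.ext ?_ (Prod.ext ?_ (Prod.ext ?_ (Prod.ext ?_ rfl)))
    · change (0 : ℂ) • (0 : Matrix (Fin 2) T ℂ) + (0 : M2) * β - ((0 : ℂ) • β + (0 : M2) * 0) = 0
      simp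
    · change (0 : M2) * 0 - 0 * 0 = 0
      simp
    · change (0 : ℂ) • γ₁ + δ * β - ((0 : ℂ) • γ₂ + (0 : Matrix R (Fin 2) ℂ) * 0) = δ * β
      simp
    · change δ * (0 : M2) - (0 : Matrix R (Fin 2) ℂ) * (0 : M2) = 0
      simp
  have hγ : ∀ γ : Matrix R T ℂ, ((0, 0, γ, 0, 0) : LH T R) ∈ SH H d := by
    intro γ
    have h1 : ∀ j k, ((0, 0, Matrix.single j k (γ j k), 0, 0) : LH T R) ∈ SH H d := by
      intro j k
      have h2 := hγ1 (Matrix.single 0 k (1 : ℂ)) (Matrix.single j 0 (γ j k))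
      rwa [Matrix.single_mul_single_same, mul_one] at h2
    have h2 : ((0, 0, γ, 0, 0) : LH T R) = ∑ j, ∑ k, (0, 0, Matrix.single j k (γ j k), 0, 0) := by
      have h3 : ∀ (f : R → T → Matrix R T ℂ), ∑ j, ∑ k, ((0, 0, f j k, 0, 0) : LH T R) =
          (0, 0, ∑ j, ∑ k, f j k, 0, 0) := by
        intro f
        let g : Matrix R T ℂ →+ LH T R :=
          { toFun := fun m => (0, 0, m, 0, 0)
            map_zero' := rfl
            map_add' := fun a b => by
              simp only [Prod.mk_add_mk, add_zero] }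
        have h4 : g (∑ j, ∑ k, f j k) = ∑ j, ∑ k, g (f j k) := by
          rw [map_sum]
          exact Finset.sum_congr rfl fun j _ => map_sum g _ _
        exact h4.symm
      rw [h3, ← Matrix.matrix_eq_sum_single γ]
    rw [h2]
    exact (SH H d).sum_mem fun j _ => (SH H d).sum_mem fun k _ => h1 j k
  obtain ⟨γ, h1⟩ := key x.1 x.2.1 x.2.2.2.1
  have h2 := (SH H d).add_mem h1 (hγ (x.2.2.1 - γ))
  refine (congrArg (· ∈ SH H d) ?_).mp h2
  refine Prod.ext ?_ (Prod.ext ?_ (Prod.ext ?_ (Prod.ext ?_ ?_)))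
  · exact add_zero _
  · exact add_zero _
  · change γ + (x.2.2.1 - γ) = x.2.2.1
    rw [add_sub_cancel]
  · exact add_zero _
  · change x.2.1.trace + 0 = x.2.2.2.2
    rw [add_zero, hx]

/-! ### Generation of the group -/

section gen

variable (hst : ∀ x : LH T R, x.2.1.trace = x.2.2.2.2 → ∀ d, Stab H d (hm x 0))

include hst

theorem presH_one (x : LH T R) (hx : x.2.1.trace = x.2.2.2.2) {ε : ℂ}
    (h : hp x x 0 = ε • x) (s : ℂ) : Pres H (hm (hu + s • x) 1) := by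
  have h1 : hm x 0 * hm x 0 = ε • hm x 0 := by
    rw [hm_mul, hm_smul, h, mul_zero, mul_zero]
  have h2 := pres_of_stab h1 (hst x hx) s
  rwa [← hm_one, hm_smul, hm_add, mul_zero, add_zero] at h2

/-- Unipotent elements, first kind. -/
theorem presH_unip₁ (c : Matrix R T ℂ) (e : Matrix R (Fin 2) ℂ) :
    Pres H (hm ((0, 1, c, e, 1) : LH T R) 1) := by
  have h1 := presH_one hst ((0, 0, c, e, 0) : LH T R) (Matrix.trace_zero _ _) (ε := 0) ?_ 1
  · refine (congrArg (fun x => Pres H (hm x 1)) ?_).mp h1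
    rw [one_smul]
    refine Prod.ext ?_ (Prod.ext ?_ (Prod.ext ?_ (Prod.ext ?_ ?_)))
    · exact add_zero _
    · exact add_zero _
    · exact zero_add _
    · exact zero_add _
    · exact add_zero _
  · refine Prod.ext ?_ (Prod.ext ?_ (Prod.ext ?_ (Prod.ext ?_ ?_))) <;> simp [hp]

/-- Unipotent elements, second kind. -/
theorem presH_unip₂ (b : Matrix (Fin 2) T ℂ) :
    Pres H (hm ((b, 1, 0, 0, 1) : LH T R) 1) := by
  have h1 := presH_one hst ((b, 0, 0, 0, 0) : LH T R) (Matrix.trace_zero _ _) (ε := 0) ?_ 1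
  · refine (congrArg (fun x => Pres H (hm x 1)) ?_).mp h1
    rw [one_smul]
    refine Prod.ext ?_ (Prod.ext ?_ (Prod.ext ?_ (Prod.ext ?_ ?_)))
    · exact zero_add _
    · exact add_zero _
    · exact add_zero _
    · exact add_zero _
    · exact add_zero _
  · refine Prod.ext ?_ (Prod.ext ?_ (Prod.ext ?_ (Prod.ext ?_ ?_))) <;> simp [hp]

/-- Elementary matrices. -/
theorem presH_elem {N : M2} (hN : N * N = 0) (htr : N.trace = 0) :
    Pres H (hm ((0, 1 + N, 0, 0, 1) : LH T R) 1) := by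
  have h1 := presH_one hst ((0, N, 0, 0, 0) : LH T R) htr (ε := 0) ?_ 1
  · refine (congrArg (fun x => Pres H (hm x 1)) ?_).mp h1
    rw [one_smul]
    refine Prod.ext ?_ (Prod.ext ?_ (Prod.ext ?_ (Prod.ext ?_ ?_)))
    · exact add_zero _
    · rfl
    · exact add_zero _
    · exact add_zero _
    · exact add_zero _
  · refine Prod.ext ?_ (Prod.ext ?_ (Prod.ext ?_ (Prod.ext ?_ ?_))) <;> simp [hp, hN]

/-- The torus. -/
theorem presH_torus (s : ℂ) : Pres H (hm ((0, !![s, 0; 0, 1], 0, 0, s) : LH T R) 1) := by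
  have h1 := presH_one hst ((0, !![1, 0; 0, 0], 0, 0, 1) : LH T R)
    (by simp [Matrix.trace_fin_two]) (ε := 1) ?_ (s - 1)
  · refine (congrArg (fun x => Pres H (hm x 1)) ?_).mp h1
    refine Prod.ext ?_ (Prod.ext ?_ (Prod.ext ?_ (Prod.ext ?_ ?_)))
    · change (0 : Matrix (Fin 2) T ℂ) + (s - 1) • (0 : Matrix (Fin 2) T ℂ) = 0
      simp
    · change (1 : M2) + (s - 1) • (!![1, 0; 0, 0] : M2) = !![s, 0; 0, 1]
      ext i j
      fin_cases i <;> fin_cases j <;> simp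
    · change (0 : Matrix R T ℂ) + (s - 1) • (0 : Matrix R T ℂ) = 0
      simp
    · change (0 : Matrix R (Fin 2) ℂ) + (s - 1) • (0 : Matrix R (Fin 2) ℂ) = 0
      simp
    · change (1 : ℂ) + (s - 1) * 1 = s
      ring
  · refine Prod.ext ?_ (Prod.ext ?_ (Prod.ext ?_ (Prod.ext ?_ ?_)))
    · simp [hp]
    · change (!![1, 0; 0, 0] : M2) * !![1, 0; 0, 0] = (1 : ℂ) • (!![1, 0; 0, 0] : M2)
      ext i j
      fin_cases i <;> fin_cases j <;> simp
    · simp [hp]
    · simp [hp]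
    · simp [hp]

theorem presH_mul_lin {m k : M2} (hm' : Pres H (hm ((0, m, 0, 0, 1) : LH T R) 1))
    (hk : Pres H (hm ((0, k, 0, 0, 1) : LH T R) 1)) :
    Pres H (hm ((0, m * k, 0, 0, 1) : LH T R) 1) := by
  have h1 := hm'.mul hk
  rw [hm_mul, mul_one] at h1
  refine (congrArg (fun x => Pres H (hm x 1)) ?_).mp h1
  refine Prod.ext ?_ (Prod.ext rfl (Prod.ext ?_ (Prod.ext ?_ ?_))) <;> simp [hp]

/-- The special linear group. -/
theorem presH_sl {m : M2} (hm' : m.det = 1) : Pres H (hm ((0, m, 0, 0, 1) : LH T R) 1) := by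
  have hu : ∀ s : ℂ, Pres H (hm ((0, (!![1, s; 0, 1] : M2), 0, 0, 1) : LH T R) 1) := by
    intro s
    have h1 := presH_elem hst (N := !![0, s; 0, 0]) (by
      ext i j
      fin_cases i <;> fin_cases j <;> simp) (by simp [Matrix.trace_fin_two])
    have h2 : (1 : M2) + !![0, s; 0, 0] = !![1, s; 0, 1] := by
      ext i j
      fin_cases i <;> fin_cases j <;> simp
    rwa [h2] at h1
  have hl : ∀ s : ℂ, Pres H (hm ((0, (!![1, 0; s, 1] : M2), 0, 0, 1) : LH T R) 1) := by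
    intro s
    have h1 := presH_elem hst (N := !![0, 0; s, 0]) (by
      ext i j
      fin_cases i <;> fin_cases j <;> simp) (by simp [Matrix.trace_fin_two])
    have h2 : (1 : M2) + !![0, 0; s, 0] = !![1, 0; s, 1] := by
      ext i j
      fin_cases i <;> fin_cases j <;> simp
    rwa [h2] at h1
  have key : ∀ m : M2, m.det = 1 → m 1 0 ≠ 0 →
      Pres H (hm ((0, m, 0, 0, 1) : LH T R) 1) := by
    intro m hm' h0
    rw [Matrix.det_fin_two] at hm'
    have h1 : m = !![1, (m 0 0 - 1) / m 1 0; 0, 1] * !![1, 0; m 1 0, 1] *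
        !![1, (m 1 1 - 1) / m 1 0; 0, 1] := by
      ext i j
      fin_cases i <;> fin_cases j
      · simp only [Fin.zero_eta, Matrix.mul_apply, Fin.sum_univ_two]
        simp
        field_simp
        ring
      · simp only [Fin.zero_eta, Fin.mk_one, Matrix.mul_apply, Fin.sum_univ_two]
        simp
        field_simp
        linear_combination (-1 : ℂ) * hm'
      · simp only [Fin.zero_eta, Fin.mk_one, Matrix.mul_apply, Fin.sum_univ_two]
        simp
      · simp only [Fin.mk_one, Matrix.mul_apply, Fin.sum_univ_two]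
        simp
        field_simp
        ring
    rw [h1]
    exact presH_mul_lin hst (presH_mul_lin hst (hu _) (hl _)) (hu _)
  by_cases h0 : m 1 0 = 0
  · have h1 : m = m * !![1, 0; 1, 1] * !![1, 0; -1, 1] := by
      rw [Matrix.mul_assoc]
      have h2 : (!![1, 0; 1, 1] : M2) * !![1, 0; -1, 1] = 1 := by
        ext i j
        fin_cases i <;> fin_cases j <;> simp
      rw [h2, Matrix.mul_one]
    rw [h1]
    refine presH_mul_lin hst (key _ ?_ ?_) (hl _)
    · rw [Matrix.det_mul, hm', Matrix.det_fin_two]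
      simp
    · rw [Matrix.det_fin_two, h0, mul_zero, sub_zero] at hm'
      rw [Matrix.mul_apply, Fin.sum_univ_two]
      simp only [Matrix.of_apply, Matrix.cons_val', Matrix.cons_val_zero, Matrix.cons_val_one,
        Matrix.cons_val_fin_one, mul_one, h0, zero_add]
      intro h
      rw [h, mul_zero] at hm'
      exact zero_ne_one hm'
  · exact key m hm' h0

/-- **The whole group.** -/
theorem presH_all {x : LH T R} (hx : x.2.1.det = x.2.2.2.2) (h0 : x.2.2.2.2 ≠ 0) :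
    Pres H (hm x 1) := by
  obtain ⟨b, a, c, e, t⟩ := x
  change a.det = t at hx
  change t ≠ 0 at h0
  have h1 : Pres H (hm ((0, a * !![t⁻¹, 0; 0, 1], 0, 0, 1) : LH T R) 1) := by
    refine presH_sl hst ?_
    rw [Matrix.det_mul, hx, Matrix.det_fin_two]
    simp [h0]
  have h2 := h1.mul (presH_torus hst t)
  have h3 : a * !![t⁻¹, 0; 0, 1] * !![t, 0; 0, 1] = a := by
    have h4 : (!![t⁻¹, 0; 0, 1] : M2) * !![t, 0; 0, 1] = 1 := by
      ext i j
      fin_cases i <;> fin_cases j <;> simp [h0]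
    rw [Matrix.mul_assoc, h4, Matrix.mul_one]
  have h4 : hp ((0, a * !![t⁻¹, 0; 0, 1], 0, 0, 1) : LH T R) (0, !![t, 0; 0, 1], 0, 0, t) 1 =
      (0, a, 0, 0, t) := by
    refine Prod.ext ?_ (Prod.ext h3 (Prod.ext ?_ (Prod.ext ?_ ?_))) <;> simp [hp]
  rw [hm_mul, h4, mul_one] at h2
  have h5 := ((presH_unip₁ hst (t⁻¹ • c - e * a⁻¹ * (t⁻¹ • b)) (e * a⁻¹)).mul
    (presH_unip₂ hst (t⁻¹ • b))).mul h2
  rw [hm_mul, hm_mul, mul_one, mul_one] at h5
  refine (congrArg (fun x => Pres H (hm x 1)) ?_).mp h5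
  refine Prod.ext ?_ (Prod.ext ?_ (Prod.ext ?_ (Prod.ext ?_ ?_)))
  · change t • ((1 : ℂ) • (0 : Matrix (Fin 2) T ℂ) + (1 : M2) * (t⁻¹ • b)) +
      (1 : M2) * 1 * (0 : Matrix (Fin 2) T ℂ) = b
    rw [Matrix.mul_zero, add_zero, smul_zero, zero_add, Matrix.one_mul, smul_smul,
      mul_inv_cancel₀ h0, one_smul]
  · change (1 : M2) * 1 * a = a
    rw [Matrix.one_mul, Matrix.one_mul]
  · change t • ((1 : ℂ) • (t⁻¹ • c - e * a⁻¹ * (t⁻¹ • b)) + e * a⁻¹ * (t⁻¹ • b) +
      (1 : ℂ) • (0 : Matrix R T ℂ)) + (e * a⁻¹ * 1 + (1 : ℂ) • (0 : Matrix R (Fin 2) ℂ)) *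
      (0 : Matrix (Fin 2) T ℂ) + (1 : ℂ) • (0 : Matrix R T ℂ) = c
    rw [one_smul, sub_add_cancel, smul_zero, smul_zero, Matrix.mul_zero, add_zero, add_zero,
      add_zero, smul_smul, mul_inv_cancel₀ h0, one_smul]
  · change (e * a⁻¹ * 1 + (1 : ℂ) • (0 : Matrix R (Fin 2) ℂ)) * a +
      (1 : ℂ) • (0 : Matrix R (Fin 2) ℂ) = e
    rw [smul_zero, add_zero, Matrix.mul_one, add_zero, Matrix.mul_assoc,
      Matrix.nonsing_inv_mul _ (by rw [hx]; exact isUnit_iff_ne_zero.2 h0), Matrix.mul_one]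
  · change (1 : ℂ) * 1 * t = t
    ring

end gen

/-- **Main theorem for one-motives of a curve.** -/
theorem third_main (hH : AlgGrp F H) (hFK : F ≤ K) (hKA : ∀ x, IsAlgebraic ℚ x ↔ x ∈ K)
    (hdet : (D.P ()).det = n * D.w) (hnF : n ∈ F) (hI : Indep D K)
    (hA : A * A' = 1) (hA' : ∀ i j, A' i j ∈ K) (hPA : hm (pH D c) 1 * A ∈ H)
    {x : LH T R} (hx : x.2.1.det = x.2.2.2.2) (h0 : x.2.2.2.2 ≠ 0) : hm x 1 ∈ H := by
  have hn : n ≠ 0 := by
    rintro rfl
    rw [zero_mul] at hdet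
    have h2 := congrArg Matrix.det (D.PP' ())
    rw [Matrix.det_mul, hdet, zero_mul, Matrix.det_one] at h2
    exact zero_ne_one h2
  have hK : SqClosed K := by
    intro z hz
    rw [← hKA] at hz ⊢
    rw [← sq] at hz
    exact hz.of_pow two_pos
  have hst : ∀ x : LH T R, x.2.1.trace = x.2.2.2.2 → ∀ d, Stab H d (hm x 0) := by
    intro x hx d
    have hS := good_SH c hH hFK (fun x hx => (hKA x).2 hx) hdet hnF hA hA' hPA d
    refine (SH_all (fun y hy => ?_) hn hx).2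
    exact hS.main (fun u x hx => hS.iso' hI hFK hK (fun x hx => (hKA x).1 hx)
      (fun u u' huu => absurd (Subsingleton.elim u u') huu) u hx) hI hFK
      (fun x hx => (hKA x).1 hx) hy
  have h1 := presH_all hst hx h0
  have hu' : IsUnit x.2.1.det := by
    rw [hx]
    exact isUnit_iff_ne_zero.2 h0
  obtain ⟨b, a, c', e, t⟩ := x
  change a.det = t at hx
  change t ≠ 0 at h0
  change IsUnit a.det at hu'
  have e1 : hp ((b, a, c', e, t) : LH T R) (-(t⁻¹ • (a⁻¹ * b)), a⁻¹,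
      t⁻¹ • (e * (a⁻¹ * b) - c'), -(e * a⁻¹), t⁻¹) 1 = hu := by
    refine Prod.ext ?_ (Prod.ext ?_ (Prod.ext ?_ (Prod.ext ?_ ?_)))
    · change t⁻¹ • b + a * (-(t⁻¹ • (a⁻¹ * b))) = 0
      rw [Matrix.mul_neg, Matrix.mul_smul, ← Matrix.mul_assoc, Matrix.mul_nonsing_inv _ hu',
        Matrix.one_mul, add_neg_cancel]
    · exact Matrix.mul_nonsing_inv _ hu'
    · change t⁻¹ • c' + e * (-(t⁻¹ • (a⁻¹ * b))) + (1 : ℂ) • (t⁻¹ • (e * (a⁻¹ * b) - c')) = 0
      rw [Matrix.mul_neg, Matrix.mul_smul, one_smul, smul_sub]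
      abel
    · change e * a⁻¹ + (1 : ℂ) • (-(e * a⁻¹)) = 0
      rw [one_smul, add_neg_cancel]
    · change t * t⁻¹ = 1
      exact mul_inv_cancel₀ h0
  have e2 : hm ((b, a, c', e, t) : LH T R) 1 * hm ((-(t⁻¹ • (a⁻¹ * b)), a⁻¹,
      t⁻¹ • (e * (a⁻¹ * b) - c'), -(e * a⁻¹), t⁻¹) : LH T R) 1 = 1 := by
    rw [hm_mul, e1, mul_one, hm_one]
  exact hH.mem_of_pres h1 e2 (mul_eq_one_comm.1 e2)

/-! ### The transcendence input, for general sets of indices -/

section trans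

open H667R3 Pool.Agent.W245.EB

variable {Q J : Type} [Fintype Q] [DecidableEq Q] [Fintype J] [DecidableEq J]

/-- The periods of an elliptic curve, of points on it and logarithms. -/
noncomputable def perG (L : PeriodPair) (u : Q → ℂ) (l : J → ℂ) : Per Unit (fun _ => Q) J where
  P _ := pE L
  P' _ := (pE L)⁻¹
  PP' _ := Matrix.mul_nonsing_inv _ (isUnit_iff_ne_zero.2 (pE_det_ne L))
  P'P _ := Matrix.nonsing_inv_mul _ (isUnit_iff_ne_zero.2 (pE_det_ne L))
  U _ := Matrix.of fun j => ![u j, zt L (u j)]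
  w := 2 * Real.pi * Complex.I
  w0 := Complex.two_pi_I_ne_zero
  l := l

theorem indep_perG {L : PeriodPair} (h2 : IsAlgebraic ℚ L.g₂) (h3 : IsAlgebraic ℚ L.g₃)
    (hcm : ∀ a : ℂ, (∀ w ∈ L.lattice, a * w ∈ L.lattice) → ∃ n : ℤ, a = n)
    (u : Q → ℂ) (hu : ∀ j, u j ∈ EL L)
    (hui : LinearIndependent ℚ (Sum.elim ![L.ω₁, L.ω₂] u))
    (l : J → ℂ) (hl : ∀ j, IsAlgebraic ℚ (Complex.exp (l j)))
    (hli : LinearIndependent ℚ (Sum.elim ![2 * Real.pi * Complex.I] l)) :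
    Indep (perG L u l) QB where
  lin := by
    intro c q hq hqK ν hν a ha h
    set v : Fin 2 ⊕ Q → ℂ := Sum.elim ![L.ω₁, L.ω₂] u with hv
    set e : Fin (Fintype.card (Fin 2 ⊕ Q)) ≃ Fin 2 ⊕ Q := (Fintype.equivFin _).symm with he
    set γ : Fin 2 ⊕ Q → ℂ := Sum.elim ν a with hγ
    have hvE : ∀ i, v i ∈ EL L := by
      rintro (i | j)
      · rw [hv, Sum.elim_inl]
        fin_cases i
        · exact Or.inl L.ω₁_mem_lattice
        · exact Or.inl L.ω₂_mem_lattice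
      · exact hu j
    have hind : ∀ α : Fin (Fintype.card (Fin 2 ⊕ Q)) → ℂ, (∀ i, α i ∈ kL L) →
        ∑ i, α i * v (e i) = 0 → α = 0 := by
      intro α hα hs
      choose b hb using fun i => mem_kL_rat hcm (hα i)
      have h4 : ∑ x, b (e.symm x) • v x = 0 := by
        rw [← Equiv.sum_comp e]
        rw [← hs]
        refine Finset.sum_congr rfl fun i _ => ?_
        rw [Equiv.symm_apply_apply, ← hb i, Rat.smul_def]
      funext i
      have h5 := Fintype.linearIndependent_iff.1 hui _ h4 (e i)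
      rw [Equiv.symm_apply_apply] at h5
      rw [← hb i, h5]
      simp
    have hsρ : q 1 ≠ 0 ∨ q 0 ≠ 0 := by
      by_contra hcon
      push Not at hcon
      apply hq
      funext i
      fin_cases i
      · exact hcon.2
      · exact hcon.1
    have h6 := second_kind h2 h3 (fun i => v (e i)) (fun i => hvE _) hind (q 1) (q 0)
      (mem_QB.1 (hqK 1)) (mem_QB.1 (hqK 0)) hsρ (fun i => γ (e i)) (by
        intro i
        rcases e i with x | x
        · exact mem_QB.1 (hν x)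
        · exact mem_QB.1 (ha x)) (by
        rw [← mem_QB]
        convert h using 1
        rw [Equiv.sum_comp e (fun x => γ x * (q 1 * zt L (v x) + q 0 * v x)), Fintype.sum_sum_type,
          Fin.sum_univ_two]
        simp only [hγ, hv, Sum.elim_inl, Sum.elim_inr, perG, pE, dotProduct, Fin.sum_univ_two,
          Matrix.mulVec, Matrix.of_apply, Matrix.cons_val_zero, Matrix.cons_val_one]
        rw [zt_of_mem L.ω₁_mem_lattice, zt_of_mem L.ω₂_mem_lattice]
        congr 1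
        · ring
        · refine Finset.sum_congr rfl fun j _ => ?_
          ring)
    have h7 : ∀ x, γ x = 0 := by
      intro x
      have := congrFun h6 (e.symm x)
      simpa using this
    exact ⟨funext fun i => h7 (Sum.inl i), funext fun j => h7 (Sum.inr j)⟩
  log := by
    intro a ha μ hμ h
    set v : Fin 1 ⊕ J → ℂ := Sum.elim ![2 * Real.pi * Complex.I] l with hv
    have h4 := Pool.Agent.H297R2.baker_inhom v (by
      rintro (i | j)
      · have : v (Sum.inl i) = 2 * Real.pi * Complex.I := by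
          rw [hv, Sum.elim_inl]
          fin_cases i
          rfl
        rw [this, Complex.exp_two_pi_mul_I]
        exact isAlgebraic_one
      · exact hl j) hli (-(a * (perG L u l).w + μ ⬝ᵥ (perG L u l).l)) (mem_QB.1 h).neg
      (Sum.elim (fun _ => a) μ) (by
      rintro (i | j)
      · exact mem_QB.1 ha
      · exact mem_QB.1 (hμ j)) (by
      rw [Fintype.sum_sum_type]
      simp only [hv, Sum.elim_inl, Sum.elim_inr, Fin.sum_univ_one, perG, dotProduct,
        Matrix.cons_val_zero]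
      ring)
    exact ⟨h4.2 (Sum.inl 0), funext fun j => h4.2 (Sum.inr j)⟩

end trans

end Pool.Agent.TH119.MX
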